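import Pool.Agent.LibGP53.Defs

/-! The number of primes in `(n, k]` as a difference of `Nat.primeCounting`. -/

open Finset

namespace GP

theorem card_primes_Ioc (n k : ℕ) :
    ((Ioc n k).filter Nat.Prime).card = Nat.primeCounting k - Nat.primeCounting n := by
  rcases le_total k n with h | h
  · rw [Finset.Ioc_eq_empty_of_le h, Finset.filter_empty, Finset.card_empty]
    have := Nat.monotone_primeCounting h
    omega
  · have h1 : Nat.primeCounting k = Nat.primeCounting n + ((Ioc n k).filter Nat.Prime).card := by
      unfold Nat.primeCounting Nat.primeCounting'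
      rw [Nat.count_eq_card_filter_range, Nat.count_eq_card_filter_range,
        ← Finset.card_union_of_disjoint]
      · congr 1
        ext p
        simp only [mem_filter, mem_range, mem_union, mem_Ioc]
        constructor
        · rintro ⟨hp, hpp⟩
          by_cases hpn : p < n + 1
          · exact Or.inl ⟨hpn, hpp⟩
          · exact Or.inr ⟨⟨by omega, by omega⟩, hpp⟩
        · rintro (⟨hp, hpp⟩ | ⟨⟨hp1, hp2⟩, hpp⟩)
          · exact ⟨by omega, hpp⟩
          · exact ⟨by omega, hpp⟩
      · rw [Finset.disjoint_left]
        intro p hp hq
        simp only [mem_filter, mem_range, mem_Ioc] at hp hq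
        omega
    omega

end GP
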