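import Pool.Agent.LibGP53.Defs

/-! Row D1 (20 min): double counting. `u * #{n < x : G n} ≤ ∑_{n<x, G n} #{y ∈ [n, n+v] : Q y} ≤ ∑_{y < x+v+1, Q y} #{n : n ≤ y ≤ n + v} ≤ (v+1) #{y < x+v+1 : Q y}`
(`Finset.sum_comm` or `card_sigma`). `num_shift`: `n ↦ n + s` injects. `num_mono`, `num_and`, `num_not`: elementary counting. -/

open Finset

namespace GP

theorem dcount (Q G : ℕ → Prop) [DecidablePred Q] (x u v : ℕ)
    (h : ∀ n < x, G n → u ≤ ((Icc n (n + v)).filter Q).card) :
    u * num x G ≤ (v + 1) * num (x + v + 1) Q := by
  classical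
  have key := Finset.card_mul_le_card_mul (s := (range x).filter G)
    (t := (range (x + v + 1)).filter Q) (m := u) (n := v + 1)
    (fun n y : ℕ => n ≤ y ∧ y ≤ n + v) ?_ ?_
  · have e1 : num x G = ((range x).filter G).card := by
      unfold num
      congr
    have e2 : num (x + v + 1) Q = ((range (x + v + 1)).filter Q).card := by
      unfold num
      congr
    rw [e1, e2, mul_comm u, mul_comm (v + 1)]
    exact key
  · intro n hn
    rw [mem_filter, mem_range] at hn
    refine (h n hn.1 hn.2).trans (card_le_card ?_)
    intro y hy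
    simp only [mem_filter, mem_Icc] at hy
    simp only [bipartiteAbove, mem_filter, mem_range]
    exact ⟨⟨by omega, hy.2⟩, hy.1⟩
  · intro y hy
    have h1 : ((range x).filter G).bipartiteBelow (fun n y : ℕ => n ≤ y ∧ y ≤ n + v) y ⊆
        Icc (y - v) y := by
      intro n hn
      simp only [bipartiteBelow, mem_filter, mem_range] at hn
      simp only [mem_Icc]
      omega
    refine (card_le_card h1).trans ?_
    rw [Nat.card_Icc]
    omega

theorem num_shift (Q : ℕ → Prop) (x s : ℕ) : num x Q ≤ num x (fun n => Q (n + s)) + s := by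
  classical
  unfold num
  have h1 : (range x).filter Q ⊆
      (((range x).filter fun n => Q (n + s)).image fun n => n + s) ∪ range s := by
    intro n hn
    simp only [mem_filter, mem_range] at hn
    simp only [mem_union, mem_image, mem_filter, mem_range]
    by_cases hs : n < s
    · exact Or.inr hs
    · left
      refine ⟨n - s, ⟨by omega, ?_⟩, by omega⟩
      have : n - s + s = n := by omega
      rw [this]
      exact hn.2
  calc ((range x).filter Q).card ≤ _ := card_le_card h1
    _ ≤ _ := card_union_le _ _
    _ ≤ _ := by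
      rw [card_range]
      exact Nat.add_le_add_right card_image_le _

theorem num_mono {Q R : ℕ → Prop} {x : ℕ} (h : ∀ n < x, Q n → R n) : num x Q ≤ num x R := by
  classical
  unfold num
  refine card_le_card ?_
  intro n hn
  simp only [mem_filter, mem_range] at hn ⊢
  exact ⟨hn.1, h n hn.1 hn.2⟩

theorem num_le (Q : ℕ → Prop) (x : ℕ) : num x Q ≤ x := by
  classical
  unfold num
  exact (card_filter_le _ _).trans (card_range x).le

theorem num_mono_x (Q : ℕ → Prop) {x y : ℕ} (h : x ≤ y) : num x Q ≤ num y Q := by
  classical
  unfold num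
  refine card_le_card ?_
  intro n hn
  simp only [mem_filter, mem_range] at hn ⊢
  exact ⟨by omega, hn.2⟩

theorem num_add (Q : ℕ → Prop) (x y : ℕ) : num (x + y) Q ≤ num x Q + y := by
  classical
  unfold num
  have h1 : (range (x + y)).filter Q ⊆ (range x).filter Q ∪ Ico x (x + y) := by
    intro n hn
    simp only [mem_filter, mem_range] at hn
    simp only [mem_union, mem_filter, mem_range, mem_Ico]
    by_cases hs : n < x
    · exact Or.inl ⟨hs, hn.2⟩
    · right
      omega
  calc ((range (x + y)).filter Q).card ≤ _ := card_le_card h1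
    _ ≤ _ := card_union_le _ _
    _ = _ := by rw [Nat.card_Ico, Nat.add_sub_cancel_left]

/-- removing a set -/
theorem num_sdiff (Q R : ℕ → Prop) (x : ℕ) : num x Q ≤ num x (fun n => Q n ∧ ¬ R n) + num x R := by
  classical
  unfold num
  refine le_trans (card_le_card ?_) (card_union_le _ _)
  intro n hn
  simp only [mem_filter, mem_range] at hn
  simp only [mem_union, mem_filter, mem_range]
  by_cases hs : R n
  · exact Or.inr ⟨hn.1, hs⟩
  · exact Or.inl ⟨hn.1, hn.2, hs⟩

theorem num_lt (x y : ℕ) : num x (fun n => n < y) ≤ y := by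
  classical
  unfold num
  refine le_trans (card_le_card (t := range y) ?_) (card_range y).le
  intro n hn
  simp only [mem_filter, mem_range] at hn ⊢
  exact hn.2

end GP
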