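import Mathlib

/-! LibGP53 (MP_ff81b6_nt): exact numbers of primes in windows of length `l log n`. Definitions. -/

open Finset

namespace GP

/-- the number of primes in `(n, n + t]` -/
noncomputable def cnt (n : ℕ) (t : ℝ) : ℕ :=
  Nat.primeCounting ⌊(n : ℝ) + t⌋₊ - Nat.primeCounting n

/-- no prime in `(n, n + k]` -/
def Free (n k : ℕ) : Prop := ∀ p : ℕ, n < p → p ≤ n + k → ¬ p.Prime

open scoped Classical in
/-- the number of `n < x` with `Q n` -/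
noncomputable def num (x : ℕ) (Q : ℕ → Prop) : ℕ := ((range x).filter Q).card

/-- the number of primes in `(n, n + l log n]` -/
noncomputable def FF (l : ℝ) (n : ℕ) : ℕ := cnt n (l * Real.log n)

/-- the length of a block -/
noncomputable def hh (l : ℝ) (N : ℕ) : ℕ := ⌈l * Real.log N⌉₊

/-- the output of the sieve weights: `N = z ^ q`, `M = N / W`, `n = c + W m`, blocks
`(n + j h, n + (j+1) h]`, `h = hh l N` -/
def Main (l e : ℝ) : Prop :=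
  ∃ (q : ℕ) (Bd : ℝ), 2 ≤ q ∧ 1 ≤ Bd ∧ ∀ J : ℕ, ∃ z₀ : ℕ, ∀ z : ℕ, z₀ ≤ z → ∃ W : ℕ, 0 < W ∧ W ≤ z ∧
    ∀ c < W, ∃ (X : ℕ → ℕ → ℝ) (d : ℕ → ℝ),
      (∀ j < J, 1 ≤ d j) ∧ (∀ j m, 0 ≤ X j m ∧ X j m ≤ Bd) ∧
      (∀ j < J, ∀ m < z ^ q / W, z ^ (q - 1) ≤ c + W * m → 0 < X j m →
        Free (c + W * m + j * hh l (z ^ q)) (hh l (z ^ q))) ∧
      (∀ j < J, (1 - e) * d j * ((z ^ q / W : ℕ) : ℝ) ≤ ∑ m ∈ range (z ^ q / W), X j m) ∧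
      (∀ j < J, ∑ m ∈ range (z ^ q / W), X j m ≤ (1 + e) * d j * ((z ^ q / W : ℕ) : ℝ)) ∧
      (∀ i < J, ∀ j < J, i ≠ j →
        ∑ m ∈ range (z ^ q / W), X i m * X j m ≤ (1 + e) * d i * d j * ((z ^ q / W : ℕ) : ℝ))

/-- almost all windows of length `Λ log x` contain a prime-free block of length `l log x` -/
def AllBut : Prop := ∀ l : ℝ, 0 < l → ∀ δ : ℝ, 0 < δ → ∃ Λ : ℝ, 0 < Λ ∧ ∃ x₀ : ℕ, ∀ x : ℕ, x₀ ≤ x →
  (num x (fun n => ¬ ∃ a : ℕ, (a : ℝ) ≤ Λ * Real.log x ∧ Free (n + a) ⌈l * Real.log x⌉₊) : ℝ) ≤ δ * x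

/-- upper bound for the number of pairs of primes with a difference in `(A, A + B]` -/
def Pairs : Prop := ∃ C : ℝ, 0 < C ∧ ∀ ε K : ℝ, 0 < ε → ∃ x₀ : ℕ, ∀ x : ℕ, x₀ ≤ x → ∀ A B : ℕ,
  ε * Real.log x ≤ B → (A + B : ℝ) ≤ K * Real.log x →
  ((((range x) ×ˢ (Ioc A (A + B))).filter fun v => v.1.Prime ∧ (v.1 + v.2).Prime).card : ℝ) ≤
    C * B * x / Real.log x ^ 2

/-- a positive proportion of the windows of length `l log n` contains at least `m` primes -/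
def Many (m : ℕ) (l : ℝ) : Prop := ∃ κ : ℝ, 0 < κ ∧ ∃ x₀ : ℕ, ∀ x : ℕ, x₀ ≤ x →
  κ * x ≤ (num x fun n => m ≤ FF l n : ℝ)

/-- two primes in `(n, n + K L]` whose distance is at most `η L` or within `η L` of `l L` -/
def Close (n : ℕ) (K η l L : ℝ) : Prop := ∃ p q : ℕ, p.Prime ∧ q.Prime ∧ n < p ∧ p < q ∧
  (q : ℝ) ≤ n + K * L ∧ ((q : ℝ) - p ≤ η * L ∨ |(q : ℝ) - p - l * L| ≤ η * L)

end GP
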