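import Pool.Agent.LibGP53.D1

/-! Row F0 (45 min): `m = 0`. `AllBut` with `l + 1` and `δ = 1/2`: `Λ`. Let `x` be large, `L = log x`, `G n` = there is `a ≤ Λ L` with
`Free (n+a) ⌈(l+1) L⌉₊`; `num x G ≥ x/2` (num_sdiff). For such `n` every `y` with `n + a ≤ y ≤ n + a + ⌊L/2⌋₊`, (`n < x`, so `y ≤ 2x`, `log y ≤ L + log 2`) has
`⌊y + l log y⌋₊ ≤ n + a + L/2 + l L + l log 2 ≤ n + a + ⌈(l+1) L⌉₊`, so no prime in `(y, y + l log y]`: `FF l y = 0` (the `primeCounting`s agree:
`free_FF`). These are `≥ ⌊L/2⌋₊` values `y ∈ [n, n+v]`, `v = ⌈(Λ+1) L⌉₊`. `dcount`: `num (x+v+1) (FF l = 0) ≥ ⌊L/2⌋₊ (x/2) / (v+1) ≥ c x`,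
and `num_add` removes the last `v+1 = o(x)` numbers. -/

open Finset

namespace GP

theorem F0_pi {y n k : ℕ} (h : Free n k) (hy : n ≤ y) (m : ℕ) (hm : y ≤ m) (hmk : m ≤ n + k) :
    Nat.primeCounting m ≤ Nat.primeCounting y := by
  induction m, hm using Nat.le_induction with
  | base => exact le_rfl
  | succ m hm ih =>
    have h1 := ih (by omega)
    have h2 : Nat.primeCounting (m + 1) = Nat.primeCounting m := by
      unfold Nat.primeCounting Nat.primeCounting'
      rw [Nat.count_succ, if_neg (h (m + 1) (by omega) hmk), add_zero]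
    rw [h2]; exact h1

theorem free_FF (l : ℝ) (y n k : ℕ) (h : Free n k) (hy : n ≤ y)
    (hu : ⌊(y : ℝ) + l * Real.log y⌋₊ ≤ n + k) : FF l y = 0 := by
  unfold FF cnt
  rw [Nat.sub_eq_zero_iff_le]
  rcases Nat.le_total y ⌊(y : ℝ) + l * Real.log y⌋₊ with h1 | h1
  · exact F0_pi h hy _ h1 hu
  · exact Nat.monotone_primeCounting h1

theorem zero_case (hA : AllBut) (l : ℝ) (hl : 0 < l) : ∃ c : ℝ, 0 < c ∧ ∃ x₀ : ℕ, ∀ x : ℕ, x₀ ≤ x →
    c * x ≤ (num x fun n => FF l n = 0 : ℝ) := by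
  classical
  obtain ⟨Λ, hΛ, x₁, hx₁⟩ := hA (l + 1) (by linarith) (1 / 2) (by norm_num)
  obtain ⟨B, hBdef⟩ : ∃ B, B = Λ + 3 := ⟨_, rfl⟩
  have hB3 : 3 ≤ B := by linarith
  have hB0 : 0 < B := by linarith
  have t1 : Filter.Tendsto (fun x : ℕ => Real.log (x:ℝ)) Filter.atTop Filter.atTop :=
    Real.tendsto_log_atTop.comp tendsto_natCast_atTop_atTop
  have o1 := (Real.isLittleO_log_id_atTop.def (c := (8 * B ^ 2)⁻¹) (by positivity))
  have o2 := (tendsto_natCast_atTop_atTop (R := ℝ)).eventually o1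
  have ev := (t1.eventually_ge_atTop (1 + 2 * l)).and (o2.and (Filter.eventually_ge_atTop (max x₁ 1)))
  obtain ⟨x₂, hx₂⟩ := Filter.eventually_atTop.1 ev
  refine ⟨1 / (8 * B), by positivity, x₂, ?_⟩
  intro x hx
  obtain ⟨hL1, ho, hxm⟩ := hx₂ x hx
  have hxx₁ : x₁ ≤ x := (le_max_left _ _).trans hxm
  have hx1 : 1 ≤ x := (le_max_right _ _).trans hxm
  have hx1r : (1:ℝ) ≤ x := by exact_mod_cast hx1
  have hx0 : (0:ℝ) < x := by linarith
  obtain ⟨L, hL⟩ : ∃ L, L = Real.log x := ⟨_, rfl⟩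
  have hbad := hx₁ x hxx₁
  rw [← hL] at hL1 ho hbad
  have hL0 : 1 ≤ L := by linarith
  have hLx : 8 * B ^ 2 * L ≤ x := by
    rw [id, Real.norm_eq_abs, Real.norm_eq_abs, abs_of_nonneg (by linarith : 0 ≤ L), abs_of_nonneg hx0.le,
      inv_mul_eq_div, le_div_iff₀ (by positivity)] at ho
    linarith
  have hBL : B * L ≤ x / (8 * B) := by
    rw [le_div_iff₀ (by positivity)]
    have e : B * L * (8 * B) = 8 * B ^ 2 * L := by ring
    rw [e]; exact hLx
  have hBLx : B * L ≤ x := hBL.trans (div_le_self hx0.le (by linarith))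
  have hBL' : B * L = Λ * L + 3 * L := by rw [hBdef]; ring
  have hΛL : (Λ + 1) * L = Λ * L + L := by ring
  have hlL : (l + 1) * L = l * L + L := by ring
  -- good n
  obtain ⟨G, hG⟩ : ∃ G : ℕ → Prop, G = fun n => ∃ a : ℕ, (a : ℝ) ≤ Λ * L ∧ Free (n + a) ⌈(l + 1) * L⌉₊ :=
    ⟨_, rfl⟩
  have hbad2 : (num x (fun n => ¬ G n) : ℝ) ≤ 1 / 2 * x := by rw [hG]; exact hbad
  have hsplit : x = num x G + num x (fun n => ¬ G n) := by
    have := Finset.card_filter_add_card_filter_not (s := range x) G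
    rw [card_range] at this
    have e1 : num x G = ((range x).filter G).card := by unfold num; congr
    have e2 : num x (fun n => ¬ G n) = ((range x).filter (fun n => ¬ G n)).card := by unfold num; congr
    rw [e1, e2]; exact this.symm
  have hsplitr : (x:ℝ) = num x G + num x (fun n => ¬ G n) := by exact_mod_cast hsplit
  have hGx : (x:ℝ) / 2 ≤ num x G := by linarith
  obtain ⟨v, hv⟩ : ∃ v, v = ⌈(Λ + 1) * L⌉₊ := ⟨_, rfl⟩
  obtain ⟨w, hw⟩ : ∃ w, w = ⌊L / 2⌋₊ := ⟨_, rfl⟩
  have hv1 : (Λ + 1) * L ≤ v := by rw [hv]; exact Nat.le_ceil _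
  have hv2 : (v:ℝ) ≤ (Λ + 1) * L + 1 := by
    rw [hv]; exact (Nat.ceil_lt_add_one (by positivity)).le
  have hw1 : (w:ℝ) ≤ L / 2 := by rw [hw]; exact Nat.floor_le (by positivity)
  have hw2 : L / 2 ≤ w + 1 := by rw [hw]; exact (Nat.lt_floor_add_one _).le
  have hdc := dcount (fun n => FF l n = 0) G x (w + 1) v (by
    intro n hn hGn
    rw [hG] at hGn
    obtain ⟨a, ha, hfree⟩ := hGn
    have hsub : Icc (n + a) (n + a + w) ⊆ (Icc n (n + v)).filter (fun n => FF l n = 0) := by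
      intro y hy
      rw [mem_Icc] at hy
      rw [mem_filter, mem_Icc]
      have hnr : (n:ℝ) ≤ x := by exact_mod_cast hn.le
      have hy2 : (y:ℝ) ≤ n + a + w := by exact_mod_cast hy.2
      refine ⟨⟨by omega, ?_⟩, ?_⟩
      · have h1 : (y:ℝ) ≤ n + v := by linarith
        exact_mod_cast h1
      · refine free_FF l y (n + a) _ hfree hy.1 ?_
        have hlogy : Real.log y ≤ L + 1 := by
          rcases Nat.eq_zero_or_pos y with h0 | h0
          · rw [h0]; simp; linarith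
          · have hy0 : (0:ℝ) < y := by exact_mod_cast h0
            have hyx : (y:ℝ) ≤ 2 * x := by linarith
            have h2 := Real.log_le_log hy0 hyx
            rw [Real.log_mul (by norm_num) hx0.ne', ← hL] at h2
            have h3 : Real.log 2 ≤ 1 := by
              have := Real.log_two_lt_d9
              linarith
            linarith
        have h4 : (y:ℝ) + l * Real.log y ≤ ((n + a + ⌈(l + 1) * L⌉₊ : ℕ) : ℝ) := by
          have h5 : l * Real.log y ≤ l * (L + 1) := mul_le_mul_of_nonneg_left hlogy hl.le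
          have h6 : (l + 1) * L ≤ (⌈(l + 1) * L⌉₊ : ℝ) := Nat.le_ceil _
          push_cast
          have h7 : l * (L + 1) = l * L + l := by ring
          linarith
        exact (Nat.floor_le_floor h4).trans (by rw [Nat.floor_natCast])
    have hc := card_le_card hsub
    rw [Nat.card_Icc] at hc
    omega)
  have hadd := num_add (fun n => FF l n = 0) x (v + 1)
  have e3 : x + v + 1 = x + (v + 1) := by ring
  rw [e3] at hdc
  have hdc2 : (w + 1) * num x G ≤ (v + 1) * (num x (fun n => FF l n = 0) + (v + 1)) :=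
    hdc.trans (Nat.mul_le_mul_left _ hadd)
  have hdc3 : ((w:ℝ) + 1) * num x G ≤ ((v:ℝ) + 1) * ((num x (fun n => FF l n = 0) : ℝ) + (v + 1)) := by
    exact_mod_cast hdc2
  have hvB : (v:ℝ) + 1 ≤ B * L := by linarith
  have hn0 : (0:ℝ) ≤ (num x (fun n => FF l n = 0) : ℝ) := Nat.cast_nonneg _
  have h7 : L / 2 * (x / 2) ≤ B * L * ((num x (fun n => FF l n = 0) : ℝ) + B * L) := by
    calc L / 2 * (x / 2) ≤ ((w:ℝ) + 1) * num x G :=
          mul_le_mul hw2 hGx (by positivity) (by positivity)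
      _ ≤ ((v:ℝ) + 1) * ((num x (fun n => FF l n = 0) : ℝ) + (v + 1)) := hdc3
      _ ≤ B * L * ((num x (fun n => FF l n = 0) : ℝ) + B * L) :=
          mul_le_mul hvB (by linarith) (by positivity) (by positivity)
  have h8 : x / 4 ≤ B * ((num x (fun n => FF l n = 0) : ℝ) + B * L) := by
    have hLpos : 0 < L := by linarith
    have h9 : L * (x / 4) ≤ L * (B * ((num x (fun n => FF l n = 0) : ℝ) + B * L)) := by
      have e5 : L * (x / 4) = L / 2 * (x / 2) := by ring
      have e6 : L * (B * ((num x (fun n => FF l n = 0) : ℝ) + B * L)) =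
        B * L * ((num x (fun n => FF l n = 0) : ℝ) + B * L) := by ring
      rw [e5, e6]; exact h7
    exact le_of_mul_le_mul_left h9 hLpos
  have h10 : B * (B * L) ≤ x / 8 := by
    have := mul_le_mul_of_nonneg_left hBL hB0.le
    have e4 : B * (x / (8 * B)) = x / 8 := by field_simp
    rw [e4] at this; exact this
  rw [mul_add] at h8
  have h11 : x / 8 ≤ B * (num x (fun n => FF l n = 0) : ℝ) := by linarith
  rw [one_div, inv_mul_eq_div, div_le_iff₀ (by positivity)]
  have e7 : (num x (fun n => FF l n = 0) : ℝ) * (8 * B) = 8 * (B * (num x (fun n => FF l n = 0) : ℝ)) := by ring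
  rw [e7]; linarith

end GP
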