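import Pool.Agent.LibGP53.Defs

/-! Row P3 (45 min): close pairs. `L = log x`. If `Close n K η l L` with `p, q` then `d = q - p ≤ K L`, `p ≤ n + K L < 2x`, and `d` is in `Ioc 0 B₁`,
`B₁ = ⌈η L⌉₊`, or in `Ioc A₂ (A₂ + B₂)` with `A₂ = ⌊l L - η L⌋₊ - 1` (natural subtraction, fine) and `B₂ = ⌈2 η L⌉₊ + 3`. For given `(p, d)` the number of
`n` is at most `K L + 1` (`n < p`, `n ≥ q - K L`). So the number of `n` is at most `(K L + 1) * (pairs₁ + pairs₂)`, `Pairs` at `2 x` with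
`ε = η/2` and the constant `l + K + 2 η + 6`; `B₁ + B₂ ≤ 3 η L + 5 ≤ 4 η L` for large `x`. `C'` must not depend on `K, η, l`. -/

open Finset

namespace GP

theorem P3_cover (x : ℕ) (T : ℝ) (hT : 0 ≤ T) (S : Finset (ℕ × ℕ)) (Q : ℕ → Prop)
    (h : ∀ n < x, Q n → ∃ v ∈ S, n < v.1 ∧ (v.1 : ℝ) ≤ n + T) :
    (num x Q : ℝ) ≤ T * S.card := by
  classical
  have hsub : (range x).filter Q ⊆ S.biUnion (fun v => Ico (v.1 - ⌊T⌋₊) v.1) := by
    intro n hn
    rw [mem_filter, mem_range] at hn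
    obtain ⟨v, hv, h1, h2⟩ := h n hn.1 hn.2
    rw [mem_biUnion]
    refine ⟨v, hv, ?_⟩
    rw [mem_Ico]
    refine ⟨?_, h1⟩
    have h3 : v.1 - n ≤ ⌊T⌋₊ := by
      apply Nat.le_floor
      rw [Nat.cast_sub h1.le]
      linarith
    omega
  have hcard : ((range x).filter Q).card ≤ S.card * ⌊T⌋₊ := by
    refine (card_le_card hsub).trans (card_biUnion_le.trans ?_)
    rw [← smul_eq_mul]
    refine sum_le_card_nsmul _ _ _ fun v _ => ?_
    rw [Nat.card_Ico]
    omega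
  have hnum : num x Q = ((range x).filter Q).card := by
    unfold num
    congr
  rw [hnum]
  have h1 : (((range x).filter Q).card : ℝ) ≤ S.card * (⌊T⌋₊ : ℝ) := by exact_mod_cast hcard
  have h2 : (⌊T⌋₊ : ℝ) ≤ T := Nat.floor_le hT
  calc _ ≤ (S.card : ℝ) * (⌊T⌋₊ : ℝ) := h1
    _ ≤ (S.card : ℝ) * T := by gcongr
    _ = _ := mul_comm _ _

theorem close (hP : Pairs) : ∃ C : ℝ, 0 < C ∧ ∀ K η l : ℝ, 1 ≤ K → 0 < η → 0 < l → ∃ x₀ : ℕ,
    ∀ x : ℕ, x₀ ≤ x → (num x (fun n => Close n K η l (Real.log x)) : ℝ) ≤ C * K * η * x := by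
  obtain ⟨C, hC, hP⟩ := hP
  refine ⟨16 * C, by positivity, fun K η l hK hη hl => ?_⟩
  obtain ⟨x₁, hx₁⟩ := hP (η / 2) (l + 2 * η + 6) (by positivity)
  -- largeness
  have hlogT : Filter.Tendsto (fun x : ℕ => Real.log x) Filter.atTop Filter.atTop :=
    Real.tendsto_log_atTop.comp tendsto_natCast_atTop_atTop
  have hlin : Filter.Tendsto (fun x : ℕ => Real.log x / (x : ℝ)) Filter.atTop (nhds 0) := by
    have h1 : Filter.Tendsto (fun x : ℝ => Real.log x / x) Filter.atTop (nhds 0) := by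
      have := Real.isLittleO_log_id_atTop.tendsto_div_nhds_zero
      simpa using this
    exact h1.comp tendsto_natCast_atTop_atTop
  have hev : ∀ᶠ x : ℕ in Filter.atTop, (5 / η + 1 ≤ Real.log x ∧ K * Real.log x ≤ x) ∧
      (x₁ ≤ x ∧ 2 ≤ x) := by
    refine ((hlogT.eventually_ge_atTop (5 / η + 1)).and ?_).and
      ((Filter.eventually_ge_atTop x₁).and (Filter.eventually_ge_atTop 2))
    have h2 := hlin.eventually (gt_mem_nhds (show (0 : ℝ) < 1 / K by positivity))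
    filter_upwards [h2, Filter.eventually_gt_atTop 0] with x hx hx0
    have hx0' : (0 : ℝ) < x := by exact_mod_cast hx0
    rw [div_lt_div_iff₀ hx0' (by positivity), one_mul] at hx
    linarith
  obtain ⟨x₀, hx₀⟩ := Filter.eventually_atTop.1 hev
  refine ⟨x₀, fun x hx => ?_⟩
  obtain ⟨⟨hL, hKx⟩, hxx1, hx2⟩ := hx₀ x hx
  set L := Real.log x with hLdef
  have hL1 : 1 ≤ L := by
    have : 0 < 5 / η := by positivity
    linarith
  have hL5 : 5 ≤ η * L := by
    have h1 : 5 / η ≤ L := by linarith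
    rw [div_le_iff₀ hη] at h1
    linarith
  have hx0 : (0 : ℝ) < x := by exact_mod_cast (by omega : 0 < x)
  have hlog2 : Real.log ((2 * x : ℕ) : ℝ) = Real.log 2 + L := by
    push_cast
    rw [Real.log_mul (by norm_num) hx0.ne']
  have hL2 : L ≤ Real.log ((2 * x : ℕ) : ℝ) := by
    rw [hlog2]
    linarith [Real.log_nonneg (show (1 : ℝ) ≤ 2 by norm_num)]
  have hL2' : Real.log ((2 * x : ℕ) : ℝ) ≤ 2 * L := by
    rw [hlog2]
    have : Real.log 2 ≤ L := Real.log_le_log (by norm_num) (by exact_mod_cast hx2)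
    linarith
  set B₁ := ⌈η * L⌉₊ with hB1
  set A₂ := ⌊l * L - η * L⌋₊ - 1 with hA2
  set B₂ := ⌈2 * η * L⌉₊ + 3 with hB2
  have hB1l : η * L ≤ (B₁ : ℝ) := Nat.le_ceil _
  have hB1u : (B₁ : ℝ) < η * L + 1 := Nat.ceil_lt_add_one (by positivity)
  have hB2l : 2 * η * L + 3 ≤ (B₂ : ℝ) := by
    rw [hB2]
    push_cast
    linarith [Nat.le_ceil (2 * η * L)]
  have hB2u : (B₂ : ℝ) < 2 * η * L + 4 := by
    rw [hB2]
    push_cast
    linarith [Nat.ceil_lt_add_one (show 0 ≤ 2 * η * L by positivity)]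
  have hA2l : l * L - η * L - 2 ≤ (A₂ : ℝ) := by
    have h1 : l * L - η * L < (⌊l * L - η * L⌋₊ : ℝ) + 1 := Nat.lt_floor_add_one _
    have h2 : ⌊l * L - η * L⌋₊ ≤ A₂ + 1 := by omega
    have h3 : (⌊l * L - η * L⌋₊ : ℝ) ≤ (A₂ : ℝ) + 1 := by exact_mod_cast h2
    linarith
  have hA2u : (A₂ : ℝ) ≤ l * L := by
    have h2 : A₂ ≤ ⌊l * L⌋₊ := by
      have : ⌊l * L - η * L⌋₊ ≤ ⌊l * L⌋₊ := Nat.floor_le_floor (by nlinarith)
      omega
    have h3 : (A₂ : ℝ) ≤ (⌊l * L⌋₊ : ℝ) := by exact_mod_cast h2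
    exact h3.trans (Nat.floor_le (by positivity))
  have hA2d : ∀ d : ℕ, 0 < d → l * L - η * L ≤ d → A₂ < d := by
    intro d hd h
    rcases Nat.eq_zero_or_pos A₂ with h0 | h0
    · omega
    · have h1 : ⌊l * L - η * L⌋₊ ≤ d := by
        have : ⌊l * L - η * L⌋₊ ≤ ⌊(d : ℝ)⌋₊ := Nat.floor_le_floor h
        rwa [Nat.floor_natCast] at this
      omega
  have hp1 := hx₁ (2 * x) (by omega) 0 B₁
    ((show η / 2 * Real.log ((2 * x : ℕ) : ℝ) ≤ (B₁ : ℝ) by nlinarith))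
    (by
      have : η * L + 1 ≤ (l + 2 * η + 6) * L := by nlinarith [mul_pos hl (by linarith : 0 < L)]
      have h2 : (l + 2 * η + 6) * L ≤ (l + 2 * η + 6) * Real.log ((2 * x : ℕ) : ℝ) := by gcongr
      push_cast at h2 ⊢
      linarith)
  have hp2 := hx₁ (2 * x) (by omega) A₂ B₂
    ((show η / 2 * Real.log ((2 * x : ℕ) : ℝ) ≤ (B₂ : ℝ) by nlinarith))
    (by
      have : l * L + (2 * η * L + 4) ≤ (l + 2 * η + 6) * L := by nlinarith
      have h2 : (l + 2 * η + 6) * L ≤ (l + 2 * η + 6) * Real.log ((2 * x : ℕ) : ℝ) := by gcongr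
      push_cast at h2 ⊢
      linarith)
  set S₁ := ((range (2 * x)) ×ˢ (Ioc 0 (0 + B₁))).filter fun v => v.1.Prime ∧ (v.1 + v.2).Prime
    with hS1
  set S₂ := ((range (2 * x)) ×ˢ (Ioc A₂ (A₂ + B₂))).filter fun v => v.1.Prime ∧ (v.1 + v.2).Prime
    with hS2
  have hcov := P3_cover x (K * L) (by positivity) (S₁ ∪ S₂) (fun n => Close n K η l L) (by
    rintro n hn ⟨p, q, hp, hq, hnp, hpq, hqK, hd⟩
    have hpx : p < 2 * x := by
      have h1 : (p : ℝ) < n + K * L := by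
        have : (p : ℝ) < q := by exact_mod_cast hpq
        linarith
      have h2 : (n : ℝ) < x := by exact_mod_cast hn
      have h3 : (p : ℝ) < ((2 * x : ℕ) : ℝ) := by
        push_cast
        linarith
      exact_mod_cast h3
    have hpd : p + (q - p) = q := by omega
    have hcast : ((q - p : ℕ) : ℝ) = (q : ℝ) - p := by rw [Nat.cast_sub hpq.le]
    refine ⟨(p, q - p), ?_, hnp, ?_⟩
    · rw [mem_union]
      rcases hd with hd | hd
      · left
        rw [hS1, mem_filter, mem_product, mem_range, mem_Ioc]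
        refine ⟨⟨hpx, by show 0 < q - p; omega, ?_⟩, hp, by show (p + (q - p)).Prime; rwa [hpd]⟩
        show q - p ≤ 0 + B₁
        rw [zero_add]
        have : ((q - p : ℕ) : ℝ) ≤ B₁ := by rw [hcast]; linarith
        exact_mod_cast this
      · right
        obtain ⟨hd1, hd2⟩ := abs_le.1 hd
        rw [hS2, mem_filter, mem_product, mem_range, mem_Ioc]
        refine ⟨⟨hpx, hA2d (q - p) (by omega) (by rw [hcast]; linarith), ?_⟩, hp,
          by show (p + (q - p)).Prime; rwa [hpd]⟩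
        show q - p ≤ A₂ + B₂
        have : ((q - p : ℕ) : ℝ) ≤ ((A₂ + B₂ : ℕ) : ℝ) := by
          push_cast
          rw [hcast]
          linarith
        exact_mod_cast this
    · have : (p : ℝ) ≤ q := by exact_mod_cast hpq.le
      linarith)
  refine hcov.trans ?_
  have hcardU : ((S₁ ∪ S₂).card : ℝ) ≤ S₁.card + S₂.card := by
    exact_mod_cast card_union_le S₁ S₂
  have hxcast : ((2 * x : ℕ) : ℝ) = 2 * x := by push_cast; ring
  have hb : ∀ B : ℕ, C * B * ((2 * x : ℕ) : ℝ) / Real.log ((2 * x : ℕ) : ℝ) ^ 2 ≤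
      C * B * (2 * x) / L ^ 2 := by
    intro B
    rw [hxcast] at hL2 ⊢
    gcongr
  have h1 := hp1.trans (hb B₁)
  have h2 := hp2.trans (hb B₂)
  have hBB : (B₁ : ℝ) + B₂ ≤ 4 * (η * L) := by linarith
  have hLpos : 0 < L := by linarith
  calc K * L * ((S₁ ∪ S₂).card : ℝ) ≤ K * L * (C * B₁ * (2 * x) / L ^ 2 + C * B₂ * (2 * x) / L ^ 2) := by
        gcongr
        exact hcardU.trans (add_le_add h1 h2)
    _ = K * L * (C * ((B₁ : ℝ) + B₂) * (2 * x) / L ^ 2) := by ring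
    _ ≤ K * L * (C * (4 * (η * L)) * (2 * x) / L ^ 2) := by gcongr
    _ = 8 * C * K * η * x := by
        field_simp
        ring
    _ ≤ 16 * C * K * η * x := by
        have : 0 ≤ C * K * η * x := by positivity
        nlinarith

end GP
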