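import Pool.Agent.LibGP53.R1

/-! Row R2 (60 min): the change points of `FF l` are separated. `L = log x`, `θ = 1 - η/(16 l)` (or `1/2` if this is smaller), so for `x ^ θ ≤ n ≤ 2x`:
`|l log n - l L| ≤ (η/8) L` for large `x`. Let `n₁ < n₂` be change points with `n₂ - n₁ < (η/2) L` (contradiction wanted); by `step` each has a prime of
type (a) `p = n_i + 1` or type (b) `q_i` in `(u n_i, u (n_i + 1)]`, so `|q_i - n_i - l L| ≤ (η/8) L + 3`. All these primes are in `(n₀, n₀ + K L]`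
(`n₂ + (l+1) L ≤ n₀ + K L`). (a)(a): `0 < (n₂+1) - (n₁+1) < η L`. (b)(b): `q₁ ≤ u (n₁+1) ≤ u n₂ < q₂` (u monotone) and `q₂ - q₁ ≤ (η/2) L + (η/4) L + 6 ≤ η L`.
(a)(b): `p = n₁+1 < q₂`, `|q₂ - p - l L| ≤ (η/2) L + (η/8) L + 4 ≤ η L`. (b)(a): `p = n₂ + 1 < q₁` because `q₁ ≥ n₁ + l L - (η/8) L - 3`, `η < l`, and
`|q₁ - p - l L| ≤ (η/2) L + (η/8) L + 4`. Each case gives `Close n₀ K η l L`.
(Typed with `min η 1` instead of `η` in `θ`, so that the primes are in `(n₀, n₀ + K L]` also for `η ≥ 8`.) -/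

open Finset Filter

namespace GP

/-- `l log n` is close to `l L` -/
theorem r2_log {l τ L θ : ℝ} (hl : 0 < l) (hθ : θ = 1 - τ / (2 * l)) {x n : ℕ} (hx : 1 ≤ x)
    (hL : L = Real.log x) (hn : (x : ℝ) ^ θ ≤ n) (hn2 : n ≤ 2 * x) (h2 : l * Real.log 2 ≤ τ * L)
    (hτL : 0 ≤ τ * L) :
    l * L - τ * L ≤ l * Real.log n ∧ l * Real.log n ≤ l * L + τ * L := by
  have hx0 : (0 : ℝ) < x := by exact_mod_cast hx
  have hn0 : (0 : ℝ) < n := lt_of_lt_of_le (Real.rpow_pos_of_pos hx0 θ) hn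
  constructor
  · have h3 : θ * L ≤ Real.log n := by
      rw [hL, ← Real.log_rpow hx0]
      exact Real.log_le_log (Real.rpow_pos_of_pos hx0 θ) hn
    have h4 : l * (θ * L) = l * L - τ * L / 2 := by
      rw [hθ]
      field_simp
    have h5 := mul_le_mul_of_nonneg_left h3 hl.le
    rw [h4] at h5
    linarith
  · have h3 : Real.log n ≤ Real.log 2 + L := by
      rw [hL, ← Real.log_mul two_ne_zero hx0.ne']
      refine Real.log_le_log hn0 ?_
      exact_mod_cast hn2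
    have h5 := mul_le_mul_of_nonneg_left h3 hl.le
    linarith

theorem sep (l η K : ℝ) (hl : 0 < l) (hη : 0 < η) (hηl : η < l) : ∃ θ : ℝ, 0 < θ ∧ θ < 1 ∧
    ∃ x₀ : ℕ, ∀ x : ℕ, x₀ ≤ x → ∀ n₀ : ℕ, (x : ℝ) ^ θ ≤ n₀ → n₀ ≤ x →
      ¬ Close n₀ K η l (Real.log x) → ∀ n₁ n₂ : ℕ, n₀ ≤ n₁ → n₁ < n₂ →
      (n₂ : ℝ) + (l + 1) * Real.log x ≤ n₀ + K * Real.log x →
      FF l (n₁ + 1) ≠ FF l n₁ → FF l (n₂ + 1) ≠ FF l n₂ →
      η / 2 * Real.log x ≤ (n₂ : ℝ) - n₁ := by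
  obtain ⟨N, hN⟩ := step l hl
  set η' : ℝ := min η 1 with hη'
  have hη'0 : 0 < η' := lt_min hη one_pos
  have hη'1 : η' ≤ 1 := min_le_right _ _
  have hη'η : η' ≤ η := min_le_left _ _
  set τ : ℝ := η' / 8 with hτ
  have hτ0 : 0 < τ := by positivity
  set θ : ℝ := 1 - τ / (2 * l) with hθ
  have hθ1 : θ < 1 := by
    have : 0 < τ / (2 * l) := by positivity
    linarith
  have hθ0 : 0 < θ := by
    have : τ / (2 * l) < 1 := by
      rw [div_lt_one (by positivity)]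
      linarith
    linarith
  refine ⟨θ, hθ0, hθ1, ?_⟩
  have hlog : Tendsto (fun x : ℕ => Real.log (x : ℝ)) atTop atTop :=
    Real.tendsto_log_atTop.comp tendsto_natCast_atTop_atTop
  have e1 : ∀ᶠ x : ℕ in atTop, l * Real.log 2 ≤ τ * Real.log (x : ℝ) :=
    (hlog.const_mul_atTop hτ0).eventually_ge_atTop _
  have e2 : ∀ᶠ x : ℕ in atTop, 1 ≤ τ * Real.log (x : ℝ) :=
    (hlog.const_mul_atTop hτ0).eventually_ge_atTop _
  have e3 : ∀ᶠ x : ℕ in atTop, (N : ℝ) ≤ (x : ℝ) ^ θ :=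
    ((tendsto_rpow_atTop hθ0).comp tendsto_natCast_atTop_atTop).eventually_ge_atTop _
  have e4 : ∀ᶠ x : ℕ in atTop, |K| * Real.log (x : ℝ) ≤ x := by
    have h1 : ∀ᶠ y : ℝ in atTop, ‖Real.log y‖ ≤ (1 / (|K| + 1)) * ‖y‖ :=
      Real.isLittleO_log_id_atTop.def (by positivity)
    have h2 := tendsto_natCast_atTop_atTop (R := ℝ) |>.eventually h1
    filter_upwards [h2, eventually_ge_atTop 1] with x hx hx1
    have h3 : (0 : ℝ) ≤ x := Nat.cast_nonneg x
    rw [Real.norm_of_nonneg h3, Real.norm_of_nonneg (Real.log_nonneg (by exact_mod_cast hx1))] at hx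
    have h4 : 0 ≤ |K| := abs_nonneg K
    have h5 : |K| * Real.log x ≤ |K| * (1 / (|K| + 1) * x) := mul_le_mul_of_nonneg_left hx h4
    refine h5.trans ?_
    rw [← mul_assoc]
    refine mul_le_of_le_one_left h3 ?_
    rw [mul_one_div, div_le_one (by positivity)]
    linarith
  obtain ⟨x₀, hx₀⟩ := eventually_atTop.1
    (e1.and (e2.and (e3.and (e4.and (eventually_ge_atTop 1)))))
  refine ⟨x₀, fun x hx n₀ hn₀ hn₀x hcl n₁ n₂ h01 h12 hK hc1 hc2 => ?_⟩
  obtain ⟨f1, f2, f3, f4, f5⟩ := hx₀ x hx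
  set L : ℝ := Real.log x with hL
  by_contra hcon
  push Not at hcon
  apply hcl
  have hL0 : 0 < L := by
    by_contra h
    push Not at h
    nlinarith
  have hlL : 0 < l * L := by positivity
  -- bounds
  have hn12 : (n₁ : ℝ) + 1 ≤ n₂ := by exact_mod_cast h12
  have hn01 : (n₀ : ℝ) ≤ n₁ := by exact_mod_cast h01
  have hn0x : (n₀ : ℝ) ≤ x := by exact_mod_cast hn₀x
  have hτL1 : 1 ≤ τ * L := f2
  have hτL : τ * L ≤ L / 8 := by
    rw [hτ]
    nlinarith
  have hτη : τ * L ≤ η * L / 8 := by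
    rw [hτ]
    nlinarith
  have hKL : K * L ≤ x := (mul_le_mul_of_nonneg_right (le_abs_self K) hL0.le).trans f4
  have hL8 : 8 ≤ L := by linarith
  have hn2x : (n₂ : ℝ) + 1 ≤ 2 * x := by nlinarith
  have key : ∀ n : ℕ, (n₀ : ℝ) ≤ n → (n : ℝ) + 1 ≤ 2 * x → FF l (n + 1) ≠ FF l n →
      (n + 1).Prime ∨ ∃ q : ℕ, q.Prime ∧ ⌊(n : ℝ) + l * Real.log n⌋₊ < q ∧
      q ≤ ⌊((n + 1 : ℕ) : ℝ) + l * Real.log ((n + 1 : ℕ) : ℝ)⌋₊ ∧
      (n : ℝ) + l * L - τ * L < q ∧ (q : ℝ) ≤ n + l * L + 2 * (τ * L) := by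
    intro n hn hn' hc
    have h1 : N ≤ n := by
      have : (N : ℝ) ≤ n := f3.trans (hn₀.trans hn)
      exact_mod_cast this
    rcases (hN n h1).2.2 hc with h2 | ⟨q, hq, h2, h3⟩
    · exact Or.inl h2
    · right
      refine ⟨q, hq, h2, h3, ?_, ?_⟩
      · have h4 := Nat.lt_of_floor_lt h2
        have h5 := (r2_log (n := n) hl hθ f5 hL (hn₀.trans hn)
          (by have : (n : ℝ) ≤ 2 * x := by linarith
              exact_mod_cast this) f1 (by linarith)).1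
        linarith
      · have h4 : (q : ℝ) ≤ ((n + 1 : ℕ) : ℝ) + l * Real.log ((n + 1 : ℕ) : ℝ) := by
          refine (Nat.cast_le.2 h3).trans (Nat.floor_le ?_)
          have : 0 ≤ Real.log ((n + 1 : ℕ) : ℝ) := Real.log_natCast_nonneg _
          positivity
        have h5 := (r2_log (n := n + 1) hl hθ f5 hL (by push_cast; linarith)
          (by exact_mod_cast hn') f1 (by linarith)).2
        push_cast at h4 h5
        linarith
  have k1 := key n₁ hn01 (by linarith) hc1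
  have k2 := key n₂ (by linarith) hn2x hc2
  rcases k1 with hp1 | ⟨q₁, hq1, g1, g1', g2, g3⟩
  · rcases k2 with hp2 | ⟨q₂, hq2, g4, g4', g5, g6⟩
    · -- (a)(a)
      refine ⟨n₁ + 1, n₂ + 1, hp1, hp2, by omega, by omega, ?_, Or.inl ?_⟩
      · push_cast
        nlinarith
      · push_cast
        nlinarith
    · -- (a)(b)
      refine ⟨n₁ + 1, q₂, hp1, hq2, by omega, ?_, ?_, Or.inr ?_⟩
      · have h1 : (n₂ : ℝ) < q₂ := by nlinarith
        have h2 : n₂ < q₂ := by exact_mod_cast h1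
        omega
      · nlinarith
      · push_cast
        rw [abs_le]
        constructor <;> nlinarith
  · rcases k2 with hp2 | ⟨q₂, hq2, g4, g4', g5, g6⟩
    · -- (b)(a)
      refine ⟨n₂ + 1, q₁, hp2, hq1, by omega, ?_, ?_, Or.inr ?_⟩
      · have h1 : ((n₂ + 1 : ℕ) : ℝ) < q₁ := by
          push_cast
          nlinarith
        exact_mod_cast h1
      · nlinarith
      · push_cast
        rw [abs_le]
        constructor <;> nlinarith
    · -- (b)(b)
      refine ⟨q₁, q₂, hq1, hq2, ?_, ?_, ?_, Or.inl ?_⟩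
      · have h1 : (n₀ : ℝ) < q₁ := by nlinarith
        exact_mod_cast h1
      · refine lt_of_le_of_lt (g1'.trans (Nat.floor_mono ?_)) g4
        have h1 : ((n₁ + 1 : ℕ) : ℝ) ≤ n₂ := by exact_mod_cast h12
        have h2 : Real.log ((n₁ + 1 : ℕ) : ℝ) ≤ Real.log n₂ :=
          Real.log_le_log (by positivity) h1
        have h3 := mul_le_mul_of_nonneg_left h2 hl.le
        linarith
      · nlinarith
      · nlinarith

end GP
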