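import Pool.Agent.LibGP53.Defs

/-! Row R3 (30 min): a plateau. Let `s` be the largest element of `[a, b]` with `m ≤ F s` (exists: `a`). `s < b` (as `F b < m`), `F (s+1) < m`, so
`F s ≤ F (s+1) + 1 ≤ m`: `F s = m` and `s` is a change point. If `a - k ≤ n < s`, `s - n ≤ k`, were a change point, `hsep` would give `k < s - n`. So
`F` is constant `= m` on `[s - k, s]` (downward induction; `s - k ≥ a - k`), `k + 1` elements. -/

open Finset

namespace GP

theorem plateau (F : ℕ → ℕ) (a b m k : ℕ) (hk : k ≤ a) (hab : a ≤ b) (hm : 1 ≤ m) (ha : m ≤ F a)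
    (hb : F b < m) (hstep : ∀ n, a ≤ n → n < b → F n ≤ F (n + 1) + 1)
    (hsep : ∀ n₁ n₂, a - k ≤ n₁ → n₁ < n₂ → n₂ < b → F (n₁ + 1) ≠ F n₁ → F (n₂ + 1) ≠ F n₂ →
      k < n₂ - n₁) :
    k ≤ ((Icc (a - k) b).filter fun n => F n = m).card := by
  classical
  obtain ⟨s, hs⟩ : ∃ s, s = Nat.findGreatest (fun s => a ≤ s ∧ m ≤ F s) b := ⟨_, rfl⟩
  have hP : a ≤ s ∧ m ≤ F s := by
    rw [hs]
    exact Nat.findGreatest_spec (P := fun s => a ≤ s ∧ m ≤ F s) hab ⟨le_rfl, ha⟩
  have hsb : s ≤ b := by rw [hs]; exact Nat.findGreatest_le b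
  have hsb' : s < b := by
    rcases Nat.lt_or_ge s b with h | h
    · exact h
    · have : s = b := le_antisymm hsb h
      rw [this] at hP
      omega
  have hs1 : F (s + 1) < m := by
    by_contra hcon
    push Not at hcon
    have h1 : s < s + 1 := Nat.lt_succ_self s
    rw [hs] at h1
    exact Nat.findGreatest_is_greatest (P := fun s => a ≤ s ∧ m ≤ F s) (k := s + 1) (by rw [← hs]; omega)
      (by omega) ⟨by omega, hcon⟩
  have hst := hstep s hP.1 hsb'
  have hFs : F s = m := by omega
  have hne : F (s + 1) ≠ F s := by omega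
  have hconst : ∀ i, i ≤ k → F (s - i) = m := by
    intro i
    induction i with
    | zero => intro _; simpa using hFs
    | succ i ih =>
      intro hi
      have h1 := ih (by omega)
      by_contra hcon
      have h2 : s - (i + 1) + 1 = s - i := by omega
      have h3 : F (s - (i + 1) + 1) ≠ F (s - (i + 1)) := by
        rw [h2, h1]
        exact fun h => hcon h.symm
      have h4 := hsep (s - (i + 1)) s (by omega) (by omega) hsb' h3 hne
      omega
  have hsub : Icc (s - k) s ⊆ (Icc (a - k) b).filter fun n => F n = m := by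
    intro n hn
    rw [mem_Icc] at hn
    refine mem_filter.2 ⟨mem_Icc.2 ⟨by omega, by omega⟩, ?_⟩
    have h1 : n = s - (s - n) := by omega
    rw [h1]
    exact hconst _ (by omega)
  have hcard := card_le_card hsub
  rw [Nat.card_Icc] at hcard
  omega

end GP
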