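import Pool.Agent.LibGP53.F0
import Pool.Agent.LibGP53.P3
import Pool.Agent.LibGP53.R2
import Pool.Agent.LibGP53.R3

/-! Row F1 (75 min): `m ≥ 1`. `κ` from `Many m l`; `AllBut` with `l + 1`, `δ = κ/8`: `Λ`. `K = Λ + 2 l + 8`; `C` from `close`, `η = min (l/2) (min 1 (κ/(8 C K)))`;
`θ` from `sep`. Let `x` be large, `L = log x`, `s = ⌈L⌉₊`, `k = ⌊(η/2) L⌋₊ - 1`. `G n` = all of
(i) `m ≤ FF l (n+s)`, (ii) exists `a ≤ Λ L` with `Free (n+s+a) ⌈(l+1) L⌉₊`, (iii) not `Close n K η l L`, (iv) `x ^ θ ≤ n`.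
`num x G ≥ κ x - s - (δ x + s) - (κ/8) x - x ^ θ - 1 ≥ (κ/2) x` (D1 lemmas; (ii) by num_shift). For `n < x` with `G n`: `plateau` with `F = FF l`,
`a := n + s`, `b := n + s + a`: `F b = 0` by `free_FF` (`⌊b + l log b⌋₊ ≤ b + (l+1) L`), `hstep` from `step` (`n ≥ n₀(l)` as `x ^ θ ≤ n`), `hsep` from `sep`
(`n₂ < b ≤ n + s + Λ L`, so `n₂ + (l+1) L ≤ n + K L`; `η/2 L ≤ n₂ - n₁` gives `k < n₂ - n₁`); `k ≤ s` so `n ≤ a - k`. So at least `k` of the
`y ∈ [n, n + v]`, `v = ⌈(Λ+2) L⌉₊ + 1`, have `FF l y = m`. `dcount` and `num_add` as in F0. -/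

open Finset Filter

namespace GP

theorem f1_shift (Q : ℕ → Prop) (x s : ℕ) : num x (fun n => Q (n + s)) ≤ num (x + s) Q := by
  classical
  unfold num
  refine Finset.card_le_card_of_injOn (fun n => n + s) ?_ (fun a _ b _ h => Nat.add_right_cancel h)
  intro n hn
  simp only [Finset.coe_filter, Finset.mem_range, Set.mem_ofPred_eq] at hn ⊢
  exact ⟨by omega, hn.2⟩

theorem f1_log (c : ℝ) (hc : 0 < c) : ∀ᶠ x : ℕ in atTop, Real.log (x : ℝ) ≤ c * x := by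
  have h1 : ∀ᶠ y : ℝ in atTop, ‖Real.log y‖ ≤ c * ‖y‖ :=
    Real.isLittleO_log_id_atTop.def hc
  have h2 := tendsto_natCast_atTop_atTop (R := ℝ) |>.eventually h1
  filter_upwards [h2] with x hx
  have h3 : (0 : ℝ) ≤ x := Nat.cast_nonneg x
  rw [Real.norm_of_nonneg h3] at hx
  exact (le_abs_self _).trans hx

theorem f1_rpow {θ : ℝ} (hθ : θ < 1) (c : ℝ) (hc : 0 < c) :
    ∀ᶠ x : ℕ in atTop, (x : ℝ) ^ θ ≤ c * x := by
  have h1 : Tendsto (fun y : ℝ => y ^ (-(1 - θ))) atTop (nhds 0) :=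
    tendsto_rpow_neg_atTop (by linarith)
  have h2 := (h1.comp (tendsto_natCast_atTop_atTop (R := ℝ))).eventually (eventually_le_nhds hc)
  filter_upwards [h2, eventually_ge_atTop 1] with x hx hx1
  have hx0 : (0 : ℝ) < x := by exact_mod_cast hx1
  have h3 : (x : ℝ) ^ θ = (x : ℝ) ^ (-(1 - θ)) * x := by
    nth_rewrite 3 [← Real.rpow_one (x : ℝ)]
    rw [← Real.rpow_add hx0]
    congr 1
    ring
  rw [h3]
  exact mul_le_mul_of_nonneg_right hx hx0.le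

/-- removing three sets -/
theorem f1_num (A B C D : ℕ → Prop) (x : ℕ) :
    num x A ≤ num x (fun n => A n ∧ ¬ B n ∧ ¬ C n ∧ ¬ D n) + num x B + num x C + num x D := by
  have h1 := num_sdiff A B x
  have h2 := num_sdiff (fun n => A n ∧ ¬ B n) C x
  have h3 := num_sdiff (fun n => (A n ∧ ¬ B n) ∧ ¬ C n) D x
  have h4 : num x (fun n => ((A n ∧ ¬ B n) ∧ ¬ C n) ∧ ¬ D n) ≤
      num x (fun n => A n ∧ ¬ B n ∧ ¬ C n ∧ ¬ D n) :=
    num_mono fun n _ h => ⟨h.1.1.1, h.1.1.2, h.1.2, h.2⟩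
  omega

theorem pos_case (hA : AllBut) (hP : Pairs) (m : ℕ) (hm : 1 ≤ m) (l : ℝ) (hl : 0 < l) (hM : Many m l) :
    ∃ c : ℝ, 0 < c ∧ ∃ x₀ : ℕ, ∀ x : ℕ, x₀ ≤ x → c * x ≤ (num x fun n => FF l n = m : ℝ) := by
  obtain ⟨κ, hκ, x₁, h1⟩ := hM
  obtain ⟨Λ, hΛ, x₂, h2⟩ := hA (l + 1) (by linarith) (κ / 8) (by positivity)
  set K : ℝ := Λ + 2 * l + 8 with hK
  have hK1 : 1 ≤ K := by rw [hK]; linarith
  obtain ⟨C, hC, hclose⟩ := close hP
  set η : ℝ := min (l / 2) (min 1 (κ / (8 * C * K))) with hηdef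
  have hη : 0 < η := by
    have : 0 < κ / (8 * C * K) := by positivity
    exact lt_min (by linarith) (lt_min one_pos this)
  have hηl : η < l := (min_le_left _ _).trans_lt (by linarith)
  have hη1 : η ≤ 1 := (min_le_right _ _).trans (min_le_left _ _)
  have hηK : C * K * η ≤ κ / 8 := by
    have h3 : η ≤ κ / (8 * C * K) := (min_le_right _ _).trans (min_le_right _ _)
    have h4 : 0 < C * K := by positivity
    calc C * K * η ≤ C * K * (κ / (8 * C * K)) := mul_le_mul_of_nonneg_left h3 h4.le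
      _ = κ / 8 := by field_simp
  obtain ⟨x₃, h3⟩ := hclose K η l hK1 hη hl
  obtain ⟨θ, hθ0, hθ1, x₄, h4⟩ := sep l η K hl hη hηl
  obtain ⟨N, hN⟩ := step l hl
  set c : ℝ := η * κ / (16 * (Λ + 5)) with hc
  have hc0 : 0 < c := by positivity
  have hlog : Tendsto (fun x : ℕ => Real.log (x : ℝ)) atTop atTop :=
    Real.tendsto_log_atTop.comp tendsto_natCast_atTop_atTop
  have e1 : ∀ᶠ x : ℕ in atTop, (N : ℝ) ≤ (x : ℝ) ^ θ :=
    ((tendsto_rpow_atTop hθ0).comp tendsto_natCast_atTop_atTop).eventually_ge_atTop _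
  have e2 : ∀ᶠ x : ℕ in atTop, 8 ≤ η * Real.log (x : ℝ) :=
    (hlog.const_mul_atTop hη).eventually_ge_atTop _
  have e3 : ∀ᶠ x : ℕ in atTop, l * Real.log 2 ≤ Real.log (x : ℝ) := hlog.eventually_ge_atTop _
  have e4 := f1_log (1 / (Λ + 2)) (by positivity)
  have e5 := f1_log (κ / 48) (by positivity)
  have e6 := f1_rpow hθ1 (κ / 8) (by positivity)
  have e7 := f1_log (c / (Λ + 5)) (by positivity)
  refine ⟨c, hc0, ?_⟩
  obtain ⟨x₀, hx₀⟩ := eventually_atTop.1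
    (e1.and (e2.and (e3.and (e4.and (e5.and (e6.and e7))))))
  refine ⟨x₀ + x₁ + x₂ + x₃ + x₄ + 1, fun x hx => ?_⟩
  obtain ⟨f1, f2, f3, f4, f5, f6, f7⟩ := hx₀ x (by omega)
  have g1 := h1 x (by omega)
  have g2 := h2 x (by omega)
  have g3 := h3 x (by omega)
  have g4 := h4 x (by omega)
  have hx1 : 1 ≤ x := by omega
  have hxpos : (0 : ℝ) < x := by exact_mod_cast hx1
  set L : ℝ := Real.log x with hL
  have hL0 : 0 ≤ L := Real.log_natCast_nonneg x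
  have hL8 : 8 ≤ L := by nlinarith
  set s : ℕ := ⌈L⌉₊ with hs
  set k : ℕ := ⌊η / 2 * L⌋₊ - 1 with hk
  set v : ℕ := ⌈(Λ + 2) * L⌉₊ + 1 with hv
  have hsL : (s : ℝ) ≤ L + 1 := (Nat.ceil_lt_add_one hL0).le
  have hsL' : L ≤ s := Nat.le_ceil L
  have hfl4 : 1 ≤ ⌊η / 2 * L⌋₊ := Nat.le_floor (by push_cast; linarith)
  have hflle : (⌊η / 2 * L⌋₊ : ℝ) ≤ η / 2 * L := Nat.floor_le (by positivity)
  have hfllt : η / 2 * L < (⌊η / 2 * L⌋₊ : ℝ) + 1 := Nat.lt_floor_add_one _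
  have hk1 : (k : ℝ) = (⌊η / 2 * L⌋₊ : ℝ) - 1 := by
    rw [hk, Nat.cast_sub hfl4, Nat.cast_one]
  have hks : k ≤ s := by
    have : (k : ℝ) ≤ s := by nlinarith
    exact_mod_cast this
  -- the good set
  let A : ℕ → Prop := fun n => m ≤ FF l (n + s)
  let B : ℕ → Prop := fun n => ¬ ∃ a : ℕ, (a : ℝ) ≤ Λ * L ∧ Free (n + s + a) ⌈(l + 1) * L⌉₊
  let Cl : ℕ → Prop := fun n => Close n K η l L
  let D : ℕ → Prop := fun n => n < ⌈(x : ℝ) ^ θ⌉₊
  have nA : (num x (fun n => m ≤ FF l n) : ℝ) ≤ num x A + s := by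
    exact_mod_cast num_shift (fun n => m ≤ FF l n) x s
  have nB : (num x B : ℝ) ≤ num x (fun n => ¬ ∃ a : ℕ, (a : ℝ) ≤ Λ * L ∧
      Free (n + a) ⌈(l + 1) * L⌉₊) + s := by
    have h5 := f1_shift (fun n => ¬ ∃ a : ℕ, (a : ℝ) ≤ Λ * L ∧ Free (n + a) ⌈(l + 1) * L⌉₊) x s
    have h6 := num_add (fun n => ¬ ∃ a : ℕ, (a : ℝ) ≤ Λ * L ∧ Free (n + a) ⌈(l + 1) * L⌉₊) x s
    exact_mod_cast h5.trans h6
  have nD : (num x D : ℝ) ≤ (x : ℝ) ^ θ + 1 := by
    have h5 : (num x D : ℝ) ≤ (⌈(x : ℝ) ^ θ⌉₊ : ℝ) := by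
      exact_mod_cast num_lt x ⌈(x : ℝ) ^ θ⌉₊
    exact h5.trans (Nat.ceil_lt_add_one (by positivity)).le
  have nG : κ / 2 * x ≤ num x (fun n => A n ∧ ¬ B n ∧ ¬ Cl n ∧ ¬ D n) := by
    have h5 : (num x A : ℝ) ≤ num x (fun n => A n ∧ ¬ B n ∧ ¬ Cl n ∧ ¬ D n) + num x B +
        num x Cl + num x D := by
      exact_mod_cast f1_num A B Cl D x
    have h6 : (num x Cl : ℝ) ≤ κ / 8 * x :=
      g3.trans (mul_le_mul_of_nonneg_right hηK hxpos.le)
    nlinarith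
  -- the plateau
  have hplat : ∀ n < x, (A n ∧ ¬ B n ∧ ¬ Cl n ∧ ¬ D n) →
      k ≤ ((Icc n (n + v)).filter fun y => FF l y = m).card := by
    rintro n hn ⟨hAn, hBn, hCn, hDn⟩
    have hBn' : ∃ a : ℕ, (a : ℝ) ≤ Λ * L ∧ Free (n + s + a) ⌈(l + 1) * L⌉₊ := not_not.1 hBn
    obtain ⟨a, ha, hfree⟩ := hBn'
    have hxn : (x : ℝ) ^ θ ≤ n := by
      have h5 : ⌈(x : ℝ) ^ θ⌉₊ ≤ n := not_lt.1 hDn
      exact (Nat.le_ceil _).trans (by exact_mod_cast h5)
    have hnx : (n : ℝ) ≤ x := by exact_mod_cast hn.le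
    have hLx : (Λ + 2) * L ≤ x := by
      have h5 := mul_le_mul_of_nonneg_left f4 (by positivity : (0 : ℝ) ≤ Λ + 2)
      rwa [← mul_assoc, mul_one_div, div_self (by positivity), one_mul] at h5
    have hb2 : ((n + s + a : ℕ) : ℝ) ≤ 2 * x := by
      push_cast
      nlinarith
    have hFb : FF l (n + s + a) = 0 := by
      refine free_FF l (n + s + a) (n + s + a) _ hfree le_rfl ?_
      have hb0 : (0 : ℝ) < ((n + s + a : ℕ) : ℝ) := by
        push_cast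
        have : (0 : ℝ) < s := by linarith
        positivity
      have h6 : Real.log ((n + s + a : ℕ) : ℝ) ≤ Real.log 2 + L := by
        rw [hL, ← Real.log_mul two_ne_zero hxpos.ne']
        exact Real.log_le_log hb0 hb2
      have h7 := mul_le_mul_of_nonneg_left h6 hl.le
      have h8 : ((n + s + a : ℕ) : ℝ) + l * Real.log ((n + s + a : ℕ) : ℝ) ≤
          ((n + s + a + ⌈(l + 1) * L⌉₊ : ℕ) : ℝ) := by
        have h9 := Nat.le_ceil ((l + 1) * L)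
        rw [Nat.cast_add (n + s + a)]
        nlinarith
      exact Nat.floor_le_of_le h8
    have hplt := plateau (FF l) (n + s) (n + s + a) m k (by omega) (by omega) hm hAn
      (by rw [hFb]; omega)
      (by
        intro n' hn' _
        have h5 : N ≤ n' := by
          have h6 : (N : ℝ) ≤ n := f1.trans hxn
          have h7 : N ≤ n := by exact_mod_cast h6
          omega
        exact (hN n' h5).2.1)
      (by
        intro n₁ n₂ hn₁ hn₁₂ hn₂ hc1 hc2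
        have h5 := g4 n hxn hn.le hCn n₁ n₂ (by omega) hn₁₂ ?_ hc1 hc2
        · have h6 : ((n₂ - n₁ : ℕ) : ℝ) = (n₂ : ℝ) - n₁ := by
            rw [Nat.cast_sub hn₁₂.le]
          have h7 : (k : ℝ) < ((n₂ - n₁ : ℕ) : ℝ) := by
            rw [h6, hk1]
            linarith
          exact_mod_cast h7
        · have h6 : (n₂ : ℝ) ≤ ((n + s + a : ℕ) : ℝ) := by exact_mod_cast hn₂.le
          push_cast at h6
          rw [hK]
          nlinarith)
    refine hplt.trans (Finset.card_le_card ?_)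
    refine Finset.filter_subset_filter _ (Finset.Icc_subset_Icc (by omega) ?_)
    have h6 : ((s + a : ℕ) : ℝ) ≤ ((v : ℕ) : ℝ) := by
      have h7 := Nat.le_ceil ((Λ + 2) * L)
      rw [hv]
      push_cast
      nlinarith
    have h7 : s + a ≤ v := by exact_mod_cast h6
    omega
  have hd := dcount (fun y => FF l y = m) (fun n => A n ∧ ¬ B n ∧ ¬ Cl n ∧ ¬ D n) x k v hplat
  have hd2 := num_add (fun y => FF l y = m) x (v + 1)
  have hd3 : (k : ℝ) * num x (fun n => A n ∧ ¬ B n ∧ ¬ Cl n ∧ ¬ D n) ≤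
      ((v : ℝ) + 1) * (num x (fun y => FF l y = m) + (v + 1)) := by
    have h5 : k * num x (fun n => A n ∧ ¬ B n ∧ ¬ Cl n ∧ ¬ D n) ≤
        (v + 1) * (num x (fun y => FF l y = m) + (v + 1)) :=
      hd.trans (Nat.mul_le_mul_left _ hd2)
    exact_mod_cast h5
  have hkL : η / 4 * L ≤ k := by
    rw [hk1]
    nlinarith
  have hvL : (v : ℝ) + 1 ≤ (Λ + 5) * L := by
    have h5 : (⌈(Λ + 2) * L⌉₊ : ℝ) < (Λ + 2) * L + 1 := Nat.ceil_lt_add_one (by positivity)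
    rw [hv]
    push_cast
    nlinarith
  set Nm : ℝ := (num x (fun y => FF l y = m) : ℝ) with hNm
  have hNm0 : 0 ≤ Nm := Nat.cast_nonneg _
  have h5 : η / 4 * L * (κ / 2 * x) ≤ (Λ + 5) * L * (Nm + (Λ + 5) * L) := by
    calc η / 4 * L * (κ / 2 * x) ≤ k * num x (fun n => A n ∧ ¬ B n ∧ ¬ Cl n ∧ ¬ D n) :=
          mul_le_mul hkL nG (by positivity) (by positivity)
      _ ≤ ((v : ℝ) + 1) * (Nm + (v + 1)) := hd3
      _ ≤ _ := mul_le_mul hvL (by linarith) (by positivity) (by positivity)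
  have h6 : η / 4 * (κ / 2 * x) ≤ (Λ + 5) * (Nm + (Λ + 5) * L) := by
    have hLpos : 0 < L := by linarith
    have h7 : L * (η / 4 * (κ / 2 * x)) ≤ L * ((Λ + 5) * (Nm + (Λ + 5) * L)) := by linarith
    exact le_of_mul_le_mul_left h7 hLpos
  have h7 : (Λ + 5) * L ≤ c * x := by
    have h8 := mul_le_mul_of_nonneg_left f7 (by positivity : (0 : ℝ) ≤ Λ + 5)
    calc (Λ + 5) * L ≤ (Λ + 5) * (c / (Λ + 5) * x) := h8
      _ = c * x := by field_simp
  have h8 : η / 4 * (κ / 2 * x) = (Λ + 5) * (2 * (c * x)) := by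
    rw [hc]
    field_simp
    ring
  rw [h8] at h6
  have h9 := le_of_mul_le_mul_left h6 (by positivity : (0 : ℝ) < Λ + 5)
  linarith

end GP
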