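import Pool.Agent.LibGP53.G2

/-! Row G3 (45 min): all large `x`. Given `l, δ` (wlog `δ ≤ 1`) apply `blocks` to `2 l`, `e = δ/12`, bound `δ/2`; `q, J`. For large `x` let `z` be the
natural number with `z ^ q ≤ x < (z+1) ^ q` (e.g. `Nat.find` / `Nat.nthRoot`, or `⌊x ^ (1/q)⌋₊`), `N = z ^ q`. Then `x - N ≤ (δ/2) x`
(`(z+1)^q / z^q → 1`), `x ≤ N ^ 2` (so `2 l log N ≥ l log x`, hence `hh (2l) N ≥ ⌈l log x⌉₊` and a block of length `hh (2l) N` which is
free contains the free block `(n + a, n + a + ⌈l log x⌉₊]` with `a = j * hh (2l) N ≤ J (2 l log x + 1) ≤ Λ log x`,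
`Λ = J (2 l + 1)`, for `log x ≥ 1`). Bad `n < x`: bad `n < N` or `N ≤ n`. -/

open Finset

namespace GP

theorem G3_union {Q R : ℕ → Prop} {x N : ℕ} (h : ∀ n < N, Q n → R n) :
    (num x Q : ℝ) ≤ num N R + ((x : ℝ) - N) ∨ x < N := by
  classical
  rcases Nat.lt_or_ge x N with hx | hx
  · exact Or.inr hx
  left
  have hsub : (range x).filter Q ⊆ (range N).filter R ∪ Ico N x := by
    intro n hn
    rw [mem_filter, mem_range] at hn
    rw [mem_union, mem_filter, mem_range, mem_Ico]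
    rcases Nat.lt_or_ge n N with h1 | h1
    · exact Or.inl ⟨h1, h n h1 hn.2⟩
    · exact Or.inr ⟨h1, hn.1⟩
  have hc := (card_le_card hsub).trans (card_union_le _ _)
  rw [Nat.card_Ico] at hc
  have e1 : num x Q = ((range x).filter Q).card := by unfold num; congr
  have e2 : num N R = ((range N).filter R).card := by unfold num; congr
  rw [e1, e2, ← Nat.cast_sub hx]
  exact_mod_cast hc

theorem allbut (h : ∀ l : ℝ, 0 < l → ∀ e : ℝ, 0 < e → e < 1 → Main l e) : AllBut := by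
  intro l hl δ hδ
  obtain ⟨δ', hδ'0, hδ'1, hδ'δ⟩ : ∃ δ' : ℝ, 0 < δ' ∧ δ' ≤ 1 ∧ δ' ≤ δ :=
    ⟨min δ 1, lt_min hδ one_pos, min_le_right _ _, min_le_left _ _⟩
  obtain ⟨q, J, hq, hJ, z₀, hz₀⟩ := blocks (e := δ' / 12) (by positivity) (by linarith)
    (h (2 * l) (by positivity) (δ' / 12) (by positivity) (by linarith)) (δ' / 2) (by linarith)
  have ht : Filter.Tendsto (fun z : ℕ => (1 + 1 / (z:ℝ)) ^ q) Filter.atTop (nhds 1) := by
    have h1 : Filter.Tendsto (fun z : ℕ => 1 / (z:ℝ)) Filter.atTop (nhds 0) :=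
      tendsto_one_div_atTop_nhds_zero_nat
    have h2 := ((tendsto_const_nhds (x := (1:ℝ))).add h1).pow q
    rw [add_zero, one_pow] at h2
    exact h2
  obtain ⟨z₂, hz₂⟩ := Filter.eventually_atTop.1
    (ht.eventually (gt_mem_nhds (show (1:ℝ) < 1 + δ' / 2 by linarith)))
  obtain ⟨z₁, hz10, hz12, hz1⟩ : ∃ z₁ : ℕ, z₀ ≤ z₁ ∧ z₂ ≤ z₁ ∧ 2 ≤ z₁ :=
    ⟨max (max z₀ z₂) 2, (le_max_left _ _).trans (le_max_left _ _),
      (le_max_right _ _).trans (le_max_left _ _), le_max_right _ _⟩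
  have hJr : (0:ℝ) < J := by exact_mod_cast hJ
  have hq0 : q ≠ 0 := by omega
  refine ⟨J * (2 * l + 1), by positivity, z₁ ^ q, ?_⟩
  intro x hx
  obtain ⟨z, hzdef⟩ : ∃ z, z = Nat.findGreatest (fun z => z ^ q ≤ x) x := ⟨_, rfl⟩
  have hz1x : z₁ ≤ x := (Nat.le_self_pow hq0 z₁).trans hx
  have hzx : z ^ q ≤ x := by
    rw [hzdef]
    exact Nat.findGreatest_spec (P := fun z => z ^ q ≤ x) (m := z₁) hz1x hx
  have hz1z : z₁ ≤ z := by
    rw [hzdef]
    exact Nat.le_findGreatest (P := fun z => z ^ q ≤ x) hz1x hx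
  have hxz : x < (z + 1) ^ q := by
    by_contra hcon
    have h3 : (z + 1) ^ q ≤ x := not_lt.1 hcon
    have h4 : z + 1 ≤ x := (Nat.le_self_pow hq0 _).trans h3
    have h5 : z + 1 ≤ z := by
      nth_rewrite 2 [hzdef]
      exact Nat.le_findGreatest (P := fun z => z ^ q ≤ x) h4 h3
    omega
  have hz2 : 2 ≤ z := hz1.trans hz1z
  have hzr : (2:ℝ) ≤ z := by exact_mod_cast hz2
  have hzr0 : (0:ℝ) < z := by linarith
  obtain ⟨N, hN⟩ : ∃ N, N = z ^ q := ⟨_, rfl⟩
  have hblock := hz₀ z (hz10.trans hz1z)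
  rw [← hN] at hblock hzx
  have hNr : (N:ℝ) = (z:ℝ) ^ q := by rw [hN]; push_cast; rfl
  have hN4 : (4:ℝ) ≤ N := by
    have : 2 ^ 2 ≤ z ^ q :=
      (Nat.pow_le_pow_left hz2 2).trans (Nat.pow_le_pow_right (by omega) hq)
    rw [← hN] at this
    exact_mod_cast this
  have hNx : (N:ℝ) ≤ x := by exact_mod_cast hzx
  have hxN : (x:ℝ) ≤ (1 + δ' / 2) * N := by
    have h3 : (x:ℝ) < ((z:ℝ) + 1) ^ q := by exact_mod_cast hxz
    have h4 : ((z:ℝ) + 1) ^ q = (1 + 1 / (z:ℝ)) ^ q * N := by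
      rw [hNr, ← mul_pow]
      congr 1
      field_simp
    have h5 := hz₂ z (hz12.trans hz1z)
    rw [h4] at h3
    nlinarith
  have hx0 : (0:ℝ) < x := by linarith
  have hx4 : (4:ℝ) ≤ x := by linarith
  have hlogx : 1 ≤ Real.log x := by
    rw [Real.le_log_iff_exp_le hx0]
    have := Real.exp_one_lt_d9
    linarith
  have hlogN : Real.log x ≤ 2 * Real.log N := by
    have h3 : (x:ℝ) ≤ (N:ℝ) ^ 2 := by nlinarith
    have h4 := Real.log_le_log hx0 h3
    rw [Real.log_pow] at h4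
    exact_mod_cast h4
  have hlogNx : Real.log N ≤ Real.log x := Real.log_le_log (by linarith) hNx
  have hh1 : ⌈l * Real.log x⌉₊ ≤ hh (2 * l) N := by
    unfold hh
    apply Nat.ceil_le_ceil
    nlinarith
  have hh2 : (hh (2 * l) N : ℝ) ≤ (2 * l + 1) * Real.log x := by
    unfold hh
    have h3 := (Nat.ceil_lt_add_one (show 0 ≤ 2 * l * Real.log N by
      have : 0 ≤ Real.log N := Real.log_nonneg (by linarith)
      positivity)).le
    nlinarith
  have hu := G3_union (x := x) (N := N)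
    (Q := fun n => ¬ ∃ a : ℕ, (a : ℝ) ≤ J * (2 * l + 1) * Real.log x ∧ Free (n + a) ⌈l * Real.log x⌉₊)
    (R := fun n => ∀ j < J, ¬ Free (n + j * hh (2 * l) N) (hh (2 * l) N)) (by
      intro n _ hn j hj hfree
      apply hn
      refine ⟨j * hh (2 * l) N, ?_, ?_⟩
      · push_cast
        have hjJ : (j:ℝ) ≤ J := by exact_mod_cast hj.le
        have hhn : (0:ℝ) ≤ hh (2 * l) N := Nat.cast_nonneg _
        calc (j:ℝ) * hh (2 * l) N ≤ J * hh (2 * l) N := mul_le_mul_of_nonneg_right hjJ hhn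
          _ ≤ J * ((2 * l + 1) * Real.log x) := mul_le_mul_of_nonneg_left hh2 hJr.le
          _ = J * (2 * l + 1) * Real.log x := by ring
      · intro p hp1 hp2
        exact hfree p hp1 (hp2.trans (by omega)))
  rcases hu with hu | hu
  · refine hu.trans ?_
    have h6 : δ' / 2 * N ≤ δ' / 2 * x := mul_le_mul_of_nonneg_left hNx (by positivity)
    have h7 : δ' * x ≤ δ * x := mul_le_mul_of_nonneg_right hδ'δ hx0.le
    nlinarith
  · omega

end GP
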