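import Pool.Agent.LibGP53.Defs
import Pool.Agent.LibPNT.PNT

/-! Row L1: the mean number of primes, from the prime number theorem. -/

open Finset

namespace GP

theorem cnt_cast (n : ℕ) (t : ℝ) (ht : 0 ≤ t) :
    (cnt n t : ℝ) = (Nat.primeCounting (n + ⌊t⌋₊) : ℝ) - Nat.primeCounting n := by
  have h1 : ⌊(n : ℝ) + t⌋₊ = n + ⌊t⌋₊ := by
    rw [add_comm, Nat.floor_add_natCast ht, add_comm]
  rw [cnt, h1, Nat.cast_sub]
  exact Nat.monotone_primeCounting (Nat.le_add_right _ _)

theorem sum_shift (x T : ℕ) : ∑ n ∈ range x, ((Nat.primeCounting (n + T) : ℝ) -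
    Nat.primeCounting n) = ∑ i ∈ range T, ((Nat.primeCounting (x + i) : ℝ) -
    Nat.primeCounting i) := by
  rw [Finset.sum_sub_distrib, Finset.sum_sub_distrib]
  have h1 := Finset.sum_range_add (fun n => (Nat.primeCounting n : ℝ)) x T
  have h2 := Finset.sum_range_add (fun n => (Nat.primeCounting n : ℝ)) T x
  rw [add_comm T x] at h2
  have h3 : ∑ n ∈ range x, (Nat.primeCounting (n + T) : ℝ) =
      ∑ n ∈ range x, (Nat.primeCounting (T + n) : ℝ) :=
    Finset.sum_congr rfl fun n _ => by rw [add_comm]
  rw [h3]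
  linarith

theorem avg (κ ε : ℝ) (hκ : 0 < κ) (hε : 0 < ε) : ∃ x₀ : ℕ, ∀ x : ℕ, x₀ ≤ x →
    (κ - ε) * x ≤ ∑ n ∈ range x, (cnt n (κ * Real.log x) : ℝ) := by
  set δ : ℝ := min (1 / 2) (ε / (4 * κ)) with hδ
  have hδ0 : 0 < δ := lt_min (by norm_num) (by positivity)
  have hδ1 : δ ≤ 1 / 2 := min_le_left _ _
  have hδ2 : κ * δ ≤ ε / 4 := by
    have := min_le_right (1 / 2 : ℝ) (ε / (4 * κ))
    calc κ * δ ≤ κ * (ε / (4 * κ)) := mul_le_mul_of_nonneg_left this hκ.le
      _ = ε / 4 := by field_simp
  have hcast := tendsto_natCast_atTop_atTop (R := ℝ)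
  have e1 : ∀ᶠ x : ℕ in Filter.atTop,
      1 - δ ≤ (Nat.primeCounting x : ℝ) * Real.log x / x := by
    have h := Pool.Agent.LibPNT.primeCounting_tendsto.comp hcast
    have h2 := h.eventually (lt_mem_nhds (show 1 - δ < 1 by linarith))
    filter_upwards [h2] with x hx
    simp only [Function.comp_apply, Nat.floor_natCast] at hx
    exact hx.le
  have e2 : ∀ᶠ x : ℕ in Filter.atTop, 4 / ε + 1 ≤ Real.log x :=
    (Real.tendsto_log_atTop.comp hcast).eventually (Filter.eventually_ge_atTop _)
  have e3 : ∀ᶠ x : ℕ in Filter.atTop, κ ^ 2 * Real.log x ^ 2 ≤ ε / 4 * x := by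
    have h := (Real.isLittleO_pow_log_id_atTop (n := 2)).bound
      (show (0 : ℝ) < ε / 4 / κ ^ 2 by positivity)
    filter_upwards [hcast.eventually h, Filter.eventually_ge_atTop 1] with x hx hx1
    simp only [id] at hx
    rw [Real.norm_of_nonneg (by positivity), Real.norm_of_nonneg (by positivity)] at hx
    calc κ ^ 2 * Real.log x ^ 2 ≤ κ ^ 2 * (ε / 4 / κ ^ 2 * x) :=
          mul_le_mul_of_nonneg_left hx (by positivity)
      _ = ε / 4 * x := by field_simp
  obtain ⟨x₀, hx₀⟩ := Filter.eventually_atTop.mp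
    ((e1.and e2).and (e3.and (Filter.eventually_ge_atTop 1)))
  refine ⟨x₀, fun x hx => ?_⟩
  obtain ⟨⟨h1, h2⟩, h3, hx1⟩ := hx₀ x hx
  have hxr : (1 : ℝ) ≤ x := by exact_mod_cast hx1
  have hL : 0 < Real.log x := by
    have : 0 < 4 / ε := by positivity
    linarith
  have ht : 0 ≤ κ * Real.log x := by positivity
  set T := ⌊κ * Real.log x⌋₊ with hT
  have hT1 : (T : ℝ) ≤ κ * Real.log x := Nat.floor_le ht
  have hT2 : κ * Real.log x - 1 < T := by
    have := Nat.lt_floor_add_one (κ * Real.log x)
    rw [← hT] at this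
    linarith
  have hsum : ∑ n ∈ range x, (cnt n (κ * Real.log x) : ℝ) =
      ∑ i ∈ range T, ((Nat.primeCounting (x + i) : ℝ) - Nat.primeCounting i) := by
    rw [← sum_shift]
    exact Finset.sum_congr rfl fun n _ => cnt_cast n _ ht
  rw [hsum]
  have hlow : (T : ℝ) * ((Nat.primeCounting x : ℝ) - T) ≤
      ∑ i ∈ range T, ((Nat.primeCounting (x + i) : ℝ) - Nat.primeCounting i) := by
    rw [← nsmul_eq_mul]
    have := Finset.card_nsmul_le_sum (range T)
      (fun i => (Nat.primeCounting (x + i) : ℝ) - Nat.primeCounting i)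
      ((Nat.primeCounting x : ℝ) - T) (by
        intro i hi
        have hi' := mem_range.mp hi
        have a1 : (Nat.primeCounting x : ℝ) ≤ Nat.primeCounting (x + i) := by
          exact_mod_cast Nat.monotone_primeCounting (Nat.le_add_right _ _)
        have a2 : (Nat.primeCounting i : ℝ) ≤ T := by
          have : Nat.primeCounting i ≤ i := by
            rw [Nat.primeCounting, Nat.primeCounting']
            have := Nat.count_le (p := Nat.Prime) (n := i + 1)
            rcases Nat.eq_zero_or_pos i with h0 | h0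
            · subst h0
              decide
            · have h2 : Nat.count Nat.Prime (i + 1) ≤ i := by
                rw [Nat.count_eq_card_filter_range]
                calc (#{x ∈ range (i + 1) | Nat.Prime x}) ≤ #((range (i + 1)).erase 0) := by
                      apply Finset.card_le_card
                      intro p hp
                      simp only [mem_filter, mem_range] at hp
                      simp only [mem_erase, mem_range]
                      exact ⟨hp.2.ne_zero, hp.1⟩
                  _ = i := by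
                      rw [Finset.card_erase_of_mem (by simp), card_range]
                      omega
              exact h2
          exact_mod_cast this.trans hi'.le
        linarith)
    simpa using this
  refine le_trans ?_ hlow
  -- the numerical estimate
  have hπ0 : (0 : ℝ) ≤ Nat.primeCounting x := Nat.cast_nonneg _
  have hT0 : (0 : ℝ) ≤ T := Nat.cast_nonneg _
  have h1' : (1 - δ) * (x : ℝ) ≤ (Nat.primeCounting x : ℝ) * Real.log x := by
    rw [le_div_iff₀ (by linarith)] at h1
    exact h1
  have hxL : (x : ℝ) * 1 ≤ x := by linarith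
  -- π(x) ≥ (1 - δ) x / L
  have hπle : (Nat.primeCounting x : ℝ) ≥ (1 - δ) * x / Real.log x := by
    rw [ge_iff_le, div_le_iff₀ hL]
    exact h1'
  have hlx : (x : ℝ) / Real.log x ≤ ε / 4 * x := by
    rw [div_le_iff₀ hL]
    have : 1 ≤ ε / 4 * Real.log x := by
      have h5 : ε / 4 * (4 / ε + 1) ≤ ε / 4 * Real.log x :=
        mul_le_mul_of_nonneg_left h2 (by positivity)
      have h6 : ε / 4 * (4 / ε + 1) = 1 + ε / 4 := by field_simp
      linarith
    nlinarith
  have hTT : (T : ℝ) * T ≤ κ ^ 2 * Real.log x ^ 2 := by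
    have := mul_self_le_mul_self hT0 hT1
    nlinarith
  have hmain : κ * (1 - δ) * x - (1 - δ) * (x / Real.log x) ≤ T * Nat.primeCounting x := by
    rcases le_or_gt (κ * Real.log x - 1) 0 with hneg | hpos
    · have h7 : κ * (1 - δ) * x - (1 - δ) * (x / Real.log x) =
        (κ * Real.log x - 1) * ((1 - δ) * x / Real.log x) := by
        field_simp
      rw [h7]
      have h8 : (κ * Real.log x - 1) * ((1 - δ) * x / Real.log x) ≤ 0 :=
        mul_nonpos_of_nonpos_of_nonneg hneg (by
          apply div_nonneg _ hL.le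
          apply mul_nonneg <;> linarith)
      exact h8.trans (mul_nonneg hT0 hπ0)
    · have h7 : κ * (1 - δ) * x - (1 - δ) * (x / Real.log x) =
        (κ * Real.log x - 1) * ((1 - δ) * x / Real.log x) := by
        field_simp
      rw [h7]
      apply mul_le_mul hT2.le hπle _ hT0
      apply div_nonneg _ hL.le
      apply mul_nonneg <;> linarith
  have hxl0 : 0 ≤ (x : ℝ) / Real.log x := by positivity
  nlinarith [mul_nonneg hδ0.le hxl0, mul_le_mul_of_nonneg_right hδ2 (show (0 : ℝ) ≤ x by linarith)]

end GP
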