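import Pool.Agent.LibGP53.P2
import Pool.Agent.LibGP53.L1

/-! Row L2: at least `m` primes. -/

open Finset

namespace GP

theorem cnt_mono (n : ℕ) {s t : ℝ} (h : s ≤ t) : cnt n s ≤ cnt n t := by
  unfold cnt
  apply Nat.sub_le_sub_right
  apply Nat.monotone_primeCounting
  apply Nat.floor_le_floor
  linarith

theorem many (hP : Pairs) (m : ℕ) (l : ℝ) (hl : 0 < l) (hm : (m : ℝ) - 1 < l) : Many m l := by
  classical
  rcases Nat.eq_zero_or_pos m with h0 | hm1
  · subst h0
    refine ⟨1, one_pos, 0, fun x _ => ?_⟩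
    have : num x (fun n => 0 ≤ FF l n) = x := by
      unfold num
      simp
    rw [this, one_mul]
  · have hmr : (1 : ℝ) ≤ m := by exact_mod_cast hm1
    set k : ℝ := ((m - 1) + l) / 2 with hk
    have hk1 : (m : ℝ) - 1 < k := by rw [hk]; linarith
    have hk2 : k < l := by rw [hk]; linarith
    have hk0 : 0 < k := by rw [hk]; linarith
    set ρ : ℝ := (k - (m - 1)) / 2 with hρ
    have hρ0 : 0 < ρ := by rw [hρ]; linarith
    obtain ⟨C, hC, hS⟩ := second hP
    obtain ⟨x1, hx1⟩ := hS k hk0
    obtain ⟨x2, hx2⟩ := avg k ρ hk0 hρ0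
    set D : ℝ := C * (k + k ^ 2) with hD
    have hD0 : 0 < D := by positivity
    set κ : ℝ := ρ ^ 2 / (2 * D) with hκ
    have hκ0 : 0 < κ := by positivity
    have hcast := tendsto_natCast_atTop_atTop (R := ℝ)
    have hkl : 0 < 1 - k / l := by
      have : k / l < 1 := (div_lt_one hl).mpr hk2
      linarith
    -- x ^ (k/l) + 2 ≤ κ x
    have e1 : ∀ᶠ x : ℕ in Filter.atTop, (x : ℝ) ^ (k / l) + 2 ≤ κ * x := by
      have h1 : Filter.Tendsto (fun x : ℕ => (x : ℝ) ^ (1 - k / l)) Filter.atTop Filter.atTop :=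
        (tendsto_rpow_atTop hkl).comp hcast
      filter_upwards [h1.eventually (Filter.eventually_ge_atTop (3 / κ)),
        Filter.eventually_ge_atTop 1] with x hx hx1
      have hxr : (1 : ℝ) ≤ x := by exact_mod_cast hx1
      have hx0 : (0 : ℝ) < x := by linarith
      have h2 : (x : ℝ) = (x : ℝ) ^ (k / l) * (x : ℝ) ^ (1 - k / l) := by
        rw [← Real.rpow_add hx0]
        simp
      have h3 : (1 : ℝ) ≤ (x : ℝ) ^ (k / l) := Real.one_le_rpow hxr (by positivity)
      have h4 : 3 ≤ κ * (x : ℝ) ^ (1 - k / l) := by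
        rw [div_le_iff₀ hκ0] at hx
        linarith
      calc (x : ℝ) ^ (k / l) + 2 ≤ (x : ℝ) ^ (k / l) * 3 := by linarith
        _ ≤ (x : ℝ) ^ (k / l) * (κ * (x : ℝ) ^ (1 - k / l)) :=
            mul_le_mul_of_nonneg_left h4 (by linarith)
        _ = κ * ((x : ℝ) ^ (k / l) * (x : ℝ) ^ (1 - k / l)) := by ring
        _ = κ * x := by rw [← h2]
    obtain ⟨x3, hx3⟩ := Filter.eventually_atTop.mp e1
    refine ⟨κ, hκ0, max (max x1 x2) (max x3 1), fun x hx => ?_⟩
    have hxx1 : x1 ≤ x := (le_max_left _ _).trans ((le_max_left _ _).trans hx)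
    have hxx2 : x2 ≤ x := (le_max_right _ _).trans ((le_max_left _ _).trans hx)
    have hxx3 : x3 ≤ x := (le_max_left _ _).trans ((le_max_right _ _).trans hx)
    have hxx4 : 1 ≤ x := (le_max_right _ _).trans ((le_max_right _ _).trans hx)
    have hxr : (1 : ℝ) ≤ x := by exact_mod_cast hxx4
    have hx0 : (0 : ℝ) < x := by linarith
    have hsec := hx1 x hxx1
    have havg := hx2 x hxx2
    have hpow := hx3 x hxx3
    set L := Real.log x with hL
    have hL0 : 0 ≤ L := Real.log_nonneg hxr
    set S := (range x).filter (fun n => m ≤ cnt n (k * L)) with hSdef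
    -- the sum over S is large
    have hsplit : ∑ n ∈ range x, (cnt n (k * L) : ℝ) =
        ∑ n ∈ S, (cnt n (k * L) : ℝ) +
        ∑ n ∈ (range x).filter (fun n => ¬ m ≤ cnt n (k * L)), (cnt n (k * L) : ℝ) :=
      (Finset.sum_filter_add_sum_filter_not _ _ _).symm
    have hsmall : ∑ n ∈ (range x).filter (fun n => ¬ m ≤ cnt n (k * L)),
        (cnt n (k * L) : ℝ) ≤ (m - 1) * x := by
      calc ∑ n ∈ (range x).filter (fun n => ¬ m ≤ cnt n (k * L)), (cnt n (k * L) : ℝ)
          ≤ ∑ n ∈ (range x).filter (fun n => ¬ m ≤ cnt n (k * L)), ((m : ℝ) - 1) := by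
            apply Finset.sum_le_sum
            intro n hn
            have h := (mem_filter.mp hn).2
            have h2 : cnt n (k * L) + 1 ≤ m := by omega
            have h3 : (cnt n (k * L) : ℝ) + 1 ≤ m := by exact_mod_cast h2
            linarith
        _ ≤ (m - 1) * x := by
            rw [Finset.sum_const, nsmul_eq_mul, mul_comm]
            apply mul_le_mul_of_nonneg_left _ (by linarith)
            have := Finset.card_filter_le (range x) (fun n => ¬ m ≤ cnt n (k * L))
            rw [card_range] at this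
            exact_mod_cast this
    have hlarge : ρ * x ≤ ∑ n ∈ S, (cnt n (k * L) : ℝ) := by
      have h1 : (k - ρ) * x ≤ ∑ n ∈ S, (cnt n (k * L) : ℝ) + (m - 1) * x := by
        refine havg.trans ?_
        rw [hsplit]
        linarith
      have h2 : k - ρ = (m - 1) + ρ := by rw [hρ]; ring
      rw [h2] at h1
      linarith
    have hCS : (∑ n ∈ S, (cnt n (k * L) : ℝ)) ^ 2 ≤
        (S.card : ℝ) * ∑ n ∈ S, (cnt n (k * L) : ℝ) ^ 2 := by
      have := Finset.sum_mul_sq_le_sq_mul_sq S (fun _ => (1 : ℝ))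
        (fun n => (cnt n (k * L) : ℝ))
      simpa using this
    have hSsq : ∑ n ∈ S, (cnt n (k * L) : ℝ) ^ 2 ≤ D * x := by
      refine le_trans ?_ hsec
      apply Finset.sum_le_sum_of_subset_of_nonneg (Finset.filter_subset _ _)
      intro n _ _
      positivity
    have hScard : 2 * κ * x ≤ S.card := by
      have h1 : (ρ * x) ^ 2 ≤ (S.card : ℝ) * (D * x) := by
        calc (ρ * x) ^ 2 ≤ (∑ n ∈ S, (cnt n (k * L) : ℝ)) ^ 2 :=
              pow_le_pow_left₀ (by positivity) hlarge 2
          _ ≤ _ := hCS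
          _ ≤ _ := mul_le_mul_of_nonneg_left hSsq (Nat.cast_nonneg _)
      have h2 : ρ ^ 2 * x ≤ (S.card : ℝ) * D := by
        have h3 : (ρ ^ 2 * x) * x ≤ ((S.card : ℝ) * D) * x := by nlinarith
        exact le_of_mul_le_mul_right h3 hx0
      have h4 : 2 * κ * x = ρ ^ 2 * x / D := by
        rw [hκ]
        field_simp
      rw [h4, div_le_iff₀ hD0]
      exact h2
    -- compare S with the wanted set
    set B := (range x).filter (fun n => m ≤ FF l n) with hB
    set E := range (⌈(x : ℝ) ^ (k / l)⌉₊) with hE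
    have hSB : S ⊆ B ∪ E := by
      intro n hn
      have hn' := mem_filter.mp hn
      rw [mem_union]
      by_cases hc : n < ⌈(x : ℝ) ^ (k / l)⌉₊
      · exact Or.inr (mem_range.mpr hc)
      · left
        rw [hB, mem_filter]
        refine ⟨hn'.1, hn'.2.trans ?_⟩
        unfold FF
        apply cnt_mono
        have h1 : (x : ℝ) ^ (k / l) ≤ n := by
          have := not_lt.mp hc
          exact (Nat.le_ceil _).trans (by exact_mod_cast this)
        have h2 : Real.log ((x : ℝ) ^ (k / l)) ≤ Real.log n :=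
          Real.log_le_log (Real.rpow_pos_of_pos hx0 _) h1
        rw [Real.log_rpow hx0] at h2
        calc k * L = l * (k / l * L) := by field_simp
          _ ≤ l * Real.log n := mul_le_mul_of_nonneg_left h2 hl.le
    have hcard : (S.card : ℝ) ≤ B.card + ((x : ℝ) ^ (k / l) + 1) := by
      have h1 : S.card ≤ B.card + E.card :=
        (Finset.card_le_card hSB).trans (Finset.card_union_le _ _)
      have h2 : (E.card : ℝ) ≤ (x : ℝ) ^ (k / l) + 1 := by
        rw [hE, card_range]
        exact (Nat.ceil_lt_add_one (by positivity)).le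
      have h3 : (S.card : ℝ) ≤ (B.card : ℝ) + E.card := by exact_mod_cast h1
      linarith
    have hfin : κ * x ≤ B.card := by linarith
    have hnum : num x (fun n => m ≤ FF l n) = B.card := by
      unfold num
      rw [hB]
      congr!
    rw [hnum]
    exact hfin

end GP
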