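import Pool.Agent.LibGP53.F1
import Pool.Agent.LibGP53.G3
import Pool.Agent.LibGP53.L2

/-! Row Fin (15 min): assembly: zero_case / pos_case, `num x` counts `n < x`, the set `Icc 1 x` has at least `num x - 1` of them. -/

open Finset

namespace GP

theorem Fin_conv (m : ℕ) (l : ℝ) {c : ℝ} (hc : 0 < c) {x₀ : ℕ}
    (h : ∀ x : ℕ, x₀ ≤ x → c * x ≤ (num x fun n => FF l n = m : ℝ)) : ∃ c : ℝ, 0 < c ∧ ∃ x₀ : ℕ,
    ∀ x : ℕ, x₀ ≤ x →
    c * x ≤ (((Icc 1 x).filter fun n : ℕ => Nat.primeCounting ⌊(n : ℝ) + l * Real.log n⌋₊ -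
      Nat.primeCounting n = m).card : ℝ) := by
  classical
  refine ⟨c / 2, by positivity, max x₀ ⌈2 / c⌉₊, fun x hx => ?_⟩
  have h1 := h x (le_of_max_le_left hx)
  have h2 : (2 / c : ℝ) ≤ x := (Nat.le_ceil _).trans (by exact_mod_cast le_of_max_le_right hx)
  rw [div_le_iff₀ hc] at h2
  have h3 : num x (fun n => FF l n = m) ≤ ((Icc 1 x).filter fun n : ℕ =>
      Nat.primeCounting ⌊(n : ℝ) + l * Real.log n⌋₊ - Nat.primeCounting n = m).card + 1 := by
    unfold num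
    refine le_trans (Finset.card_le_card (t := insert 0 ((Icc 1 x).filter fun n : ℕ =>
      Nat.primeCounting ⌊(n : ℝ) + l * Real.log n⌋₊ - Nat.primeCounting n = m)) ?_) (Finset.card_insert_le _ _)
    intro n hn
    have hn' : n < x ∧ FF l n = m := by
      obtain ⟨hn1, hn2⟩ := (@Finset.mem_filter ℕ (fun n => FF l n = m)
        (fun a => Classical.propDecidable _) (range x) n).1 hn
      exact ⟨Finset.mem_range.1 hn1, hn2⟩
    rw [Finset.mem_insert, Finset.mem_filter, Finset.mem_Icc]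
    rcases Nat.eq_zero_or_pos n with h0 | h0
    · exact Or.inl h0
    · exact Or.inr ⟨⟨h0, hn'.1.le⟩, hn'.2⟩
  have h4 : (num x (fun n => FF l n = m) : ℝ) ≤ (((Icc 1 x).filter fun n : ℕ =>
      Nat.primeCounting ⌊(n : ℝ) + l * Real.log n⌋₊ - Nat.primeCounting n = m).card : ℝ) + 1 := by
    exact_mod_cast h3
  have h5 : c / 2 * x = c * x - (x * c) / 2 := by ring
  rw [h5]
  linarith

theorem final (hMain : ∀ l : ℝ, 0 < l → ∀ e : ℝ, 0 < e → e < 1 → Main l e) (hP : Pairs) (m : ℕ) (l : ℝ)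
    (hl : 0 < l) (hm : (m : ℝ) - 1 < l) : ∃ c : ℝ, 0 < c ∧ ∃ x₀ : ℕ, ∀ x : ℕ, x₀ ≤ x →
    c * x ≤ (((Icc 1 x).filter fun n : ℕ => Nat.primeCounting ⌊(n : ℝ) + l * Real.log n⌋₊ -
      Nat.primeCounting n = m).card : ℝ) := by
  have hA : AllBut := allbut hMain
  rcases Nat.eq_zero_or_pos m with h0 | h0
  · obtain ⟨c, hc, x₀, h⟩ := zero_case hA l hl
    rw [h0]
    exact Fin_conv 0 l hc h
  · obtain ⟨c, hc, x₀, h⟩ := pos_case hA hP m h0 l hl (many hP m l hl hm)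
    exact Fin_conv m l hc h

end GP
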