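import Pool.Agent.LibGP53.L2

/-! Row L3 (35 min): `m ≤ l + 1` if a positive proportion of the windows is empty. `m ≤ 1`: `many`. `m ≥ 2`: let `c` be the constant of `h0` (wlog `c ≤ 1`),
`k < l` with `k > 0` and `l - k ≤ (m-1) c / 4`, `ρ = (m-1) c / 4`, `L = log x`. `avg k ρ`: `(k - ρ) x ≤ ∑ cnt n (k L)`. Split `range x`: the `n < x^(k/l)` (their `cnt` is
at most `k L`, so they contribute `≤ (x^(k/l) + 1) (k L + 1) = o(x)`); the others satisfy `cnt n (k L) ≤ FF l n` (as in L2): those with `FF l n = 0` contribute `0` and their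
number is `≥ c x - x^(k/l) - 1`; those with `1 ≤ FF l n < m` contribute `≤ m - 1` each, at most `(m-1) (x - c x + x^(k/l) + 1)`; `S` = those with `m ≤ FF l n`.
So `∑_S cnt n (k L) ≥ (k - ρ - (m-1)(1-c) - small) x ≥ ((m-1) c / 4) x` and Cauchy-Schwarz with `second` as in L2 gives `#S ≥ κ x`. -/

open Finset

namespace GP

theorem L3_cnt_le (n : ℕ) {t : ℝ} (ht : 0 ≤ t) : (cnt n t : ℝ) ≤ t := by
  have h1 : ⌊(n : ℝ) + t⌋₊ = n + ⌊t⌋₊ := by
    rw [add_comm, Nat.floor_add_natCast ht, add_comm]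
  have h2 : Nat.primeCounting (n + ⌊t⌋₊) ≤ Nat.primeCounting n + ⌊t⌋₊ := by
    unfold Nat.primeCounting Nat.primeCounting'
    have h3 : n + ⌊t⌋₊ + 1 = (n + 1) + ⌊t⌋₊ := by ring
    rw [h3, Nat.count_add]
    exact Nat.add_le_add_left (Nat.count_le _) _
  have h3 : cnt n t ≤ ⌊t⌋₊ := by
    unfold cnt
    rw [h1]
    omega
  exact (by exact_mod_cast h3 : (cnt n t : ℝ) ≤ (⌊t⌋₊ : ℝ)).trans (Nat.floor_le ht)

theorem L3_rpow {θ : ℝ} (hθ : θ < 1) (c : ℝ) (hc : 0 < c) :
    ∀ᶠ x : ℕ in Filter.atTop, (x : ℝ) ^ θ ≤ c * x := by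
  have h1 : Filter.Tendsto (fun y : ℝ => y ^ (-(1 - θ))) Filter.atTop (nhds 0) :=
    tendsto_rpow_neg_atTop (by linarith)
  have h2 := (h1.comp (tendsto_natCast_atTop_atTop (R := ℝ))).eventually (eventually_le_nhds hc)
  filter_upwards [h2, Filter.eventually_ge_atTop 1] with x hx hx1
  have hx0 : (0 : ℝ) < x := by exact_mod_cast hx1
  have h3 : (x : ℝ) ^ θ = (x : ℝ) ^ (-(1 - θ)) * x := by
    nth_rewrite 3 [← Real.rpow_one (x : ℝ)]
    rw [← Real.rpow_add hx0]
    congr 1
    ring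
  rw [h3]
  exact mul_le_mul_of_nonneg_right hx hx0.le

/-- `x ^ θ log x = o(x)` -/
theorem L3_rpow_log {θ : ℝ} (hθ : θ < 1) (c : ℝ) (hc : 0 < c) :
    ∀ᶠ x : ℕ in Filter.atTop, (x : ℝ) ^ θ * Real.log x ≤ c * x := by
  have h1 : ∀ᶠ y : ℝ in Filter.atTop, ‖Real.log y‖ ≤ 1 * ‖y ^ ((1 - θ) / 2)‖ :=
    (isLittleO_log_rpow_atTop (by linarith : 0 < (1 - θ) / 2)).def one_pos
  have h2 := (tendsto_natCast_atTop_atTop (R := ℝ)).eventually h1
  filter_upwards [h2, L3_rpow (θ := (1 + θ) / 2) (by linarith) c hc,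
    Filter.eventually_ge_atTop 1] with x hx hx' hx1
  have hx0 : (0 : ℝ) < x := by exact_mod_cast hx1
  have hp : 0 < (x : ℝ) ^ ((1 - θ) / 2) := Real.rpow_pos_of_pos hx0 _
  rw [one_mul, Real.norm_of_nonneg hp.le] at hx
  have h3 : Real.log x ≤ (x : ℝ) ^ ((1 - θ) / 2) := (le_abs_self _).trans hx
  calc (x : ℝ) ^ θ * Real.log x ≤ (x : ℝ) ^ θ * (x : ℝ) ^ ((1 - θ) / 2) :=
        mul_le_mul_of_nonneg_left h3 (Real.rpow_nonneg hx0.le _)
    _ = (x : ℝ) ^ ((1 + θ) / 2) := by
        rw [← Real.rpow_add hx0]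
        congr 1
        ring
    _ ≤ c * x := hx'

theorem many_ge (hP : Pairs) (m : ℕ) (l : ℝ) (hl : 0 < l) (hm : (m : ℝ) - 1 ≤ l)
    (h0 : ∃ c : ℝ, 0 < c ∧ ∃ x₀ : ℕ, ∀ x : ℕ, x₀ ≤ x → c * x ≤ (num x fun n => FF l n = 0 : ℝ)) :
    Many m l := by
  classical
  rcases hm.lt_or_eq with hlt | heq
  · exact many hP m l hl hlt
  obtain ⟨c0, hc0, x0, h0⟩ := h0
  set c : ℝ := min c0 1 with hc
  have hcpos : 0 < c := lt_min hc0 one_pos
  have hc1 : c ≤ 1 := min_le_right _ _
  have hcc0 : c ≤ c0 := min_le_left _ _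
  set ρ : ℝ := l * c / 4 with hρ
  have hρ0 : 0 < ρ := by positivity
  set k : ℝ := l - ρ with hk
  have hkl : k < l := by rw [hk]; linarith
  have hk0 : 0 < k := by
    rw [hk, hρ]
    nlinarith
  obtain ⟨C, hC, hS⟩ := second hP
  obtain ⟨x1, hx1⟩ := hS k hk0
  obtain ⟨x2, hx2⟩ := avg k ρ hk0 hρ0
  set D : ℝ := C * (k + k ^ 2) with hD
  have hD0 : 0 < D := by positivity
  set κ : ℝ := ρ ^ 2 / D with hκ
  have hκ0 : 0 < κ := by positivity
  have hθ : k / l < 1 := (div_lt_one hl).mpr hkl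
  have e1 := L3_rpow_log hθ (ρ / (2 * (k + 1 + l))) (by positivity)
  have e2 : ∀ᶠ x : ℕ in Filter.atTop, 1 ≤ Real.log (x : ℝ) :=
    (Real.tendsto_log_atTop.comp (tendsto_natCast_atTop_atTop (R := ℝ))).eventually_ge_atTop _
  obtain ⟨x3, hx3⟩ := Filter.eventually_atTop.mp (e1.and e2)
  refine ⟨κ, hκ0, x0 + x1 + x2 + x3 + 1, fun x hx => ?_⟩
  obtain ⟨f1, f2⟩ := hx3 x (by omega)
  have hsec := hx1 x (by omega)
  have havg := hx2 x (by omega)
  have hzero := h0 x (by omega)
  have hx1' : 1 ≤ x := by omega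
  have hxr : (1 : ℝ) ≤ x := by exact_mod_cast hx1'
  have hxpos : (0 : ℝ) < x := by linarith
  set L := Real.log x with hL
  have hL0 : 0 ≤ L := by linarith
  set y : ℝ := (x : ℝ) ^ (k / l) with hy
  have hy1 : 1 ≤ y := Real.one_le_rpow hxr (by positivity)
  set t : ℕ := ⌈y⌉₊ with ht
  have hty : (t : ℝ) ≤ y + 1 := (Nat.ceil_lt_add_one (by linarith)).le
  set f : ℕ → ℝ := fun n => (cnt n (k * L) : ℝ) with hf
  -- for n ≥ t the count is at most FF
  have hFF : ∀ n, t ≤ n → cnt n (k * L) ≤ FF l n := by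
    intro n hn
    unfold FF
    apply cnt_mono
    have h1 : y ≤ n := (Nat.le_ceil _).trans (by exact_mod_cast hn)
    have h2 : Real.log y ≤ Real.log n := Real.log_le_log (by linarith) h1
    rw [hy, Real.log_rpow hxpos] at h2
    calc k * L = l * (k / l * L) := by field_simp
      _ ≤ l * Real.log n := mul_le_mul_of_nonneg_left h2 hl.le
  -- the four parts
  set R : Finset ℕ := range x with hR
  set S : Finset ℕ := R.filter (fun n => ¬ n < t ∧ m ≤ FF l n) with hSdef
  set Z : Finset ℕ := R.filter (fun n => FF l n = 0) with hZ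
  have hpt : ∀ n ∈ R, f n ≤ (if n < t then k * L else 0) +
      ((if n < t then l else 0) + (l - if FF l n = 0 then l else 0)) +
      (if ¬ n < t ∧ m ≤ FF l n then f n else 0) := by
    intro n _
    have hfn : 0 ≤ f n := Nat.cast_nonneg _
    have hkL : 0 ≤ k * L := by positivity
    by_cases h1 : n < t
    · rw [if_pos h1, if_pos h1]
      have h2 : f n ≤ k * L := L3_cnt_le n hkL
      have h3 : (if FF l n = 0 then l else 0) ≤ l := by split_ifs <;> linarith
      have h4 : 0 ≤ (if ¬ n < t ∧ m ≤ FF l n then f n else 0) := by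
        split_ifs
        · exact hfn
        · exact le_rfl
      linarith
    · rw [if_neg h1, if_neg h1]
      have h2 : f n ≤ (FF l n : ℝ) := Nat.cast_le.2 (hFF n (not_lt.1 h1))
      by_cases h3 : FF l n = 0
      · rw [if_pos h3]
        rw [h3, Nat.cast_zero] at h2
        have h4 : 0 ≤ (if ¬ n < t ∧ m ≤ FF l n then f n else 0) := by
          split_ifs
          · exact hfn
          · exact le_rfl
        linarith
      · rw [if_neg h3]
        by_cases h5 : m ≤ FF l n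
        · rw [if_pos ⟨h1, h5⟩]
          linarith
        · rw [if_neg (fun h => h5 h.2)]
          have h6 : (FF l n : ℝ) + 1 ≤ m := by
            have : FF l n + 1 ≤ m := by omega
            exact_mod_cast this
          linarith
  have hsum := Finset.sum_le_sum hpt
  rw [Finset.sum_add_distrib, Finset.sum_add_distrib, Finset.sum_add_distrib,
    Finset.sum_sub_distrib, ← Finset.sum_filter, ← Finset.sum_filter, ← Finset.sum_filter,
    ← Finset.sum_filter, Finset.sum_const, Finset.sum_const, Finset.sum_const, Finset.sum_const,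
    nsmul_eq_mul, nsmul_eq_mul, nsmul_eq_mul, nsmul_eq_mul, hR, card_range] at hsum
  have hcardE : (((range x).filter (fun n => n < t)).card : ℝ) ≤ y + 1 := by
    refine le_trans ?_ hty
    have : ((range x).filter (fun n => n < t)).card ≤ (range t).card := by
      refine Finset.card_le_card fun n hn => ?_
      exact mem_range.2 (mem_filter.1 hn).2
    rw [card_range] at this
    exact_mod_cast this
  have hcardZ : c * x ≤ ((range x).filter (fun n => FF l n = 0)).card := by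
    refine (mul_le_mul_of_nonneg_right hcc0 hxpos.le).trans (hzero.trans (le_of_eq ?_))
    unfold num
    congr!
  have hsmall : (y + 1) * (k * L) + (y + 1) * l ≤ ρ * x := by
    have h1 : (y + 1) * (k * L) + (y + 1) * l ≤ 2 * (k + 1 + l) * (y * L) := by
      have h2 : 0 ≤ y * L := by positivity
      have h3 : l ≤ l * L := by nlinarith
      have h4 : (y + 1) * (k * L) + (y + 1) * l ≤ 2 * y * (k * L) + 2 * y * (l * L) := by
        have h5 : 0 ≤ k * L := by positivity
        have h6 : 0 ≤ l * L := by positivity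
        nlinarith [mul_le_mul_of_nonneg_left h3 (by linarith : (0:ℝ) ≤ y + 1)]
      nlinarith
    refine h1.trans ?_
    calc 2 * (k + 1 + l) * (y * L) ≤ 2 * (k + 1 + l) * (ρ / (2 * (k + 1 + l)) * x) :=
          mul_le_mul_of_nonneg_left f1 (by positivity)
      _ = ρ * x := by field_simp
  have hlarge : ρ * x ≤ ∑ n ∈ S, f n := by
    have h1 : (((range x).filter (fun n => n < t)).card : ℝ) * (k * L) ≤ (y + 1) * (k * L) :=
      mul_le_mul_of_nonneg_right hcardE (by positivity)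
    have h2 : (((range x).filter (fun n => n < t)).card : ℝ) * l ≤ (y + 1) * l :=
      mul_le_mul_of_nonneg_right hcardE hl.le
    have h3 : c * x * l ≤ ((range x).filter (fun n => FF l n = 0)).card * l :=
      mul_le_mul_of_nonneg_right hcardZ hl.le
    have h4 : (k - ρ) * x = l * x - 2 * ρ * x := by rw [hk]; ring
    have h5 : c * x * l = 4 * ρ * x := by rw [hρ]; ring
    have h6 : ∑ n ∈ range x, f n = ∑ n ∈ range x, (cnt n (k * L) : ℝ) := rfl
    have h7 : ∑ n ∈ S, f n = ∑ a ∈ range x with ¬a < t ∧ m ≤ FF l a, f a := rfl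
    rw [h7]
    linarith
  have hCS : (∑ n ∈ S, f n) ^ 2 ≤ (S.card : ℝ) * ∑ n ∈ S, f n ^ 2 := by
    have := Finset.sum_mul_sq_le_sq_mul_sq S (fun _ => (1 : ℝ)) f
    simpa using this
  have hSsq : ∑ n ∈ S, f n ^ 2 ≤ D * x := by
    refine le_trans ?_ hsec
    apply Finset.sum_le_sum_of_subset_of_nonneg (Finset.filter_subset _ _)
    intro n _ _
    positivity
  have hScard : κ * x ≤ S.card := by
    have h1 : (ρ * x) ^ 2 ≤ (S.card : ℝ) * (D * x) := by
      calc (ρ * x) ^ 2 ≤ (∑ n ∈ S, f n) ^ 2 := pow_le_pow_left₀ (by positivity) hlarge 2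
        _ ≤ _ := hCS
        _ ≤ _ := mul_le_mul_of_nonneg_left hSsq (Nat.cast_nonneg _)
    have h2 : ρ ^ 2 * x ≤ (S.card : ℝ) * D := by
      have h3 : (ρ ^ 2 * x) * x ≤ ((S.card : ℝ) * D) * x := by nlinarith
      exact le_of_mul_le_mul_right h3 hxpos
    have h4 : κ * x = ρ ^ 2 * x / D := by
      rw [hκ]
      field_simp
    rw [h4, div_le_iff₀ hD0]
    exact h2
  refine hScard.trans ?_
  unfold num
  have h5 : S ⊆ (range x).filter (fun n => m ≤ FF l n) := by
    intro n hn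
    rw [hSdef, mem_filter] at hn
    exact mem_filter.2 ⟨hn.1, hn.2.2⟩
  have h6 := Finset.card_le_card h5
  refine (Nat.cast_le.2 h6).trans (le_of_eq ?_)
  congr!

end GP
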