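import Pool.Agent.LibGP53.Fin
import Pool.Agent.LibGP53.L3

/-! Assembly for `m ≤ l + 1`. -/

open Finset

namespace GP

theorem final2 (hMain : ∀ l : ℝ, 0 < l → ∀ e : ℝ, 0 < e → e < 1 → Main l e) (hP : Pairs) (m : ℕ) (l : ℝ)
    (hl : 0 < l) (hm : (m : ℝ) ≤ l + 1) : ∃ c : ℝ, 0 < c ∧ ∃ x₀ : ℕ, ∀ x : ℕ, x₀ ≤ x →
    c * x ≤ (((Icc 1 x).filter fun n : ℕ => Nat.primeCounting ⌊(n : ℝ) + l * Real.log n⌋₊ -
      Nat.primeCounting n = m).card : ℝ) := by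
  have hA : AllBut := allbut hMain
  have hz := zero_case hA l hl
  rcases Nat.eq_zero_or_pos m with h0 | h0
  · obtain ⟨c, hc, x₀, h⟩ := hz
    rw [h0]
    exact Fin_conv 0 l hc h
  · obtain ⟨c, hc, x₀, h⟩ := pos_case hA hP m h0 l hl (many_ge hP m l hl (by linarith) hz)
    exact Fin_conv m l hc h

end GP
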