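import Pool.Agent.LibGP53.Defs

/-! Row G1 (20 min): second moment. `T m = ∑_{j<J} X j m / d j`. `∑_m T m ≥ J (1-e) M`,
`∑_m T m ^ 2 = ∑_{i,j} ... ≤ J Bd (1+e) M + J^2 (1+e) M` (diagonal: `X^2 ≤ Bd X` and `1 ≤ d j`; off diagonal: h3).
Cauchy-Schwarz on the `m` with `T m ≠ 0` (their number is `M - g`, `g` = number of `m` with all `X j m = 0`):
`(J (1-e) M)^2 ≤ (M - g) (1+e) (J Bd + J^2) M`. Divide by `J^2 M`: `(1-e)^2 M ≤ (M - g) (1+e) (1 + Bd/J)`, and
`(1-e)^2/(1+e) ≥ 1 - 3e`, `(1 - 3e)(1 - Bd/J) ≤ (M-g)/M` (case `Bd/J ≥ 1` or `3e ≥ 1` trivial). -/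

open Finset

namespace GP

theorem G1_fin {M b e g : ℝ} (hM : 0 < M) (hb : 0 < b) (he : 0 < e) (hg : g ≤ M)
    (h : (1 - e) ^ 2 * M ≤ (M - g) * (1 + e) * (1 + b)) : g ≤ (b + 3 * e) * M := by
  by_contra hcon
  push Not at hcon
  by_cases h1 : 1 - b - 3 * e ≤ 0
  · nlinarith
  · push Not at h1
    have h2 : M - g < (1 - b - 3 * e) * M := by linarith
    have h3 : (M - g) * ((1 + e) * (1 + b)) < (1 - b - 3 * e) * M * ((1 + e) * (1 + b)) :=
      mul_lt_mul_of_pos_right h2 (by positivity)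
    have h4 : (1 - b - 3 * e) * (1 + b) ≤ 1 - 3 * e := by nlinarith [mul_pos hb he]
    have h5 : (1 - b - 3 * e) * (1 + b) * (1 + e) ≤ (1 - 3 * e) * (1 + e) :=
      mul_le_mul_of_nonneg_right h4 (by linarith)
    have h6 : (1 - 3 * e) * (1 + e) ≤ (1 - e) ^ 2 := by nlinarith
    have h7 : (1 - b - 3 * e) * (1 + b) * (1 + e) * M ≤ (1 - e) ^ 2 * M :=
      mul_le_mul_of_nonneg_right (h5.trans h6) hM.le
    nlinarith

theorem G1_sum {M J : ℕ} {e : ℝ}
    (X : ℕ → ℕ → ℝ) (d : ℕ → ℝ) (hd : ∀ j < J, 1 ≤ d j)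
    (h1 : ∀ j < J, (1 - e) * d j * M ≤ ∑ m ∈ range M, X j m) :
    (J : ℝ) * (1 - e) * M ≤ ∑ m ∈ range M, ∑ j ∈ range J, X j m / d j := by
  rw [Finset.sum_comm]
  have h2 : ∀ j ∈ range J, (1 - e) * M ≤ ∑ m ∈ range M, X j m / d j := by
    intro j hj
    have hj' := mem_range.1 hj
    have hd0 : 0 < d j := lt_of_lt_of_le one_pos (hd j hj')
    rw [← Finset.sum_div, le_div_iff₀ hd0]
    have := h1 j hj'
    nlinarith
  have h3 := Finset.sum_le_sum h2
  rw [Finset.sum_const, card_range, nsmul_eq_mul] at h3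
  linarith

theorem G1_sq {M J : ℕ} {Bd e : ℝ} (hB : 1 ≤ Bd) (he : 0 < e)
    (X : ℕ → ℕ → ℝ) (d : ℕ → ℝ) (hd : ∀ j < J, 1 ≤ d j) (hX : ∀ j m, 0 ≤ X j m ∧ X j m ≤ Bd)
    (h2 : ∀ j < J, ∑ m ∈ range M, X j m ≤ (1 + e) * d j * M)
    (h3 : ∀ i < J, ∀ j < J, i ≠ j → ∑ m ∈ range M, X i m * X j m ≤ (1 + e) * d i * d j * M) :
    ∑ m ∈ range M, (∑ j ∈ range J, X j m / d j) ^ 2 ≤ (1 + e) * (J * Bd + J ^ 2) * M := by
  have h4 : ∑ m ∈ range M, (∑ j ∈ range J, X j m / d j) ^ 2 =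
      ∑ i ∈ range J, ∑ j ∈ range J, (∑ m ∈ range M, X i m * X j m) / (d i * d j) := by
    have h5 : ∀ m ∈ range M, (∑ j ∈ range J, X j m / d j) ^ 2 =
        ∑ i ∈ range J, ∑ j ∈ range J, X i m * X j m / (d i * d j) := by
      intro m _
      rw [sq, Finset.sum_mul_sum]
      refine Finset.sum_congr rfl fun i _ => Finset.sum_congr rfl fun j _ => ?_
      rw [div_mul_div_comm]
    rw [Finset.sum_congr rfl h5, Finset.sum_comm]
    refine Finset.sum_congr rfl fun i _ => ?_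
    rw [Finset.sum_comm]
    refine Finset.sum_congr rfl fun j _ => ?_
    rw [Finset.sum_div]
  rw [h4]
  have h6 : ∀ i ∈ range J, ∀ j ∈ range J,
      (∑ m ∈ range M, X i m * X j m) / (d i * d j) ≤
        (1 + e) * M + (if i = j then (1 + e) * Bd * M else 0) := by
    intro i hi j hj
    have hi' := mem_range.1 hi
    have hj' := mem_range.1 hj
    have hdi : 0 < d i := lt_of_lt_of_le one_pos (hd i hi')
    have hdj : 0 < d j := lt_of_lt_of_le one_pos (hd j hj')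
    have hM : (0 : ℝ) ≤ M := Nat.cast_nonneg M
    by_cases hij : i = j
    · subst hij
      rw [if_pos rfl, div_le_iff₀ (mul_pos hdi hdi)]
      have h7 : ∑ m ∈ range M, X i m * X i m ≤ Bd * ∑ m ∈ range M, X i m := by
        rw [Finset.mul_sum]
        refine Finset.sum_le_sum fun m _ => ?_
        exact mul_le_mul_of_nonneg_right (hX i m).2 (hX i m).1
      have h8 := h2 i hi'
      have h9 := hd i hi'
      have h10 : Bd * ∑ m ∈ range M, X i m ≤ Bd * ((1 + e) * d i * M) :=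
        mul_le_mul_of_nonneg_left h8 (by linarith)
      have h11 : Bd * ((1 + e) * d i * M) ≤ (1 + e) * Bd * M * (d i * d i) := by
        have h12 : 0 ≤ Bd * (1 + e) * M * d i * (d i - 1) := by
          have : 0 ≤ d i - 1 := by linarith
          positivity
        nlinarith
      have h13 : 0 ≤ (1 + e) * M * (d i * d i) := by positivity
      nlinarith
    · rw [if_neg hij, add_zero, div_le_iff₀ (mul_pos hdi hdj)]
      have := h3 i hi' j hj' hij
      nlinarith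
  have h7 : ∑ i ∈ range J, ∑ j ∈ range J, (∑ m ∈ range M, X i m * X j m) / (d i * d j) ≤
      ∑ i ∈ range J, ∑ j ∈ range J, ((1 + e) * M + (if i = j then (1 + e) * Bd * M else 0)) :=
    Finset.sum_le_sum fun i hi => Finset.sum_le_sum fun j hj => h6 i hi j hj
  have h8 : ∑ i ∈ range J, ∑ j ∈ range J,
      ((1 + e) * (M : ℝ) + (if i = j then (1 + e) * Bd * M else 0)) =
      (1 + e) * (J * Bd + J ^ 2) * M := by
    have h9 : ∀ i ∈ range J, ∑ j ∈ range J,
        ((1 + e) * (M : ℝ) + (if i = j then (1 + e) * Bd * M else 0)) =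
        J * ((1 + e) * M) + (1 + e) * Bd * M := by
      intro i hi
      rw [Finset.sum_add_distrib, Finset.sum_const, card_range, nsmul_eq_mul, Finset.sum_ite_eq,
        if_pos hi]
    rw [Finset.sum_congr rfl h9, Finset.sum_const, card_range, nsmul_eq_mul]
    ring
  rw [h8] at h7
  exact h7

theorem cheb {M J : ℕ} (hJ : 0 < J) {Bd e : ℝ} (hB : 1 ≤ Bd) (he : 0 < e) (he1 : e ≤ 1)
    (X : ℕ → ℕ → ℝ) (d : ℕ → ℝ) (hd : ∀ j < J, 1 ≤ d j) (hX : ∀ j m, 0 ≤ X j m ∧ X j m ≤ Bd)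
    (h1 : ∀ j < J, (1 - e) * d j * M ≤ ∑ m ∈ range M, X j m)
    (h2 : ∀ j < J, ∑ m ∈ range M, X j m ≤ (1 + e) * d j * M)
    (h3 : ∀ i < J, ∀ j < J, i ≠ j → ∑ m ∈ range M, X i m * X j m ≤ (1 + e) * d i * d j * M) :
    (num M (fun m => ∀ j < J, X j m = 0) : ℝ) ≤ (Bd / J + 3 * e) * M := by
  classical
  rcases Nat.eq_zero_or_pos M with hM0 | hM0
  · subst hM0
    simp [num]
  have hM : (0 : ℝ) < M := by exact_mod_cast hM0
  have hJ' : (0 : ℝ) < J := by exact_mod_cast hJ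
  set G := (range M).filter fun m => ∀ j < J, X j m = 0 with hG
  have hnum : num M (fun m => ∀ j < J, X j m = 0) = G.card := by
    unfold num
    rw [hG]
    congr
  rw [hnum]
  set S := (range M).filter fun m => ¬ ∀ j < J, X j m = 0 with hS
  have hcard : (G.card : ℝ) + S.card = M := by
    have h4 := Finset.card_filter_add_card_filter_not (s := range M) (fun m => ∀ j < J, X j m = 0)
    rw [card_range] at h4
    exact_mod_cast h4
  have hT0 : ∀ m ∈ range M, m ∉ S → ∑ j ∈ range J, X j m / d j = 0 := by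
    intro m hm hmS
    rw [hS, mem_filter, not_and, not_not] at hmS
    refine Finset.sum_eq_zero fun j hj => ?_
    rw [hmS hm j (mem_range.1 hj), zero_div]
  have hsub : S ⊆ range M := Finset.filter_subset _ _
  have hsumS : ∑ m ∈ S, ∑ j ∈ range J, X j m / d j =
      ∑ m ∈ range M, ∑ j ∈ range J, X j m / d j :=
    Finset.sum_subset hsub hT0
  have hCS := sq_sum_le_card_mul_sum_sq (s := S) (f := fun m => ∑ j ∈ range J, X j m / d j)
  rw [hsumS] at hCS
  have hsqS : ∑ m ∈ S, (∑ j ∈ range J, X j m / d j) ^ 2 ≤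
      ∑ m ∈ range M, (∑ j ∈ range J, X j m / d j) ^ 2 :=
    Finset.sum_le_sum_of_subset_of_nonneg hsub fun m _ _ => sq_nonneg _
  have hA := G1_sum X d hd h1
  have hBq := G1_sq hB he X d hd hX h2 h3
  have hA0 : 0 ≤ (J : ℝ) * (1 - e) * M := by
    have : 0 ≤ 1 - e := by linarith
    positivity
  have hA2 : ((J : ℝ) * (1 - e) * M) ^ 2 ≤
      (S.card : ℝ) * ((1 + e) * (J * Bd + J ^ 2) * M) := by
    calc ((J : ℝ) * (1 - e) * M) ^ 2 ≤ (∑ m ∈ range M, ∑ j ∈ range J, X j m / d j) ^ 2 :=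
          pow_le_pow_left₀ hA0 hA 2
      _ ≤ (S.card : ℝ) * ∑ m ∈ S, (∑ j ∈ range J, X j m / d j) ^ 2 := hCS
      _ ≤ (S.card : ℝ) * ((1 + e) * (J * Bd + J ^ 2) * M) :=
          mul_le_mul_of_nonneg_left (hsqS.trans hBq) (Nat.cast_nonneg _)
  have hSc : (S.card : ℝ) = M - G.card := by linarith
  have hgM : (G.card : ℝ) ≤ M := by
    have : (0 : ℝ) ≤ S.card := Nat.cast_nonneg _
    linarith
  refine G1_fin hM (div_pos (by linarith) hJ') he hgM ?_
  rw [hSc] at hA2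
  have h5 : (J : ℝ) ^ 2 * M * ((1 - e) ^ 2 * M) ≤
      (J : ℝ) ^ 2 * M * ((M - G.card) * (1 + e) * (1 + Bd / J)) := by
    have h6 : (J : ℝ) ^ 2 * M * ((M - G.card) * (1 + e) * (1 + Bd / J)) =
        (M - G.card) * ((1 + e) * (J * Bd + J ^ 2) * M) := by
      have h7 : (J : ℝ) * (Bd / J) = Bd := mul_div_cancel₀ Bd hJ'.ne'
      linear_combination ((M : ℝ) * (M - G.card) * (1 + e) * J) * h7
    rw [h6]
    nlinarith
  exact le_of_mul_le_mul_left h5 (by positivity)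

end GP
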