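import Pool.Agent.LibGP53.G1

/-! Row G2 (40 min): all classes together. From `Main l e` take `q, Bd`; `J` with `Bd/J + 3e < (δ + 3e)/2`-like, `N = z ^ q`,
`M = N / W`. Every `n < W * M` is `c + W m` with `c = n % W < W`, `m = n / W < M`. If `n` is bad (no block is free) and
`z ^ (q-1) ≤ n` then `X j m = 0` for all `j < J` (else `X j m > 0`, so the block is free). Hence the number of bad `n < N` is at most
`∑_{c<W} num M (...) + z ^ (q-1) + W ≤ (Bd/J + 3e) W M + 2 z ^ (q-1)` (`W ≤ z ≤ z ^ (q-1)`, `W M ≤ N`; `n ∈ [W M, N)`: at most `W`), and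
`2 z ^ (q-1) ≤ small * z ^ q` for large `z`. -/

open Finset

namespace GP

theorem blocks {l e : ℝ} (he : 0 < e) (he1 : e ≤ 1) (h : Main l e) (δ : ℝ) (hδ : 3 * e < δ) :
    ∃ q J : ℕ, 2 ≤ q ∧ 0 < J ∧ ∃ z₀ : ℕ, ∀ z : ℕ, z₀ ≤ z →
      (num (z ^ q) (fun n => ∀ j < J, ¬ Free (n + j * hh l (z ^ q)) (hh l (z ^ q))) : ℝ) ≤
        δ * ((z ^ q : ℕ) : ℝ) := by
  classical
  obtain ⟨q, Bd, hq, hBd, hmain⟩ := h
  obtain ⟨τ, hτ⟩ : ∃ τ : ℝ, τ = δ - 3 * e := ⟨_, rfl⟩
  have hτ0 : 0 < τ := by linarith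
  obtain ⟨J, hJ⟩ := exists_nat_ge (max 1 (2 * Bd / τ))
  have hJ1 : (1 : ℝ) ≤ J := (le_max_left _ _).trans hJ
  have hJ0 : 0 < J := by
    have : (0 : ℝ) < J := by linarith
    exact_mod_cast this
  have hBJ : Bd / J ≤ τ / 2 := by
    rw [div_le_iff₀ (by linarith)]
    have := (le_max_right _ _).trans hJ
    rw [div_le_iff₀ hτ0] at this
    linarith
  obtain ⟨z₁, hz₁⟩ := hmain J
  obtain ⟨z₂, hz₂⟩ := exists_nat_ge (max 1 (4 / τ))
  refine ⟨q, J, hq, hJ0, max z₁ z₂, fun z hz => ?_⟩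
  obtain ⟨W, hW0, hWz, hc⟩ := hz₁ z ((le_max_left _ _).trans hz)
  have hz2 : max 1 (4 / τ) ≤ (z : ℝ) :=
    hz₂.trans (by exact_mod_cast (le_max_right _ _).trans hz)
  have hz1 : (1 : ℝ) ≤ z := (le_max_left _ _).trans hz2
  have hz1' : 1 ≤ z := by exact_mod_cast hz1
  have hz4 : 4 / τ ≤ z := (le_max_right _ _).trans hz2
  rw [div_le_iff₀ hτ0] at hz4
  choose! X d hd hX hfree h1 h2 h3 using hc
  obtain ⟨N, hN⟩ : ∃ N : ℕ, N = z ^ q := ⟨_, rfl⟩
  rw [← hN] at hfree h1 h2 h3 ⊢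
  obtain ⟨M, hM⟩ : ∃ M : ℕ, M = N / W := ⟨_, rfl⟩
  rw [← hM] at hfree h1 h2 h3
  obtain ⟨H, hH⟩ : ∃ H : ℕ, H = hh l N := ⟨_, rfl⟩
  rw [← hH] at hfree ⊢
  have hcount : ∀ c ∈ range W, (num M (fun m => ∀ j < J, X c j m = 0) : ℝ) ≤
      (Bd / J + 3 * e) * M := fun c hc => by
    have hc' := mem_range.1 hc
    exact cheb hJ0 hBd he he1 (X c) (d c) (hd c hc') (hX c hc') (h1 c hc') (h2 c hc') (h3 c hc')
  have hWM : W * M ≤ N := by rw [hM]; exact Nat.mul_div_le N W
  have hNW : N - W * M ≤ z := by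
    have h5 := Nat.div_add_mod N W
    rw [← hM] at h5
    have h6 := Nat.mod_lt N hW0
    omega
  have hzq : z ≤ z ^ (q - 1) := by
    calc z = z ^ 1 := (pow_one z).symm
      _ ≤ z ^ (q - 1) := Nat.pow_le_pow_right hz1' (by omega)
  have hsub : (range N).filter (fun n => ∀ j < J, ¬ Free (n + j * H) H) ⊆
      range (z ^ (q - 1)) ∪ (Ico (W * M) N ∪ (range W).biUnion fun c =>
        ((range M).filter fun m => ∀ j < J, X c j m = 0).image fun m => c + W * m) := by
    intro n hn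
    rw [mem_filter, mem_range] at hn
    rw [mem_union, mem_union, mem_range, mem_Ico, mem_biUnion]
    by_cases a1 : n < z ^ (q - 1)
    · exact Or.inl a1
    by_cases a2 : W * M ≤ n
    · exact Or.inr (Or.inl ⟨a2, hn.1⟩)
    refine Or.inr (Or.inr ⟨n % W, mem_range.2 (Nat.mod_lt _ hW0), ?_⟩)
    have e1 : n % W + W * (n / W) = n := Nat.mod_add_div n W
    have a3 : n / W < M := by
      rw [Nat.div_lt_iff_lt_mul hW0, mul_comm]
      exact Nat.lt_of_not_le a2
    refine mem_image.2 ⟨n / W, mem_filter.2 ⟨mem_range.2 a3, fun j hj => ?_⟩, e1⟩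
    by_contra hne
    have hpos : 0 < X (n % W) j (n / W) :=
      lt_of_le_of_ne (hX (n % W) (Nat.mod_lt _ hW0) j (n / W)).1 (Ne.symm hne)
    have hf := hfree (n % W) (Nat.mod_lt _ hW0) j hj (n / W) a3 (by rw [e1]; omega) hpos
    rw [e1] at hf
    exact hn.2 j hj hf
  have hcard := (card_le_card hsub).trans ((card_union_le _ _).trans
    (Nat.add_le_add_left ((card_union_le _ _).trans (Nat.add_le_add_left card_biUnion_le _)) _))
  rw [card_range, Nat.card_Ico] at hcard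
  have hnum : num N (fun n => ∀ j < J, ¬ Free (n + j * H) H) =
      ((range N).filter (fun n => ∀ j < J, ¬ Free (n + j * H) H)).card := by
    unfold num
    congr
  rw [hnum]
  have hsum : ((∑ c ∈ range W, (((range M).filter fun m => ∀ j < J, X c j m = 0).image
      fun m => c + W * m).card : ℕ) : ℝ) ≤ W * ((Bd / J + 3 * e) * M) := by
    push_cast
    calc ∑ c ∈ range W, ((((range M).filter fun m => ∀ j < J, X c j m = 0).image
          fun m => c + W * m).card : ℝ) ≤ ∑ c ∈ range W, (Bd / J + 3 * e) * M := by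
          refine sum_le_sum fun c hc => ?_
          refine le_trans ?_ (hcount c hc)
          have : (((range M).filter fun m => ∀ j < J, X c j m = 0).image
              fun m => c + W * m).card ≤ num M (fun m => ∀ j < J, X c j m = 0) := by
            refine card_image_le.trans (le_of_eq ?_)
            unfold num
            congr
          exact_mod_cast this
      _ = W * ((Bd / J + 3 * e) * M) := by rw [sum_const, card_range, nsmul_eq_mul]
  have hcardR : (((range N).filter (fun n => ∀ j < J, ¬ Free (n + j * H) H)).card : ℝ) ≤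
      z ^ (q - 1) + (z ^ (q - 1) + W * ((Bd / J + 3 * e) * M)) := by
    have h7 : (((range N).filter (fun n => ∀ j < J, ¬ Free (n + j * H) H)).card : ℝ) ≤
        ((z ^ (q - 1) + (N - W * M + ∑ c ∈ range W, (((range M).filter fun m =>
          ∀ j < J, X c j m = 0).image fun m => c + W * m).card) : ℕ) : ℝ) := by
      exact_mod_cast hcard
    refine h7.trans ?_
    rw [Nat.cast_add, Nat.cast_add, Nat.cast_pow]
    have h8 : ((N - W * M : ℕ) : ℝ) ≤ (z : ℝ) ^ (q - 1) := by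
      exact_mod_cast hNW.trans hzq
    linarith
  refine hcardR.trans ?_
  have hWMR : (W : ℝ) * M ≤ N := by exact_mod_cast hWM
  have hNR : (N : ℝ) = z * (z : ℝ) ^ (q - 1) := by
    rw [hN, Nat.cast_pow, ← pow_succ']
    congr 1
    omega
  have hP0 : 0 < (z : ℝ) ^ (q - 1) := by positivity
  have h9 : (z : ℝ) ^ (q - 1) * 4 ≤ τ * N := by
    rw [hNR]
    nlinarith
  have hN0 : 0 ≤ (N : ℝ) := Nat.cast_nonneg N
  have h10 : (W : ℝ) * ((Bd / J + 3 * e) * M) ≤ (τ / 2 + 3 * e) * N := by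
    calc (W : ℝ) * ((Bd / J + 3 * e) * M) = (Bd / J + 3 * e) * (W * M) := by ring
      _ ≤ (τ / 2 + 3 * e) * N := by
          refine mul_le_mul (by linarith) hWMR (by positivity) (by linarith)
  have h11 : δ = τ + 3 * e := by linarith
  rw [h11]
  linarith

end GP
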