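import Pool.Agent.LibGP53.Defs

/-! Row P1b (15 min): coprime pairs. For every `c` coprime to `W` (there are `φ(W)` such `c < W`) the number of `d ∈ (A, A+B]` with `c + d` coprime to `W` is at
most `φ(W) (B / W + 1) ≤ 2 φ(W) B / W` (`Nat.Ico_filter_coprime_le`, shift by `c`; `Ioc A (A+B) = Ico (A+1) (A+1+B)`). -/

open Finset

namespace GP

theorem coprime_pairs (W A B : ℕ) (hW : 0 < W) (hB : W ≤ B) :
    ((((range W) ×ˢ (Ioc A (A + B))).filter fun v => Nat.Coprime v.1 W ∧ Nat.Coprime (v.1 + v.2) W).card : ℝ) ≤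
      2 * B * ((W.totient : ℝ)) ^ 2 / W := by
  have h1 : (((range W) ×ˢ (Ioc A (A + B))).filter fun v =>
      Nat.Coprime v.1 W ∧ Nat.Coprime (v.1 + v.2) W).card ≤
      W.totient * (W.totient * (B / W + 1)) := by
    have h2 : (((range W) ×ˢ (Ioc A (A + B))).filter fun v =>
        Nat.Coprime v.1 W ∧ Nat.Coprime (v.1 + v.2) W) ⊆
        ((range W).filter fun c => Nat.Coprime W c).biUnion fun c =>
          ((Ioc A (A + B)).filter fun d => Nat.Coprime W (c + d)).image fun d => (c, d) := by
      intro v hv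
      simp only [mem_filter, mem_product] at hv
      simp only [mem_biUnion, mem_filter, mem_image]
      exact ⟨v.1, ⟨hv.1.1, hv.2.1.symm⟩, v.2, ⟨hv.1.2, hv.2.2.symm⟩, rfl⟩
    refine (card_le_card h2).trans (card_biUnion_le.trans ?_)
    have h3 : ∀ c ∈ (range W).filter fun c => Nat.Coprime W c,
        (((Ioc A (A + B)).filter fun d => Nat.Coprime W (c + d)).image fun d => (c, d)).card ≤
          W.totient * (B / W + 1) := by
      intro c _
      refine card_image_le.trans ?_
      have h4 : ((Ioc A (A + B)).filter fun d => Nat.Coprime W (c + d)).card ≤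
          ((Ico (c + (A + 1)) (c + (A + 1) + B)).filter fun x => W.Coprime x).card := by
        refine card_le_card_of_injOn (fun d => c + d) ?_ ?_
        · intro d hd
          rw [mem_coe, mem_filter, mem_Ioc] at hd
          rw [mem_coe, mem_filter, mem_Ico]
          exact ⟨⟨by simp only; omega, by simp only; omega⟩, hd.2⟩
        · intro d _ d' _ h
          simpa using h
      exact h4.trans (Nat.Ico_filter_coprime_le _ _ hW.ne')
    refine (sum_le_sum h3).trans ?_
    rw [sum_const, smul_eq_mul, ← Nat.totient_eq_card_coprime]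
  have hW' : (0 : ℝ) < W := by exact_mod_cast hW
  have h5 : ((B / W : ℕ) : ℝ) + 1 ≤ 2 * B / W := by
    have h6 : ((B / W : ℕ) : ℝ) ≤ (B : ℝ) / W := Nat.cast_div_le
    have h7 : (1 : ℝ) ≤ (B : ℝ) / W := by
      rw [one_le_div hW']
      exact_mod_cast hB
    have h8 : 2 * (B : ℝ) / W = (B : ℝ) / W + (B : ℝ) / W := by ring
    rw [h8]
    linarith
  calc ((((range W) ×ˢ (Ioc A (A + B))).filter fun v =>
      Nat.Coprime v.1 W ∧ Nat.Coprime (v.1 + v.2) W).card : ℝ)
      ≤ (W.totient : ℝ) * (W.totient * (((B / W : ℕ) : ℝ) + 1)) := by exact_mod_cast h1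
    _ ≤ (W.totient : ℝ) * (W.totient * (2 * B / W)) := by gcongr
    _ = 2 * B * ((W.totient : ℝ)) ^ 2 / W := by ring

end GP
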