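import Pool.Agent.LibGP53.P1a
import Pool.Agent.LibGP53.P1b
import Pool.Agent.LibLG5.NT

/-! Row P1 (60 min): the pair bound. `E` from `pair_ap`, `Q = 2 E + 8`. For large `x` let `z = ⌊x^(1/Q)⌋₊` (or the largest `z` with `z ^ Q ≤ x`), so
`z ^ Q ≤ x` and `log z ≥ log x / (2 Q)`; `W = primorial (wf z)`, `W ^ 2 ≤ log z / log 2` (`primorial_wf_le`), so `W ≤ z` and `W ≤ ε log x ≤ B` for large `x`;
`d ≤ A + B ≤ K log x ≤ log z ^ 2`. A pair `(p, d)` with `p > z` gives `c = p % W`, `m = p / W < M := x / W + 1`, and `c`, `c + d` are coprime to `W` (a common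
prime factor is `≤ wf z ≤ z` and divides the prime `p`, resp. `p + d`, `> z`). The pairs with `p ≤ z`: at most `(z+1) B`. Hence the count is
`≤ (z+1) B + (2 B φ(W)^2 / W) (4 M V1^2 + z^E)`, `M ≤ 2 x / W`, `(φ(W)/W) V1 ≤ 1/log z` (`NT_V`): main part `≤ 16 B x / log z ^ 2 ≤ 64 Q^2 B x / log x ^ 2`;
the rest `≤ 2 B z + 2 B W z^E ≤ 4 B z^(E+1) ≤ 4 B √x ≤ B x / log x ^ 2` for large `x`. `C = 64 Q^2 + 1`. -/

open Finset Filter

namespace GP

open Pool.Agent.LibLG5

/-- the sieve level -/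
private theorem P1_level (Q : ℕ) (hQ : 1 ≤ Q) (P : ℕ → Prop) (hP : ∀ᶠ z : ℕ in atTop, P z) :
    ∀ᶠ x : ℕ in atTop, ∃ z : ℕ, P z ∧ 4 ≤ z ∧ z ^ Q ≤ x ∧
      Real.log x ≤ 2 * Q * Real.log z := by
  obtain ⟨N, hN⟩ := eventually_atTop.1 hP
  filter_upwards [eventually_ge_atTop ((max N 4) ^ Q), eventually_ge_atTop 1] with x hx hx1
  have h1 : max N 4 ≤ x := (Nat.le_self_pow (by omega) _).trans hx
  have h2 : max N 4 ≤ Nat.findGreatest (fun z => z ^ Q ≤ x) x :=
    Nat.le_findGreatest h1 hx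
  have h3 : (Nat.findGreatest (fun z => z ^ Q ≤ x) x) ^ Q ≤ x :=
    Nat.findGreatest_spec (P := fun z => z ^ Q ≤ x) h1 hx
  set z := Nat.findGreatest (fun z => z ^ Q ≤ x) x with hz
  have hz4 : 4 ≤ z := (le_max_right _ _).trans h2
  have h4 : x < (z + 1) ^ Q := by
    by_cases h : z + 1 ≤ x
    · exact not_le.1 (Nat.findGreatest_is_greatest (P := fun z => z ^ Q ≤ x) (n := x)
        (by rw [← hz]; omega) h)
    · exact lt_of_lt_of_le (not_le.1 h) (Nat.le_self_pow (by omega) _)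
  have h5 : x ≤ z ^ (2 * Q) := by
    refine h4.le.trans ?_
    rw [pow_mul]
    exact Nat.pow_le_pow_left (by nlinarith) Q
  refine ⟨z, hN z ((le_max_left _ _).trans h2), hz4, h3, ?_⟩
  have h6 : (x : ℝ) ≤ (z : ℝ) ^ (2 * Q) := by exact_mod_cast h5
  have h7 := Real.log_le_log (by exact_mod_cast hx1) h6
  rw [Real.log_pow] at h7
  push_cast at h7
  exact h7

private theorem P1_coprime {w z p : ℕ} (hw : w ≤ z) (hz : z < p) (hp : p.Prime) :
    Nat.Coprime p (primorial w) := by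
  rw [Nat.Prime.coprime_iff_not_dvd hp, hp.dvd_primorial_iff]
  omega

/-- the pairs, sorted into residue classes -/
private theorem P1_cover (x z w A B M : ℕ) (hw : w ≤ z) (hM : x / primorial w < M) :
    ((range x) ×ˢ (Ioc A (A + B))).filter (fun v => v.1.Prime ∧ (v.1 + v.2).Prime) ⊆
      (range (z + 1)) ×ˢ (Ioc A (A + B)) ∪
      (((range (primorial w)) ×ˢ (Ioc A (A + B))).filter fun v =>
        Nat.Coprime v.1 (primorial w) ∧ Nat.Coprime (v.1 + v.2) (primorial w)).biUnion fun v =>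
          ((range M).filter fun m => z < v.1 + primorial w * m ∧
            (v.1 + primorial w * m).Prime ∧ (v.1 + primorial w * m + v.2).Prime).image
              fun m => (v.1 + primorial w * m, v.2) := by
  intro v hv
  rw [mem_filter, mem_product, mem_range] at hv
  obtain ⟨⟨hvx, hvd⟩, hp1, hp2⟩ := hv
  rw [mem_union]
  by_cases hz : v.1 ≤ z
  · left
    rw [mem_product, mem_range]
    exact ⟨by omega, hvd⟩
  right
  rw [not_le] at hz
  set W := primorial w with hW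
  have hWpos : 0 < W := primorial_pos w
  have e1 : v.1 % W + W * (v.1 / W) = v.1 := Nat.mod_add_div v.1 W
  have c1 : Nat.Coprime (v.1 % W) W := by
    have h := P1_coprime hw hz hp1
    rw [← hW, ← e1, Nat.coprime_add_mul_left_left] at h
    exact h
  have c2 : Nat.Coprime (v.1 % W + v.2) W := by
    have h := P1_coprime hw (show z < v.1 + v.2 by omega) hp2
    have e2 : v.1 + v.2 = (v.1 % W + v.2) + W * (v.1 / W) := by omega
    rw [← hW, e2, Nat.coprime_add_mul_left_left] at h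
    exact h
  rw [mem_biUnion]
  refine ⟨(v.1 % W, v.2), ?_, ?_⟩
  · rw [mem_filter, mem_product, mem_range]
    exact ⟨⟨Nat.mod_lt _ hWpos, hvd⟩, c1, c2⟩
  · rw [mem_image]
    refine ⟨v.1 / W, ?_, ?_⟩
    · rw [mem_filter, mem_range]
      simp only [e1]
      exact ⟨(Nat.div_le_div_right hvx.le).trans_lt hM, hz, hp1, hp2⟩
    · simp only [e1]

private theorem P1_core {E Q x z A B : ℕ} (hQ : Q = 2 * E + 8)
    (hpa : ∀ c M d : ℕ, 1 ≤ d → (d : ℝ) ≤ Real.log z ^ 2 →
      (((range M).filter fun m => z < c + primorial (wf z) * m ∧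
        (c + primorial (wf z) * m).Prime ∧ (c + primorial (wf z) * m + d).Prime).card : ℝ) ≤
        4 * M * V1 (wf z) z ^ 2 + (z : ℝ) ^ E)
    (hz4 : 4 ≤ z) (hzx : z ^ Q ≤ x) (hlog : Real.log x ≤ 2 * Q * Real.log z)
    (hlog0 : 0 < Real.log x) (hWz : primorial (wf z) ≤ z) (hwz : wf z ≤ z)
    (hWB : primorial (wf z) ≤ B) (hd : (A + B : ℝ) ≤ Real.log z ^ 2)
    (hl4 : Real.log x ^ 4 ≤ x) :
    ((((range x) ×ˢ (Ioc A (A + B))).filter fun v => v.1.Prime ∧ (v.1 + v.2).Prime).card : ℝ) ≤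
      (64 * (Q : ℝ) ^ 2 + 1) * B * x / Real.log x ^ 2 := by
  set W := primorial (wf z) with hW
  have hWpos : 0 < W := primorial_pos _
  have hWr : (0 : ℝ) < W := by exact_mod_cast hWpos
  have hzr : (4 : ℝ) ≤ z := by exact_mod_cast hz4
  have hz0 : (0 : ℝ) < z := by linarith
  have hz1 : (1 : ℝ) ≤ z := by linarith
  have hBr : (0 : ℝ) ≤ B := Nat.cast_nonneg B
  have hxr : (0 : ℝ) ≤ x := Nat.cast_nonneg x
  have hLz : 0 < Real.log z := Real.log_pos (by linarith)
  have hzx' : z ≤ x := (Nat.le_self_pow (by omega) _).trans hzx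
  set M := x / W + 1 with hM
  set CP := ((range W) ×ˢ (Ioc A (A + B))).filter fun v =>
    Nat.Coprime v.1 W ∧ Nat.Coprime (v.1 + v.2) W with hCP
  set T := 4 * (M : ℝ) * V1 (wf z) z ^ 2 + (z : ℝ) ^ E with hT
  -- counting
  have h1 : ((((range x) ×ˢ (Ioc A (A + B))).filter fun v =>
      v.1.Prime ∧ (v.1 + v.2).Prime).card : ℝ) ≤ ((z : ℝ) + 1) * B + CP.card * T := by
    have h2 := card_le_card (P1_cover x z (wf z) A B M hwz (Nat.lt_succ_self _))
    have h3 := h2.trans (card_union_le _ _)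
    have h4 : (((range (z + 1)) ×ˢ (Ioc A (A + B))).card : ℝ) = ((z : ℝ) + 1) * B := by
      rw [card_product, card_range, Nat.card_Ioc]
      push_cast
      rw [show A + B - A = B by omega]
    have h5 : (((CP.biUnion fun v =>
          ((range M).filter fun m => z < v.1 + primorial (wf z) * m ∧
            (v.1 + primorial (wf z) * m).Prime ∧
            (v.1 + primorial (wf z) * m + v.2).Prime).image
              fun m => (v.1 + primorial (wf z) * m, v.2)).card : ℕ) : ℝ) ≤ CP.card * T := by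
      have h6 : (((CP.biUnion fun v =>
          ((range M).filter fun m => z < v.1 + primorial (wf z) * m ∧
            (v.1 + primorial (wf z) * m).Prime ∧
            (v.1 + primorial (wf z) * m + v.2).Prime).image
              fun m => (v.1 + primorial (wf z) * m, v.2)).card : ℕ) : ℝ) ≤
          ∑ v ∈ CP, ((((range M).filter fun m => z < v.1 + primorial (wf z) * m ∧
            (v.1 + primorial (wf z) * m).Prime ∧
            (v.1 + primorial (wf z) * m + v.2).Prime).image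
              fun m => (v.1 + primorial (wf z) * m, v.2)).card : ℝ) := by
        exact_mod_cast card_biUnion_le
      refine h6.trans ?_
      rw [← nsmul_eq_mul, ← sum_const]
      refine sum_le_sum fun v hv => ?_
      rw [hCP, mem_filter, mem_product, mem_Ioc] at hv
      refine le_trans (by exact_mod_cast card_image_le) (hpa v.1 M v.2 (by omega) ?_)
      refine le_trans ?_ hd
      have h7 : v.2 ≤ A + B := hv.1.2.2
      exact_mod_cast h7
    calc _ ≤ (((((range (z + 1)) ×ˢ (Ioc A (A + B))).card + (CP.biUnion fun v =>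
          ((range M).filter fun m => z < v.1 + primorial (wf z) * m ∧
            (v.1 + primorial (wf z) * m).Prime ∧
            (v.1 + primorial (wf z) * m + v.2).Prime).image
              fun m => (v.1 + primorial (wf z) * m, v.2)).card : ℕ)) : ℝ) := by
          exact_mod_cast h3
      _ ≤ _ := by
          rw [Nat.cast_add, h4]
          linarith [h5]
  have h8 : (CP.card : ℝ) ≤ 2 * B * ((W.totient : ℝ)) ^ 2 / W := coprime_pairs W A B hWpos hWB
  -- arithmetic
  have hφ0 : (0 : ℝ) ≤ W.totient := Nat.cast_nonneg _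
  have hφW : (W.totient : ℝ) ≤ W := by exact_mod_cast Nat.totient_le W
  have hV0 : 0 < V1 (wf z) z := V1_pos _ _
  have hT0 : 0 ≤ T := by positivity
  have hMr : (M : ℝ) ≤ 2 * x / W := by
    have h9 : (M : ℝ) = ((x / W : ℕ) : ℝ) + 1 := by
      rw [hM]
      push_cast
      ring
    have h10 : ((x / W : ℕ) : ℝ) ≤ (x : ℝ) / W := Nat.cast_div_le
    have h11 : (1 : ℝ) ≤ (x : ℝ) / W := by
      rw [one_le_div hWr]
      exact_mod_cast hWz.trans hzx'
    have h12 : 2 * (x : ℝ) / W = (x : ℝ) / W + (x : ℝ) / W := by ring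
    rw [h9, h12]
    linarith
  have hu : (W.totient : ℝ) / W * V1 (wf z) z ≤ 2 * Q / Real.log x := by
    refine (NT_V (by omega) hwz).trans ?_
    rw [div_le_div_iff₀ hLz hlog0, one_mul]
    exact hlog
  have hu0 : 0 ≤ (W.totient : ℝ) / W * V1 (wf z) z := by positivity
  have hmain : 2 * B * ((W.totient : ℝ)) ^ 2 / W * (4 * (M : ℝ) * V1 (wf z) z ^ 2) ≤
      64 * (Q : ℝ) ^ 2 * B * x / Real.log x ^ 2 := by
    calc 2 * B * ((W.totient : ℝ)) ^ 2 / W * (4 * (M : ℝ) * V1 (wf z) z ^ 2)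
        ≤ 2 * B * ((W.totient : ℝ)) ^ 2 / W * (4 * (2 * x / W) * V1 (wf z) z ^ 2) := by gcongr
      _ = 16 * B * x * ((W.totient : ℝ) / W * V1 (wf z) z) ^ 2 := by
          field_simp
          ring
      _ ≤ 16 * B * x * (2 * Q / Real.log x) ^ 2 := by gcongr
      _ = 64 * (Q : ℝ) ^ 2 * B * x / Real.log x ^ 2 := by ring
  have hy : (z : ℝ) ^ (E + 4) ≤ x / Real.log x ^ 2 := by
    rw [le_div_iff₀ (by positivity)]
    have h13 : ((z : ℝ) ^ (E + 4) * Real.log x ^ 2) ^ 2 ≤ (x : ℝ) ^ 2 := by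
      have h14 : ((z : ℝ) ^ (E + 4) * Real.log x ^ 2) ^ 2 =
          (z : ℝ) ^ Q * Real.log x ^ 4 := by
        rw [hQ]
        ring
      have h15 : (z : ℝ) ^ Q ≤ x := by exact_mod_cast hzx
      rw [h14, pow_two]
      exact mul_le_mul h15 hl4 (by positivity) hxr
    exact (pow_le_pow_iff_left₀ (by positivity) hxr (by norm_num)).1 h13
  have hrest : ((z : ℝ) + 1) * B + 2 * B * ((W.totient : ℝ)) ^ 2 / W * (z : ℝ) ^ E ≤
      B * (x / Real.log x ^ 2) := by
    have h16 : ((W.totient : ℝ)) ^ 2 / W ≤ z := by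
      rw [div_le_iff₀ hWr]
      have h17 : (W.totient : ℝ) ^ 2 ≤ (W : ℝ) * W := by
        rw [pow_two]
        exact mul_le_mul hφW hφW hφ0 hWr.le
      have h18 : (W : ℝ) ≤ z := by exact_mod_cast hWz
      exact h17.trans (mul_le_mul_of_nonneg_right h18 hWr.le)
    have h19 : (z : ℝ) ≤ (z : ℝ) ^ (E + 1) := le_self_pow₀ hz1 (by omega)
    have h20 : 4 * (z : ℝ) ^ (E + 1) ≤ (z : ℝ) ^ (E + 4) := by
      have h21 : (z : ℝ) ^ (E + 4) = z ^ 3 * (z : ℝ) ^ (E + 1) := by ring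
      rw [h21]
      refine mul_le_mul_of_nonneg_right ?_ (by positivity)
      nlinarith [mul_self_nonneg ((z : ℝ) - 4)]
    have h22 : 2 * B * ((W.totient : ℝ)) ^ 2 / W * (z : ℝ) ^ E ≤ 2 * B * (z : ℝ) ^ (E + 1) := by
      calc 2 * B * ((W.totient : ℝ)) ^ 2 / W * (z : ℝ) ^ E
          = 2 * B * (((W.totient : ℝ)) ^ 2 / W) * (z : ℝ) ^ E := by ring
        _ ≤ 2 * B * z * (z : ℝ) ^ E := by gcongr
        _ = 2 * B * (z : ℝ) ^ (E + 1) := by ring
    have h23 : ((z : ℝ) + 1) * B ≤ 2 * B * (z : ℝ) ^ (E + 1) := by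
      have h24 : (z : ℝ) + 1 ≤ 2 * (z : ℝ) ^ (E + 1) := by linarith
      calc ((z : ℝ) + 1) * B ≤ (2 * (z : ℝ) ^ (E + 1)) * B :=
            mul_le_mul_of_nonneg_right h24 hBr
        _ = 2 * B * (z : ℝ) ^ (E + 1) := by ring
    calc ((z : ℝ) + 1) * B + 2 * B * ((W.totient : ℝ)) ^ 2 / W * (z : ℝ) ^ E
        ≤ 2 * B * (z : ℝ) ^ (E + 1) + 2 * B * (z : ℝ) ^ (E + 1) := add_le_add h23 h22
      _ = B * (4 * (z : ℝ) ^ (E + 1)) := by ring
      _ ≤ B * (x / Real.log x ^ 2) := mul_le_mul_of_nonneg_left (h20.trans hy) hBr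
  calc ((((range x) ×ˢ (Ioc A (A + B))).filter fun v =>
      v.1.Prime ∧ (v.1 + v.2).Prime).card : ℝ) ≤ ((z : ℝ) + 1) * B + CP.card * T := h1
    _ ≤ ((z : ℝ) + 1) * B + 2 * B * ((W.totient : ℝ)) ^ 2 / W * T := by gcongr
    _ = (((z : ℝ) + 1) * B + 2 * B * ((W.totient : ℝ)) ^ 2 / W * (z : ℝ) ^ E) +
          2 * B * ((W.totient : ℝ)) ^ 2 / W * (4 * (M : ℝ) * V1 (wf z) z ^ 2) := by
        rw [hT]
        ring
    _ ≤ B * (x / Real.log x ^ 2) + 64 * (Q : ℝ) ^ 2 * B * x / Real.log x ^ 2 :=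
        add_le_add hrest hmain
    _ = (64 * (Q : ℝ) ^ 2 + 1) * B * x / Real.log x ^ 2 := by ring

/-- the size of the primorial -/
private theorem P1_W {z : ℕ} (hz : 4 ≤ z) : primorial (wf z) ≤ z ∧ wf z ≤ z ∧
    (primorial (wf z) : ℝ) ^ 2 ≤ 2 * Real.log z := by
  have h1 := primorial_wf_le hz
  have hl2 : (1 / 2 : ℝ) ≤ Real.log 2 := by
    have := Real.log_two_gt_d9
    linarith
  have hz1 : (1 : ℝ) ≤ z := by
    have : (4 : ℝ) ≤ z := by exact_mod_cast hz
    linarith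
  have hLz : 0 ≤ Real.log z := Real.log_nonneg hz1
  have h2 : Real.log z / Real.log 2 ≤ 2 * Real.log z := by
    rw [div_le_iff₀ (by linarith)]
    nlinarith
  have h3 : Real.log z / Real.log 2 ≤ z := by
    rw [div_le_iff₀ (by linarith)]
    have h4 : (z : ℝ) ≤ 2 ^ z := by exact_mod_cast (Nat.lt_two_pow_self (n := z)).le
    have h5 := Real.log_le_log (by linarith) h4
    rwa [Real.log_pow] at h5
  refine ⟨?_, ?_, h1.trans h2⟩
  · have h6 : (1 : ℝ) ≤ primorial (wf z) := by exact_mod_cast primorial_pos (wf z)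
    have h7 : (primorial (wf z) : ℝ) ≤ (primorial (wf z) : ℝ) ^ 2 := by nlinarith
    exact_mod_cast h7.trans (h1.trans h3)
  · unfold wf
    exact (Nat.div_le_self _ _).trans ((Nat.log_le_self _ _).trans (Nat.log_le_self _ _))

theorem pairs : Pairs := by
  obtain ⟨E, hE⟩ := pair_ap
  refine ⟨64 * ((2 * E + 8 : ℕ) : ℝ) ^ 2 + 1, by positivity, fun ε K hε => ?_⟩
  set Q := 2 * E + 8 with hQ
  have hlog : Tendsto (fun x : ℕ => Real.log x) atTop atTop :=
    Real.tendsto_log_atTop.comp tendsto_natCast_atTop_atTop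
  have hev := (((P1_level Q (by omega) _ hE).and (hlog.eventually_ge_atTop 1)).and
    (hlog.eventually_ge_atTop (2 / ε ^ 2))).and ((hlog.eventually_ge_atTop (4 * Q ^ 2 * K)).and
      (log_pow_le 1 4 le_rfl 1))
  obtain ⟨x₀, hx₀⟩ := eventually_atTop.1 hev
  refine ⟨x₀, fun x hx A B hB hAB => ?_⟩
  obtain ⟨⟨⟨⟨z, hz, hz4, hzx, hzl⟩, hl1⟩, hl2⟩, hl3, hl4⟩ := hx₀ x hx
  rw [one_mul, pow_one] at hl4
  obtain ⟨hW1, hW2, hW3⟩ := P1_W hz4
  have hzr : (4 : ℝ) ≤ z := by exact_mod_cast hz4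
  have hlz : Real.log z ≤ Real.log x := by
    have h : z ≤ x := (Nat.le_self_pow (by omega) _).trans hzx
    exact Real.log_le_log (by linarith) (by exact_mod_cast h)
  have hlz0 : 0 < Real.log z := Real.log_pos (by linarith)
  refine P1_core hQ hz hz4 hzx hzl (by linarith) hW1 hW2 ?_ ?_ hl4
  · have h1 : (primorial (wf z) : ℝ) ^ 2 ≤ (B : ℝ) ^ 2 := by
      have h2 : 2 * Real.log x ≤ (ε * Real.log x) ^ 2 := by
        rw [div_le_iff₀ (by positivity)] at hl2
        nlinarith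
      have h3 : (ε * Real.log x) ^ 2 ≤ (B : ℝ) ^ 2 :=
        pow_le_pow_left₀ (by positivity) hB 2
      linarith
    have h4 := (pow_le_pow_iff_left₀ (Nat.cast_nonneg _) (Nat.cast_nonneg _) (by norm_num)).1 h1
    exact_mod_cast h4
  · refine hAB.trans ?_
    have hQ0 : (0 : ℝ) < Q := by
      have : 0 < Q := by omega
      exact_mod_cast this
    have h5 : Real.log x ^ 2 ≤ (2 * Q * Real.log z) ^ 2 :=
      pow_le_pow_left₀ (by linarith) hzl 2
    have h6 : 4 * (Q : ℝ) ^ 2 * (K * Real.log x) ≤ 4 * (Q : ℝ) ^ 2 * Real.log z ^ 2 := by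
      calc 4 * (Q : ℝ) ^ 2 * (K * Real.log x) = (4 * (Q : ℝ) ^ 2 * K) * Real.log x := by ring
        _ ≤ Real.log x * Real.log x := mul_le_mul_of_nonneg_right hl3 (by linarith)
        _ = Real.log x ^ 2 := by ring
        _ ≤ (2 * Q * Real.log z) ^ 2 := h5
        _ = 4 * (Q : ℝ) ^ 2 * Real.log z ^ 2 := by ring
    exact le_of_mul_le_mul_left h6 (by positivity)

end GP
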