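import Pool.Agent.LibGP53.Defs
import Pool.Agent.LibLG5.SS

/-! Row P1a (30 min): pairs of primes in one class. From `lemmaS` take `C`; choose an even `b0` with `eps0 C 2 b0 ≤ 1` (the factorial
wins: `FloorSemiring.tendsto_pow_div_factorial_atTop` or similar), `E = 2 * b0 + 6`. `lemmaS` with `k = 2`, `B = {0, d}`, `T = ∅`:
`∑_{m<M} rho (wf z) z {0,d} (c + W m) ≤ 2 M VV {0,d} + z^E`. `VV_le_pow` with `K = 2`: `VV {0,d} ≤ 2 V1 ^ 2` (card `= 2` as `d ≥ 1`). If `n = c + W m > z` is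
prime and `n + d` is prime then no prime `p ≤ z` divides `n + 0` or `n + d`: `rho = 1`; else `rho ≥ 0`. -/

open Finset Filter

namespace GP

open Pool.Agent.LibLG5

private theorem P1a_eps (C : ℝ) : ∃ b0 : ℕ, Even b0 ∧ eps0 C 2 b0 ≤ 1 := by
  have h1 : Tendsto (fun n : ℕ => (C * (2 : ℕ)) ^ n / (n.factorial : ℝ)) atTop (nhds 0) :=
    FloorSemiring.tendsto_pow_div_factorial_atTop _
  have h2 : Tendsto (fun n : ℕ => C * Real.exp (C * (2 : ℕ)) *
      ((C * (2 : ℕ)) ^ n / (n.factorial : ℝ))) atTop (nhds 0) := by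
    have h := h1.const_mul (C * Real.exp (C * (2 : ℕ)))
    rwa [mul_zero] at h
  have h3 : ∀ᶠ n : ℕ in atTop, C * Real.exp (C * (2 : ℕ)) *
      ((C * (2 : ℕ)) ^ n / (n.factorial : ℝ)) < 1 := h2.eventually_lt_const (by norm_num)
  obtain ⟨N, hN⟩ := eventually_atTop.1 h3
  refine ⟨2 * N, even_two_mul N, ?_⟩
  have h4 := hN (2 * N + 1) (by omega)
  have h5 : eps0 C 2 (2 * N) = C * Real.exp (C * (2 : ℕ)) *
      ((C * (2 : ℕ)) ^ (2 * N + 1) / ((2 * N + 1).factorial : ℝ)) := by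
    unfold eps0
    ring
  rw [h5]
  exact h4.le

private theorem P1a_rho {w z : ℕ} {B : Finset ℕ} {n : ℕ} : 0 ≤ rho w z B n := by
  unfold rho
  split_ifs <;> norm_num

private theorem P1a_rho_one {w z d n : ℕ} (hz : z < n) (hn : n.Prime) (hd : (n + d).Prime) :
    rho w z {0, d} n = 1 := by
  unfold rho
  rw [if_pos]
  intro a ha p hp hdvd
  rw [Pool.Agent.LibRG87.PP, mem_filter, mem_Ioc] at hp
  rw [mem_insert, mem_singleton] at ha
  rcases ha with rfl | rfl
  · rw [add_zero, Nat.dvd_prime hn] at hdvd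
    rcases hdvd with h | h
    · exact hp.2.one_lt.ne' h
    · omega
  · rw [Nat.dvd_prime hd] at hdvd
    rcases hdvd with h | h
    · exact hp.2.one_lt.ne' h
    · omega

theorem pair_ap : ∃ E : ℕ, ∀ᶠ z : ℕ in atTop, ∀ c M d : ℕ, 1 ≤ d → (d : ℝ) ≤ Real.log z ^ 2 →
    (((range M).filter fun m => z < c + primorial (wf z) * m ∧ (c + primorial (wf z) * m).Prime ∧
      (c + primorial (wf z) * m + d).Prime).card : ℝ) ≤
      4 * M * V1 (wf z) z ^ 2 + (z : ℝ) ^ E := by
  obtain ⟨C, _, hS⟩ := lemmaS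
  obtain ⟨b0, hb0, heps⟩ := P1a_eps (C : ℝ)
  refine ⟨2 * b0 + 6, ?_⟩
  filter_upwards [hS 2 b0 (by norm_num) hb0 heps, VV_le_pow 2] with z hz hV c M d hd hd'
  have h1 := hz c M {0, d} ∅ (fun _ _ => 0) card_le_two (by simp) (by simp)
  simp only [prod_empty, mul_one] at h1
  have hc : ({0, d} : Finset ℕ).card = 2 := card_pair (by omega)
  have h2 := hV {0, d} hc.le (by
    intro a ha
    rw [mem_insert, mem_singleton] at ha
    rcases ha with rfl | rfl
    · rw [Nat.cast_zero]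
      positivity
    · exact hd')
  rw [hc] at h2
  have h3 := (abs_le.1 h1).2
  have hVn : 0 ≤ VV (wf z) z {0, d} := VV_nonneg _ _ _
  have hM : (0 : ℝ) ≤ M := Nat.cast_nonneg M
  have h4 : (((range M).filter fun m => z < c + primorial (wf z) * m ∧
      (c + primorial (wf z) * m).Prime ∧ (c + primorial (wf z) * m + d).Prime).card : ℝ) ≤
      ∑ m ∈ range M, rho (wf z) z {0, d} (c + primorial (wf z) * m) := by
    rw [card_eq_sum_ones, Nat.cast_sum]
    refine le_trans (sum_le_sum (g := fun m => rho (wf z) z {0, d}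
      (c + primorial (wf z) * m)) ?_) (sum_le_sum_of_subset_of_nonneg (filter_subset _ _)
        fun _ _ _ => P1a_rho)
    intro m hm
    rw [mem_filter] at hm
    rw [P1a_rho_one hm.2.1 hm.2.2.1 hm.2.2.2, Nat.cast_one]
  have h5 : eps0 C 2 b0 * M * VV (wf z) z {0, d} ≤ M * VV (wf z) z {0, d} := by
    rw [mul_assoc]
    exact mul_le_of_le_one_left (mul_nonneg hM hVn) heps
  have h6 : (M : ℝ) * VV (wf z) z {0, d} ≤ M * (2 * V1 (wf z) z ^ 2) :=
    mul_le_mul_of_nonneg_left h2 hM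
  linarith

end GP
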