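import Pool.Agent.LibGP53.Defs

/-! Row P2 (50 min): second moment of the number of primes. `L = log x`, `T = ⌊κ L⌋₊`. `cnt n (κ L)` is the number of primes in `(n, n+T]`
(`⌊n + κ L⌋₊ = n + T`; `Nat.primeCounting` difference = card of the primes in `Ioc n (n+T)`: `Nat.primeCounting_eq_card...` or
`Nat.count_eq_card_filter_range`). `cnt ^ 2 = cnt + 2 #{p < q}`. `∑_{n<x} cnt ≤ T * #{p prime, p < x + T + 1}` (each prime is in the window of
at most `T` of the `n`), and `#{p ≤ 2x} ≤ 8 x / L` (Chebyshev, in Mathlib: `Chebyshev.pi_le_log4_mul_div` or similar; LibUD63.D3 `pi_le4` may be copied with its proof).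
Pairs: each pair `(p, q)`, `q = p + d`, `1 ≤ d ≤ T`, is in the window of at most `T` of the `n`: `∑ ≤ T * (C T (2x) / log (2x) ^ 2)` by `Pairs` with
`A = 0, B = T, ε = κ/4, K = 2κ+1`, at `2 x`. So the total is `≤ C' (κ + κ^2) x`. `C'` must not depend on `κ`. -/

open Finset

namespace GP

namespace P2aux

lemma cnt_eq (n : ℕ) (t : ℝ) (ht : 0 ≤ t) :
    cnt n t = ((Ioc n (n + ⌊t⌋₊)).filter Nat.Prime).card := by
  unfold cnt
  have h1 : ⌊(n : ℝ) + t⌋₊ = n + ⌊t⌋₊ := by
    rw [add_comm (n : ℝ) t, Nat.floor_add_natCast ht, add_comm]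
  rw [h1]
  set T := ⌊t⌋₊
  have h2 : Nat.primeCounting (n + T) = Nat.primeCounting n
      + ((Ioc n (n + T)).filter Nat.Prime).card := by
    rw [Nat.primeCounting, Nat.primeCounting', Nat.primeCounting, Nat.primeCounting',
      Nat.count_eq_card_filter_range, Nat.count_eq_card_filter_range]
    rw [← Finset.card_union_of_disjoint]
    · congr 1
      ext p
      simp only [mem_filter, mem_range, mem_union, mem_Ioc]
      constructor
      · rintro ⟨h, hp⟩
        by_cases h' : p < n + 1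
        · exact Or.inl ⟨h', hp⟩
        · exact Or.inr ⟨⟨by omega, by omega⟩, hp⟩
      · rintro (⟨h, hp⟩ | ⟨h, hp⟩)
        · exact ⟨by omega, hp⟩
        · exact ⟨by omega, hp⟩
    · rw [Finset.disjoint_left]
      intro p hp hq
      simp only [mem_filter, mem_range, mem_Ioc] at hp hq
      omega
  omega

lemma sq_card (S : Finset ℕ) :
    S.card ^ 2 = S.card + 2 * ∑ p ∈ S, (S.filter fun q => p < q).card := by
  have h0 : S.card ^ 2 = ∑ p ∈ S, ∑ q ∈ S, 1 := by
    simp [sq]
  have h1 : ∑ p ∈ S, ∑ q ∈ S, 1 = ∑ p ∈ S, ∑ q ∈ S,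
      ((if p = q then 1 else 0) + (if p < q then 1 else 0) + (if q < p then 1 else 0)) := by
    refine Finset.sum_congr rfl fun p _ => Finset.sum_congr rfl fun q _ => ?_
    rcases lt_trichotomy p q with h | h | h
    · simp [h, h.ne, h.not_gt]
    · simp [h]
    · simp [h, h.ne', h.not_gt]
  rw [h0, h1]
  simp only [Finset.sum_add_distrib]
  have h2 : ∑ p ∈ S, ∑ q ∈ S, (if p = q then 1 else 0) = S.card := by
    simp
  have h3 : ∑ p ∈ S, ∑ q ∈ S, (if q < p then 1 else 0)
      = ∑ p ∈ S, ∑ q ∈ S, (if p < q then 1 else 0) := by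
    rw [Finset.sum_comm]
  rw [h2, h3]
  simp only [Finset.card_filter]
  ring

lemma inner (n T : ℕ) (p : ℕ) (hp : p ∈ (Ioc n (n + T)).filter Nat.Prime) :
    (((Ioc n (n + T)).filter Nat.Prime).filter fun q => p < q).card
      ≤ ((Ioc 0 T).filter fun d => (p + d).Prime).card := by
  refine Finset.card_le_card_of_injOn (fun q => q - p) ?_ ?_
  · intro q hq
    simp only [coe_filter, mem_filter, mem_Ioc, Set.mem_setOf_eq] at hp hq ⊢
    obtain ⟨⟨⟨h1, h2⟩, h3⟩, h4⟩ := hq
    obtain ⟨⟨h5, h6⟩, h7⟩ := hp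
    refine ⟨⟨by omega, by omega⟩, ?_⟩
    rw [show p + (q - p) = q by omega]
    exact h3
  · intro q hq r hr h
    simp only [coe_filter, mem_filter, mem_Ioc, Set.mem_setOf_eq] at hq hr
    simp only at h
    omega

lemma swap (x T : ℕ) (f : ℕ → ℕ) :
    ∑ n ∈ range x, ∑ p ∈ (Ioc n (n + T)).filter Nat.Prime, f p
      ≤ T * ∑ p ∈ (range (x + T)).filter Nat.Prime, f p := by
  have h1 : ∀ n ∈ range x, ∑ p ∈ (Ioc n (n + T)).filter Nat.Prime, f p
      = ∑ p ∈ (range (x + T)).filter Nat.Prime, (if n < p ∧ p ≤ n + T then f p else 0) := by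
    intro n hn
    rw [← Finset.sum_filter]
    refine Finset.sum_congr ?_ fun _ _ => rfl
    ext p
    simp only [mem_range] at hn
    simp only [mem_filter, mem_Ioc, mem_range]
    constructor
    · rintro ⟨⟨a, b⟩, c⟩
      exact ⟨⟨by omega, c⟩, a, b⟩
    · rintro ⟨⟨a, b⟩, c, d⟩
      exact ⟨⟨c, d⟩, b⟩
  rw [Finset.sum_congr rfl h1, Finset.sum_comm, Finset.mul_sum]
  refine Finset.sum_le_sum fun p _ => ?_
  rw [← Finset.sum_filter, Finset.sum_const, smul_eq_mul]
  refine Nat.mul_le_mul_right _ ?_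
  calc ((range x).filter fun n => n < p ∧ p ≤ n + T).card
      ≤ (Ico (p - T) p).card := by
        refine Finset.card_le_card ?_
        intro n hn
        simp only [mem_filter, mem_range, mem_Ico] at hn ⊢
        omega
    _ ≤ T := by
        rw [Nat.card_Ico]; omega

lemma total (x T : ℕ) (hT : T ≤ x) :
    ∑ n ∈ range x, (((Ioc n (n + T)).filter Nat.Prime).card) ^ 2
      ≤ T * ((range (2 * x)).filter Nat.Prime).card + 2 * (T *
        (((range (2 * x)) ×ˢ (Ioc 0 (0 + T))).filter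
          fun v => v.1.Prime ∧ (v.1 + v.2).Prime).card) := by
  have hR : (range (x + T)).filter Nat.Prime ⊆ (range (2 * x)).filter Nat.Prime := by
    refine Finset.filter_subset_filter _ ?_
    intro p hp
    simp only [mem_range] at hp ⊢
    omega
  have h1 : ∑ n ∈ range x, (((Ioc n (n + T)).filter Nat.Prime).card) ^ 2
      ≤ ∑ n ∈ range x, (∑ p ∈ (Ioc n (n + T)).filter Nat.Prime, 1
        + 2 * ∑ p ∈ (Ioc n (n + T)).filter Nat.Prime,
          ((Ioc 0 T).filter fun d => (p + d).Prime).card) := by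
    refine Finset.sum_le_sum fun n _ => ?_
    rw [sq_card]
    have := Finset.sum_le_sum (fun p hp => inner n T p hp)
    simp only [Finset.sum_const, smul_eq_mul, mul_one]
    omega
  refine h1.trans ?_
  rw [Finset.sum_add_distrib, ← Finset.mul_sum]
  have h2 := swap x T (fun _ => 1)
  have h3 := swap x T (fun p => ((Ioc 0 T).filter fun d => (p + d).Prime).card)
  have h4 : ∑ p ∈ (range (x + T)).filter Nat.Prime, 1
      ≤ ((range (2 * x)).filter Nat.Prime).card := by
    rw [Finset.card_eq_sum_ones]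
    exact Finset.sum_le_sum_of_subset hR
  have h5 : ∑ p ∈ (range (x + T)).filter Nat.Prime,
      ((Ioc 0 T).filter fun d => (p + d).Prime).card
      ≤ (((range (2 * x)) ×ˢ (Ioc 0 (0 + T))).filter
          fun v => v.1.Prime ∧ (v.1 + v.2).Prime).card := by
    refine (Finset.sum_le_sum_of_subset hR).trans (le_of_eq ?_)
    rw [Finset.card_filter, Finset.sum_product, Finset.sum_filter, zero_add]
    refine Finset.sum_congr rfl fun p _ => ?_
    by_cases hp : p.Prime
    · simp only [hp, true_and, if_true, Finset.card_filter]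
    · simp only [hp, false_and, if_false, Finset.sum_const_zero]
  have h6 : T * ∑ p ∈ (range (x + T)).filter Nat.Prime, 1
      ≤ T * ((range (2 * x)).filter Nat.Prime).card := Nat.mul_le_mul_left _ h4
  have h7 := Nat.mul_le_mul_left T h5
  omega

lemma prime_card (x : ℕ) : ((range x).filter Nat.Prime).card ≤ Nat.primeCounting x := by
  rw [Nat.primeCounting, Nat.primeCounting', Nat.count_eq_card_filter_range]
  refine Finset.card_le_card (Finset.filter_subset_filter _ ?_)
  exact Finset.range_mono (Nat.le_succ x)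

end P2aux

open P2aux in
theorem second (hP : Pairs) : ∃ C : ℝ, 0 < C ∧ ∀ κ : ℝ, 0 < κ → ∃ x₀ : ℕ, ∀ x : ℕ, x₀ ≤ x →
    ∑ n ∈ range x, (cnt n (κ * Real.log x) : ℝ) ^ 2 ≤ C * (κ + κ ^ 2) * x := by
  obtain ⟨C, hC, hP⟩ := hP
  refine ⟨6 + 4 * C, by positivity, fun κ hκ => ?_⟩
  obtain ⟨x₁, hx₁⟩ := hP (κ / 4) κ (by positivity)
  -- Chebyshev
  have hch := Chebyshev.eventually_primeCounting_le (ε := 1) one_pos
  obtain ⟨y₀, hy₀⟩ := Filter.eventually_atTop.mp hch
  -- log conditions
  have hlog : Filter.Tendsto (fun x : ℕ => Real.log (x : ℝ)) Filter.atTop Filter.atTop :=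
    Real.tendsto_log_atTop.comp tendsto_natCast_atTop_atTop
  have hlog2 : ∀ᶠ x : ℕ in Filter.atTop, κ * Real.log (x : ℝ) ≤ x := by
    have h := (Real.isLittleO_log_id_atTop.bound (show (0 : ℝ) < 1 / κ by positivity))
    have h' := tendsto_natCast_atTop_atTop.eventually h
    filter_upwards [h', Filter.eventually_ge_atTop 1] with x hx h1
    have h1' : (1 : ℝ) ≤ x := by exact_mod_cast h1
    rw [Real.norm_of_nonneg (Real.log_nonneg h1'), id, Real.norm_of_nonneg (by linarith)] at hx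
    calc κ * Real.log x ≤ κ * (1 / κ * x) := by gcongr
      _ = x := by field_simp
  obtain ⟨x₂, hx₂⟩ := Filter.eventually_atTop.mp
    ((hlog.eventually_ge_atTop (2 / κ)).and ((hlog.eventually_ge_atTop 1).and hlog2))
  refine ⟨max (max x₁ x₂) (max ⌈y₀⌉₊ 2), fun x hx => ?_⟩
  have hxx₁ : x₁ ≤ x := le_trans (le_trans (le_max_left _ _) (le_max_left _ _)) hx
  have hxx₂ : x₂ ≤ x := le_trans (le_trans (le_max_right _ _) (le_max_left _ _)) hx
  have hxy : ⌈y₀⌉₊ ≤ x := le_trans (le_trans (le_max_left _ _) (le_max_right _ _)) hx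
  have hx2 : 2 ≤ x := le_trans (le_trans (le_max_right _ _) (le_max_right _ _)) hx
  obtain ⟨hL2, hL1, hLx⟩ := hx₂ x hxx₂
  set L := Real.log (x : ℝ) with hL
  have hLpos : 0 < L := by linarith
  set T := ⌊κ * L⌋₊ with hTdef
  have hκL : 0 ≤ κ * L := by positivity
  have hTle : (T : ℝ) ≤ κ * L := Nat.floor_le hκL
  have hTx : T ≤ x := by
    have : (T : ℝ) ≤ x := hTle.trans hLx
    exact_mod_cast this
  have hTge : κ * L / 2 ≤ T := by
    have h1 : κ * L < T + 1 := Nat.lt_floor_add_one _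
    have h2 : 2 ≤ κ * L := by
      rw [div_le_iff₀ hκ] at hL2
      linarith
    linarith
  have hxpos : (0 : ℝ) < x := by exact_mod_cast (by omega : 0 < x)
  -- log (2x)
  have hL2x : Real.log ((2 * x : ℕ) : ℝ) = Real.log 2 + L := by
    push_cast
    rw [Real.log_mul (by norm_num) hxpos.ne']
  have hlog2pos : 0 < Real.log 2 := Real.log_pos (by norm_num)
  have hlog2le : Real.log 2 ≤ L := by
    rw [hL]
    exact Real.log_le_log (by norm_num) (by exact_mod_cast hx2)
  have hge : L ≤ Real.log ((2 * x : ℕ) : ℝ) := by rw [hL2x]; linarith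
  have hle : Real.log ((2 * x : ℕ) : ℝ) ≤ 2 * L := by rw [hL2x]; linarith
  -- pairs
  have hpairs := hx₁ (2 * x) (by omega) 0 T
    (by calc κ / 4 * Real.log ((2 * x : ℕ) : ℝ) ≤ κ / 4 * (2 * L) := by gcongr
          _ = κ * L / 2 := by ring
          _ ≤ T := hTge)
    (by
      have : κ * L ≤ κ * Real.log ((2 * x : ℕ) : ℝ) := by gcongr
      push_cast at this ⊢
      linarith)
  set PC := (((range (2 * x)) ×ˢ (Ioc 0 (0 + T))).filter
          fun v => v.1.Prime ∧ (v.1 + v.2).Prime).card with hPC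
  have hPCle : (PC : ℝ) ≤ 2 * C * κ * x / L := by
    refine hpairs.trans ?_
    have h1 : C * (T : ℝ) * ((2 * x : ℕ) : ℝ) / Real.log ((2 * x : ℕ) : ℝ) ^ 2
        ≤ C * (κ * L) * (2 * x) / L ^ 2 := by
      push_cast at hge ⊢
      gcongr
    refine h1.trans (le_of_eq ?_)
    field_simp
  -- primes
  have hpr : (((range (2 * x)).filter Nat.Prime).card : ℝ) ≤ 6 * x / L := by
    have h1 : (((range (2 * x)).filter Nat.Prime).card : ℝ) ≤ (Nat.primeCounting (2 * x) : ℝ) := by
      exact_mod_cast prime_card (2 * x)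
    have h2 := hy₀ ((2 * x : ℕ) : ℝ) (by
      have : (⌈y₀⌉₊ : ℝ) ≤ x := by exact_mod_cast hxy
      have h3 := Nat.le_ceil y₀
      push_cast
      linarith)
    rw [Nat.floor_natCast] at h2
    refine h1.trans (h2.trans ?_)
    have h4 : Real.log 4 + 1 ≤ 3 := by
      have : Real.log 4 = 2 * Real.log 2 := by
        rw [show (4 : ℝ) = 2 ^ 2 by norm_num, Real.log_pow]; norm_num
      have := Real.log_two_lt_d9
      linarith
    calc (Real.log 4 + 1) * ((2 * x : ℕ) : ℝ) / Real.log ((2 * x : ℕ) : ℝ)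
        ≤ 3 * (2 * x) / L := by
          push_cast at hge ⊢
          gcongr
      _ = 6 * x / L := by ring
  -- total
  have htot := total x T hTx
  have hcnt : ∑ n ∈ range x, (cnt n (κ * L) : ℝ) ^ 2
      = ((∑ n ∈ range x, (((Ioc n (n + T)).filter Nat.Prime).card) ^ 2 : ℕ) : ℝ) := by
    push_cast
    refine Finset.sum_congr rfl fun n _ => ?_
    rw [cnt_eq n _ hκL]
  rw [hcnt]
  have htot' : ((∑ n ∈ range x, (((Ioc n (n + T)).filter Nat.Prime).card) ^ 2 : ℕ) : ℝ)
      ≤ T * (((range (2 * x)).filter Nat.Prime).card : ℝ) + 2 * (T * (PC : ℝ)) := by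
    exact_mod_cast htot
  refine htot'.trans ?_
  have hA : T * (((range (2 * x)).filter Nat.Prime).card : ℝ) ≤ κ * L * (6 * x / L) := by
    gcongr
  have hB : T * (PC : ℝ) ≤ κ * L * (2 * C * κ * x / L) := by
    gcongr
  have hA' : κ * L * (6 * x / L) = 6 * κ * x := by field_simp
  have hB' : κ * L * (2 * C * κ * x / L) = 2 * C * κ ^ 2 * x := by field_simp
  rw [hA'] at hA
  rw [hB'] at hB
  have hk1 : 0 ≤ κ * x := by positivity
  have hk2 : 0 ≤ κ ^ 2 * x := by positivity
  nlinarith [mul_nonneg hC.le hk1, mul_nonneg hC.le hk2]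

end GP
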