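import Pool.Agent.LibGP53.Defs

/-! Row R1 (35 min): the steps of `FF l`. `u n = ⌊n + l log n⌋₊ ≥ n`, `FF l n = π(u n) - π(n)`. For `n > max 4 l`: `l (log (n+1) - log n) ≤ l/n < 1`, so
`u n < u (n+1) ≤ u n + 2`. `π(n+1) - π(n)` is `1` if `n+1` is prime, else `0` (`Nat.primeCounting`, `Nat.count_succ`).
`π(u (n+1)) - π(u n)` is `0` or `1` (two consecutive integers `> 2` are not both prime), and if it is `1` there is a prime in `(u n, u (n+1)]`. -/

open Finset

namespace GP

theorem R1_pc_succ (k : ℕ) :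
    Nat.primeCounting (k + 1) = Nat.primeCounting k + if (k + 1).Prime then 1 else 0 := by
  simp only [Nat.primeCounting, Nat.primeCounting']
  rw [Nat.count_succ (p := Nat.Prime) (n := k + 1)]

theorem R1_not_both (k : ℕ) (hk : 2 ≤ k) : ¬ ((k + 1).Prime ∧ (k + 2).Prime) := by
  rintro ⟨h1, h2⟩
  rcases h1.eq_two_or_odd with h | h
  · omega
  · rcases h2.eq_two_or_odd with h' | h'
    · omega
    · omega

/-- the two possible values of the step of the counting function at `u` -/
theorem R1_two_step (u v : ℕ) (hu : 2 ≤ u) (h1 : u < v) (h2 : v ≤ u + 2) :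
    Nat.primeCounting v = Nat.primeCounting u ∨
      (Nat.primeCounting v = Nat.primeCounting u + 1 ∧ ∃ q : ℕ, q.Prime ∧ u < q ∧ q ≤ v) := by
  have hv : v = u + 1 ∨ v = u + 2 := by omega
  rcases hv with rfl | rfl
  · rw [R1_pc_succ]
    by_cases h : (u + 1).Prime
    · right
      rw [if_pos h]
      exact ⟨rfl, u + 1, h, by omega, le_refl _⟩
    · left
      rw [if_neg h, add_zero]
  · rw [show u + 2 = (u + 1) + 1 by ring, R1_pc_succ (u + 1), R1_pc_succ u]
    by_cases h : (u + 1).Prime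
    · have h' : ¬ (u + 1 + 1).Prime := fun h' => R1_not_both u hu ⟨h, h'⟩
      right
      rw [if_pos h, if_neg h']
      exact ⟨rfl, u + 1, h, by omega, by omega⟩
    · by_cases h' : (u + 1 + 1).Prime
      · right
        rw [if_neg h, if_pos h']
        exact ⟨by omega, u + 1 + 1, h', by omega, by omega⟩
      · left
        rw [if_neg h, if_neg h']
        omega

theorem step (l : ℝ) (hl : 0 < l) : ∃ n₀ : ℕ, ∀ n : ℕ, n₀ ≤ n →
    FF l (n + 1) ≤ FF l n + 1 ∧ FF l n ≤ FF l (n + 1) + 1 ∧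
    (FF l (n + 1) ≠ FF l n → (n + 1).Prime ∨ ∃ q : ℕ, q.Prime ∧ ⌊(n : ℝ) + l * Real.log n⌋₊ < q ∧
      q ≤ ⌊((n + 1 : ℕ) : ℝ) + l * Real.log ((n + 1 : ℕ) : ℝ)⌋₊) := by
  refine ⟨⌈l⌉₊ + 5, fun n hn => ?_⟩
  have hn4 : 4 ≤ n := by omega
  have hnl : l < n := by
    have h1 : l ≤ (⌈l⌉₊ : ℝ) := Nat.le_ceil l
    have h2 : ((⌈l⌉₊ + 5 : ℕ) : ℝ) ≤ n := by exact_mod_cast hn
    push_cast at h2
    linarith
  have hn0 : (0 : ℝ) < n := by positivity
  have hlog : 0 ≤ l * Real.log n :=
    mul_nonneg hl.le (Real.log_nonneg (by exact_mod_cast (by omega : 1 ≤ n)))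
  have hlog' : 0 ≤ l * Real.log ((n + 1 : ℕ) : ℝ) :=
    mul_nonneg hl.le (Real.log_nonneg (by exact_mod_cast (by omega : 1 ≤ n + 1)))
  have hmono : Real.log n ≤ Real.log ((n + 1 : ℕ) : ℝ) :=
    Real.log_le_log hn0 (by push_cast; linarith)
  have hdiff : l * Real.log ((n + 1 : ℕ) : ℝ) - l * Real.log n < 1 := by
    have h1 : Real.log ((n + 1 : ℕ) : ℝ) - Real.log n ≤ 1 / n := by
      rw [← Real.log_div (by positivity) hn0.ne']
      have h2 := Real.log_le_sub_one_of_pos (x := ((n + 1 : ℕ) : ℝ) / n) (by positivity)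
      refine h2.trans (le_of_eq ?_)
      push_cast
      field_simp
      ring
    have h3 : l * (1 / (n : ℝ)) < 1 := by
      rw [mul_one_div, div_lt_one hn0]
      exact hnl
    have h4 := mul_le_mul_of_nonneg_left h1 hl.le
    nlinarith
  set u := ⌊(n : ℝ) + l * Real.log n⌋₊ with hu
  set v := ⌊((n + 1 : ℕ) : ℝ) + l * Real.log ((n + 1 : ℕ) : ℝ)⌋₊ with hv
  have hun : n ≤ u := Nat.le_floor (by linarith)
  have hvn : n + 1 ≤ v := Nat.le_floor (by linarith)
  have huv : u < v := by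
    rw [Nat.lt_iff_add_one_le]
    apply Nat.le_floor
    have h1 : (u : ℝ) ≤ (n : ℝ) + l * Real.log n := Nat.floor_le (by linarith)
    have h2 := mul_le_mul_of_nonneg_left hmono hl.le
    push_cast at h2 ⊢
    linarith
  have hvu : v ≤ u + 2 := by
    have h1 : (n : ℝ) + l * Real.log n < u + 1 := Nat.lt_floor_add_one _
    have h2 : v < u + 3 := by
      rw [hv, Nat.floor_lt (by positivity)]
      push_cast at hdiff ⊢
      linarith
    omega
  have hF : FF l n = Nat.primeCounting u - Nat.primeCounting n := rfl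
  have hF' : FF l (n + 1) = Nat.primeCounting v - Nat.primeCounting (n + 1) := rfl
  have hm1 : Nat.primeCounting n ≤ Nat.primeCounting u := Nat.monotone_primeCounting hun
  have hm2 : Nat.primeCounting (n + 1) ≤ Nat.primeCounting v := Nat.monotone_primeCounting hvn
  have ha := R1_pc_succ n
  rcases R1_two_step u v (by omega) huv hvu with hb | ⟨hb, q, hq, hq1, hq2⟩
  · by_cases h : (n + 1).Prime
    · rw [if_pos h] at ha
      exact ⟨by omega, by omega, fun _ => Or.inl h⟩
    · rw [if_neg h] at ha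
      exact ⟨by omega, by omega, fun hne => absurd (by omega) hne⟩
  · by_cases h : (n + 1).Prime
    · rw [if_pos h] at ha
      exact ⟨by omega, by omega, fun _ => Or.inl h⟩
    · rw [if_neg h] at ha
      exact ⟨by omega, by omega, fun _ => Or.inr ⟨q, hq, hq1, hq2⟩⟩

end GP
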