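import Mathlib

/-! Row U3 (35 min): pairs of `k`-sets. For fixed `h'`... count by the union `U = h ∪ h'`: `card U ≤ 2 k` and at most `4 ^ card U` pairs `(h, h')` have union `U`; hence the sum is at most
`∑_{t ≤ 2k} C(card H, t) 4^t v^t ≤ ∑_{t ≤ 2k} (4 (card H) v)^t ≤ (2k+1) (4Λ)^(2k)`. (Or: fix `h`; `v^(card (h ∪ h')) = v^k v^(card (h' \ h))`; any proof is fine.) -/

open Finset

namespace GP

theorem pairs_sum (H : Finset ℕ) (k : ℕ) (v Λ : ℝ) (hv : 0 ≤ v) (hΛ : 1 ≤ Λ) (hH : (H.card : ℝ) * v ≤ Λ) :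
    ∑ h ∈ powersetCard k H, ∑ h' ∈ powersetCard k H, v ^ (h ∪ h').card ≤
      (2 * k + 1) * (4 * Λ) ^ (2 * k) := by
  classical
  have hn0 : (0 : ℝ) ≤ (H.card : ℝ) := Nat.cast_nonneg _
  -- the sum over pairs, grouped by the union
  have h1 : ∑ h ∈ powersetCard k H, ∑ h' ∈ powersetCard k H, v ^ (h ∪ h').card =
      ∑ q ∈ powersetCard k H ×ˢ powersetCard k H, v ^ (q.1 ∪ q.2).card := by
    rw [sum_product]
  have hmaps : ∀ q ∈ powersetCard k H ×ˢ powersetCard k H,
      q.1 ∪ q.2 ∈ H.powerset.filter (fun U => U.card ≤ 2 * k) := by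
    intro q hq
    obtain ⟨hq1, hq2⟩ := mem_product.1 hq
    obtain ⟨ha, hb⟩ := mem_powersetCard.1 hq1
    obtain ⟨hc, hd⟩ := mem_powersetCard.1 hq2
    refine mem_filter.2 ⟨mem_powerset.2 (union_subset ha hc), ?_⟩
    have := card_union_le q.1 q.2
    omega
  have h2 : ∑ q ∈ powersetCard k H ×ˢ powersetCard k H, v ^ (q.1 ∪ q.2).card ≤
      ∑ U ∈ H.powerset.filter (fun U => U.card ≤ 2 * k), (4 * v) ^ U.card := by
    rw [← sum_fiberwise_of_maps_to hmaps]
    refine sum_le_sum fun U _ => ?_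
    have h3 : ∀ q ∈ (powersetCard k H ×ˢ powersetCard k H).filter (fun q => q.1 ∪ q.2 = U),
        v ^ (q.1 ∪ q.2).card = v ^ U.card := by
      intro q hq
      rw [(mem_filter.1 hq).2]
    rw [sum_congr rfl h3, sum_const, nsmul_eq_mul, mul_pow]
    refine mul_le_mul_of_nonneg_right ?_ (pow_nonneg hv _)
    have h4 : (powersetCard k H ×ˢ powersetCard k H).filter (fun q => q.1 ∪ q.2 = U) ⊆
        U.powerset ×ˢ U.powerset := by
      intro q hq
      have h5 := (mem_filter.1 hq).2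
      refine mem_product.2 ⟨mem_powerset.2 ?_, mem_powerset.2 ?_⟩
      · rw [← h5]
        exact subset_union_left
      · rw [← h5]
        exact subset_union_right
    have h5 := card_le_card h4
    rw [card_product, card_powerset, ← mul_pow] at h5
    have h6 : ((2 * 2) ^ U.card : ℕ) = 4 ^ U.card := by norm_num
    rw [h6] at h5
    exact_mod_cast h5
  -- grouping by the cardinality
  have hmaps2 : ∀ U ∈ H.powerset.filter (fun U => U.card ≤ 2 * k), U.card ∈ range (2 * k + 1) := by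
    intro U hU
    exact mem_range.2 (Nat.lt_succ_of_le (mem_filter.1 hU).2)
  have h3 : ∑ U ∈ H.powerset.filter (fun U => U.card ≤ 2 * k), (4 * v) ^ U.card ≤
      ∑ t ∈ range (2 * k + 1), (4 * Λ) ^ (2 * k) := by
    rw [← sum_fiberwise_of_maps_to hmaps2]
    refine sum_le_sum fun t ht => ?_
    have ht' : t ≤ 2 * k := Nat.lt_succ_iff.1 (mem_range.1 ht)
    have h4 : ∀ U ∈ (H.powerset.filter (fun U => U.card ≤ 2 * k)).filter (fun U => U.card = t),
        (4 * v) ^ U.card = (4 * v) ^ t := by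
      intro U hU
      rw [(mem_filter.1 hU).2]
    rw [sum_congr rfl h4, sum_const, nsmul_eq_mul]
    have h5 : (H.powerset.filter (fun U => U.card ≤ 2 * k)).filter (fun U => U.card = t) ⊆
        powersetCard t H := by
      intro U hU
      obtain ⟨ha, hb⟩ := mem_filter.1 hU
      exact mem_powersetCard.2 ⟨mem_powerset.1 (mem_filter.1 ha).1, hb⟩
    have h6 : (((H.powerset.filter (fun U => U.card ≤ 2 * k)).filter
        (fun U => U.card = t)).card : ℝ) ≤ (H.card : ℝ) ^ t := by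
      have h7 := card_le_card h5
      rw [card_powersetCard] at h7
      have h8 := h7.trans (Nat.choose_le_pow H.card t)
      exact_mod_cast h8
    have h4v : 0 ≤ 4 * v := by linarith
    calc _ ≤ (H.card : ℝ) ^ t * (4 * v) ^ t := mul_le_mul_of_nonneg_right h6 (pow_nonneg h4v t)
      _ = (4 * (H.card * v)) ^ t := by rw [← mul_pow]; congr 1; ring
      _ ≤ (4 * Λ) ^ t := pow_le_pow_left₀ (by positivity) (by linarith) t
      _ ≤ (4 * Λ) ^ (2 * k) := pow_le_pow_right₀ (by linarith) ht'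
  rw [h1]
  refine (h2.trans h3).trans (le_of_eq ?_)
  rw [sum_const, card_range, nsmul_eq_mul]
  push_cast
  ring

end GP
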